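import Pool.Agent.Work.MP_308fa9_nt.CG.CVal

/-! # Case (A1): `l' ≢ 1 mod 20` -/

set_option autoImplicit false

namespace MP308.CG

open MP308.CE (Ell Reg EDSZ op J Smooth hil hil_odd_two hil_two_odd J_flip J_neg_left J_sq
  J_period J_shift J_shift_mul J_four)

variable {α β γ : ℤ}

private theorem a1_tab (h : Par α β γ) {n : ℤ} (k : ℕ) (x y : ℤ) (hk : n % 20 = k)
    (hn : n % 2 = 1) (hx : CE.tab0.getD k 0 = x) (hy : CE.tab2.getD k 0 = y) :
    W α β γ n % 8 = if γ % 4 = 0 then x else y := by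
  rw [W_mod8 h.toPar₀, tab, if_neg (by omega), CE.tab, hk, Int.toNat_natCast]
  split_ifs
  · exact hx
  · exact hy

private theorem a1_tabe (h : Par α β γ) {n : ℤ} (k : ℕ) (x y : ℤ) (hk : n % 20 = k)
    (hn : n % 2 = 0) (hx : CE.tab0.getD k 0 = x) (hy : CE.tab2.getD k 0 = y) :
    W α β γ n % 8 = (β * if γ % 4 = 0 then x else y) % 8 := by
  rw [W_mod8 h.toPar₀, tab, if_pos hn, CE.tab, hk, Int.toNat_natCast]
  split_ifs
  · rw [hx]
  · rw [hy]

private theorem a1_pm {x : ℤ} (hx : x = 1 ∨ x = -1) (k : ℕ) (hk : k % 2 = 1) : x ^ k = x := by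
  rcases hx with rfl | rfl
  · exact one_pow k
  · exact Odd.neg_one_pow (Nat.odd_iff.2 hk)

private theorem a1_mul {x y z : ℤ} (hy : y = 1 ∨ y = -1) (h : x * y = z) : x = z * y := by
  rcases hy with rfl | rfl
  · linarith
  · linarith

/-- `l = ±ℓ ≡ 1 mod 4` -/
theorem caseA1 (h : Par α β γ) {t l b : ℤ} (hl : Prime l) (hl4 : l % 4 = 1) (hl5 : l % 5 ≠ 0)
    (hl20 : l % 20 ≠ 1) (hb : b % 40 = 24) (htl : ¬ l ∣ t)
    (ht : 2 * (b * l) ∣ t - (1 + b + b * l)) (hg : Good α β γ t (b * l)) (hgl : Good α β γ t l) : False := by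
  have hE := edsz_W h
  have hb0 : b ≠ 0 := by omega
  have hl0 : l ≠ 0 := hl.ne_zero
  have hn0 : b * l ≠ 0 := mul_ne_zero hb0 hl0
  have hs0 : b + 1 ≠ 0 := by omega
  obtain ⟨k, hk⟩ := ht
  -- coprimality
  have ctb : IsCoprime t b := by
    refine ⟨1, -(1 + l + 2 * l * k), ?_⟩
    linear_combination hk
  have ctl : IsCoprime t l := ((hl.coprime_iff_not_dvd).2 htl).symm
  have ctn : IsCoprime t (b * l) := ctb.mul_right ctl
  have csl : IsCoprime (b + 1) l := by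
    have e : b + 1 = t + l * (-(b * (1 + 2 * k))) := by linear_combination (-1 : ℤ) * hk
    rw [e]
    exact (IsCoprime.add_mul_left_left_iff).2 ctl
  have csb : IsCoprime (b + 1) b := ⟨1, -1, by ring⟩
  have csn : IsCoprime (b + 1) (b * l) := csb.mul_right csl
  -- the residues
  have hl20' : l % 20 = 9 ∨ l % 20 = 13 ∨ l % 20 = 17 := by omega
  have hb20 : b % 20 = 4 := by omega
  have hs20 : (b + 1) % 20 = 5 := by omega
  have hn8 : (b * l) % 8 = 0 := by
    obtain ⟨b', hb'⟩ : (8 : ℤ) ∣ b := by omega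
    rw [hb', mul_assoc]
    exact Int.mul_emod_right 8 _
  have hn5 : (b * l) % 5 ≠ 0 := by
    intro h0
    have p5 : Prime (5 : ℤ) := by norm_num
    rcases p5.dvd_or_dvd (Int.dvd_of_emod_eq_zero h0) with h1 | h1 <;> omega
  -- step 1
  have e1 : J (W α β γ) t (b * l) = 1 := J_of_good h hn0 ctn hg
  have e2 : J (W α β γ) t (b * l) = J (W α β γ) ((b + 1) + b * l) (b * l) := by
    apply J_period hE hn0 (s := (b + 1) + b * l) (s' := t)
    · exact (IsCoprime.add_mul_right_left_iff (z := 1) |>.2 csn) |> (by simpa using ·)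
    · exact ⟨k, by linear_combination hk⟩
  have e3 := J_shift hE hn0 csn
  rw [c_8 h hn8 hn5] at e3
  -- step 2
  have hs4 : (b + 1) % 4 = 1 := by omega
  have e4 := J_flip hE hn0 csn hs4
  -- step 3
  have cls : IsCoprime (-l) (b + 1) := (IsCoprime.neg_left_iff _ _).2 csl.symm
  have e5 := J_shift_mul hE hs0 cls l
  have e5' : -l + l * (b + 1) = b * l := by ring
  have hlabs : l.natAbs % 2 = 1 := by omega
  have cc : IsCoprime (b + 1 + 1) (b + 1) := ⟨1, -1, by ring⟩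
  rw [e5', a1_pm (J_sq hE hs0 cc) _ hlabs, J_neg_left hE hs0] at e5
  -- step 4
  have e6 := J_flip hE hs0 csl.symm hl4
  have e7 : J (W α β γ) t l = J (W α β γ) (b + 1) l := by
    apply J_period hE hl0 csl
    obtain ⟨b', hb'⟩ : (2 : ℤ) ∣ b := by omega
    refine ⟨b' * (1 + 2 * k), ?_⟩
    linear_combination hk + (l + 2 * l * k) * hb'
  rw [J_of_good h hl0 ctl hgl] at e7
  replace e7 := e7.symm
  rw [e7, mul_one] at e6
  -- step 5
  have e8 := J_four hE hb0 (by omega)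
  rw [c_8 h (by omega) (by omega), show b + 2 = b + 1 + 1 by ring] at e8
  -- the product
  have hJ := J_sq hE hs0 csn.symm
  have e9 := a1_mul hJ e4
  rw [e1, e3, e9, e5] at e2
  rw [e6] at e2
  -- the values
  have hWs := a1_tab h 5 2 6 hs20 (by omega) rfl rfl
  have hWb := a1_tabe h 4 7 3 hb20 (by omega) rfl rfl
  have hfin : hil (W α β γ (b + 1)) (W α β γ (b * l)) * hil (W α β γ (b + 1)) (W α β γ b) *
      hil (W α β γ l) (W α β γ (b + 1)) = 1 := by
    linear_combination (-1 : ℤ) * e2 + (-1 : ℤ) * hil (W α β γ (b + 1)) (W α β γ (b * l)) *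
      hil (W α β γ l) (W α β γ (b + 1)) * e8
  obtain ⟨u, hu⟩ : (2 : ℤ) ∣ W α β γ (b + 1) := (two_dvd_W_iff h.toPar₀ _).2 (by omega)
  have hc4 : γ % 4 = 0 ∨ γ % 4 = 2 := by
    have := h.hc
    omega
  rw [hu] at hWs hfin
  have hn20 : ∀ j r : ℤ, l % 20 = j → (4 * j) % 20 = r → (b * l) % 20 = r := by
    intro j r h1 h2
    rw [Int.mul_emod, hb20, h1]
    exact h2
  have hn2 : (b * l) % 2 = 0 := by omega
  have hl2 : l % 2 = 1 := by omega
  have hβ := h.hb
  have hcases : ((W α β γ l % 8 = (if γ % 4 = 0 then 3 else 3)) ∧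
        W α β γ (b * l) % 8 = (β * if γ % 4 = 0 then 1 else 5) % 8) ∨
      ((W α β γ l % 8 = (if γ % 4 = 0 then 5 else 5)) ∧
        W α β γ (b * l) % 8 = (β * if γ % 4 = 0 then 1 else 1) % 8) ∨
      ((W α β γ l % 8 = (if γ % 4 = 0 then 3 else 3)) ∧
        W α β γ (b * l) % 8 = (β * if γ % 4 = 0 then 7 else 7) % 8) := by
    rcases hl20' with hl' | hl' | hl'
    · exact .inl ⟨a1_tab h 9 3 3 hl' hl2 rfl rfl,
        a1_tabe h 16 1 5 (hn20 _ 16 hl' (by norm_num)) hn2 rfl rfl⟩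
    · exact .inr (.inl ⟨a1_tab h 13 5 5 hl' hl2 rfl rfl,
        a1_tabe h 12 1 1 (hn20 _ 12 hl' (by norm_num)) hn2 rfl rfl⟩)
    · exact .inr (.inr ⟨a1_tab h 17 3 3 hl' hl2 rfl rfl,
        a1_tabe h 8 7 7 (hn20 _ 8 hl' (by norm_num)) hn2 rfl rfl⟩)
  have hu1 : u % 2 = 1 := by
    rcases hc4 with hc4 | hc4
    · rw [if_pos hc4] at hWs; omega
    · rw [if_neg (by omega)] at hWs; omega
  have hb1 : W α β γ b % 2 = 1 := by
    rcases hc4 with hc4 | hc4
    · rw [if_pos hc4] at hWb; omega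
    · rw [if_neg (by omega)] at hWb; omega
  have hbl1 : W α β γ (b * l) % 2 = 1 := by
    rcases hc4 with hc4 | hc4
    · simp only [if_pos hc4] at hcases; omega
    · simp only [if_neg (show ¬ γ % 4 = 0 by omega)] at hcases; omega
  have hl1 : W α β γ l % 2 = 1 := by
    rcases hc4 with hc4 | hc4
    · simp only [if_pos hc4] at hcases; omega
    · simp only [if_neg (show ¬ γ % 4 = 0 by omega)] at hcases; omega
  rw [hil_two_odd hu1 hbl1, hil_two_odd hu1 hb1, hil_odd_two hl1 hu1] at hfin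
  clear e2 e3 e4 e5 e6 e7 e8 e9 hJ
  rcases hc4 with hc4 | hc4
  · simp only [if_pos hc4] at hcases
    rw [if_pos hc4] at hWs hWb
    rcases hcases with ⟨hWl, hWn⟩ | ⟨hWl, hWn⟩ | ⟨hWl, hWn⟩ <;> split_ifs at hfin <;> omega
  · have hc4' : ¬ γ % 4 = 0 := by omega
    simp only [if_neg hc4'] at hcases
    rw [if_neg hc4'] at hWs hWb
    rcases hcases with ⟨hWl, hWn⟩ | ⟨hWl, hWn⟩ | ⟨hWl, hWn⟩ <;> split_ifs at hfin <;> omega

end MP308.CG
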