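import Pool.Agent.Work.MP_308fa9_nt.CG.CVal

/-! # Case (A2): `l' ≡ 1 mod 20` -/

set_option autoImplicit false

namespace MP308.CG

open MP308.CE (Ell Reg EDSZ op J Smooth hil hil_odd_two hil_odd_odd hil_of_one jac_neg_one
  jac_neg_one_two op_neg J_flip J_neg_left J_neg_right J_sq J_period)

variable {α β γ : ℤ}

private theorem A2_W11 (h : Par α β γ) {s : ℤ} (hs : s % 20 = 11) : W α β γ s % 8 = 5 := by
  rw [W_mod8 h.toPar₀, tab, if_neg (by omega), CE.tab, hs]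
  split_ifs <;> rfl

private theorem A2_W1 (h : Par α β γ) {s : ℤ} (hs : s % 20 = 1) : W α β γ s % 8 = 1 := by
  rw [W_mod8 h.toPar₀, tab, if_neg (by omega), CE.tab, hs]
  split_ifs <;> rfl

private theorem A2_W5 (h : Par α β γ) {s : ℤ} (hs : s % 2 = 1) (h5 : s % 5 = 0) :
    W α β γ s % 4 = 2 := by
  have h20 : s % 20 = 5 ∨ s % 20 = 15 := by omega
  have h8 : W α β γ s % 8 = 2 ∨ W α β γ s % 8 = 6 := by
    rw [W_mod8 h.toPar₀, tab, if_neg (by omega), CE.tab]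
    rcases h20 with h20 | h20 <;> rw [h20] <;> split_ifs <;> simp [CE.tab0, CE.tab2]
  omega

private theorem A2_odd (h : Par α β γ) {s : ℤ} (h5 : s % 5 ≠ 0) : W α β γ s % 2 = 1 := by
  have := two_dvd_W_iff h.toPar₀ (n := s)
  omega

/-- the sign in the flip, `U ≡ 3 mod 8`, `m` odd -/
private theorem A2_sign (h : Par α β γ) {U m : ℤ} (hU : U % 8 = 3) (hm : m % 2 = 1) :
    jacobiSym (-1) (op (W α β γ m)) * hil U (W α β γ m)
      = (if m % 4 = 1 then 1 else -1) * (if m % 5 = 0 then -1 else 1) := by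
  have hU2 : U % 2 = 1 := by omega
  have hU4 : U % 4 = 3 := by omega
  by_cases h4 : m % 4 = 1
  · have hp : 0 < W α β γ m := (edsz_W h).pos m h4
    rw [if_pos h4]
    by_cases h5 : m % 5 = 0
    · rw [if_pos h5]
      obtain ⟨w, hw⟩ : ∃ w, W α β γ m = 2 * w := ⟨W α β γ m / 2, by
        have := A2_W5 h hm h5
        omega⟩
      have hw2 : w % 2 = 1 := by
        have := A2_W5 h hm h5
        omega
      rw [hw, jac_neg_one_two hw2 (by omega), hil_odd_two hU2 hw2]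
      by_cases hw4 : w % 4 = 3 <;> simp [hw4, hU, hU4]
    · rw [if_neg h5]
      have hw2 := A2_odd h h5
      rw [jac_neg_one hw2 hp, hil_odd_odd hU2 hw2]
      by_cases hw4 : W α β γ m % 4 = 3 <;> simp [hw4, hU4]
  · have h4' : -m % 4 = 1 := by omega
    have hp : 0 < W α β γ (-m) := (edsz_W h).pos (-m) h4'
    rw [W_neg] at hp
    rw [if_neg h4]
    by_cases h5 : m % 5 = 0
    · rw [if_pos h5]
      obtain ⟨w, hw⟩ : ∃ w, W α β γ m = 2 * w := ⟨W α β γ m / 2, by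
        have := A2_W5 h hm h5
        omega⟩
      have hw2 : w % 2 = 1 := by
        have := A2_W5 h hm h5
        omega
      have hw2' : -w % 2 = 1 := by omega
      rw [hw, ← op_neg, show -(2 * w) = 2 * (-w) by ring, jac_neg_one_two hw2' (by omega),
        hil_odd_two hU2 hw2]
      by_cases hw4 : w % 4 = 3
      · have : ¬ (-w) % 4 = 3 := by omega
        simp [hw4, hU, hU4, this]
      · have : (-w) % 4 = 3 := by omega
        simp [hw4, hU, this]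
    · rw [if_neg h5]
      have hw2 := A2_odd h h5
      have hw2' : -W α β γ m % 2 = 1 := by omega
      rw [← op_neg, jac_neg_one hw2' hp, hil_odd_odd hU2 hw2]
      by_cases hw4 : W α β γ m % 4 = 3
      · have : ¬ (-W α β γ m) % 4 = 3 := by omega
        simp [hw4, hU4, this]
      · have : (-W α β γ m) % 4 = 3 := by omega
        simp [hw4, this]

/-- the flip of `s ≡ 11 mod 20` and an odd `m` -/
private theorem A2_flip (h : Par α β γ) {s m : ℤ} (hs : s % 20 = 11) (hm : m % 2 = 1)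
    (hsm : IsCoprime s m) :
    J (W α β γ) s m = (if m % 4 = 1 then 1 else -1) * (if m % 5 = 0 then -1 else 1) *
      J (W α β γ) m s := by
  have hE := edsz_W h
  have hm0 : m ≠ 0 := by omega
  have hs0 : s ≠ 0 := by omega
  have e1 := J_flip hE hm0 hsm.neg_left (by omega)
  rw [J_neg_left hE hm0, J_neg_right hE] at e1
  have hU : W α β γ (-s) % 8 = 3 := by
    have := A2_W11 h hs
    rw [W_neg]
    omega
  have e2 := A2_sign h hU hm
  rw [← e1] at e2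
  rw [← e2]
  have e3 : J (W α β γ) m s * J (W α β γ) m s = 1 := by
    rcases J_sq hE hs0 hsm.symm with e | e <;> rw [e] <;> norm_num
  have e4 : jacobiSym (-1) (op (W α β γ m)) ^ 2 = 1 := jacobiSym.sq_one (by simp)
  linear_combination (-J (W α β γ) s m) * e3 - J (W α β γ) s m * J (W α β γ) m s * J (W α β γ) m s * e4

/-- the common facts about `t' = 1 + b k` and `A = b + 2^a` -/
private theorem A2_facts {t l b k : ℤ} {a : ℕ} (hl : Prime l) (hl20 : l % 20 = 1)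
    (ha : 1 ≤ a) (hk : k * 2 ^ a = 1 - l) (hk4 : k % 4 = 2) (hb : b % 2 = 1) (htl : ¬ l ∣ t)
    (ht : 2 * (b * l) ∣ t - (1 + b * k)) :
    (1 + b * k) % 20 = 11 ∧ (b + 2 ^ a) % 2 = 1 ∧ IsCoprime t (b * l) ∧
      IsCoprime (1 + b * k) (b * l) ∧ IsCoprime (b + 2 ^ a) l ∧
      IsCoprime (b + 2 ^ a) (1 + b * k) := by
  have h5 : k % 5 = 0 := by
    have h1 : (5 : ℤ) ∣ k * 2 ^ a := by rw [hk]; omega
    have h2 : IsCoprime (5 : ℤ) (2 ^ a) := (show IsCoprime (5 : ℤ) 2 from ⟨1, -2, by norm_num⟩).pow_right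
    have := h2.dvd_of_dvd_mul_right h1
    omega
  have hbk : (b * k) % 20 = 10 := by
    obtain ⟨q, hq⟩ : ∃ q, k = 20 * q + 10 := ⟨k / 20, by omega⟩
    obtain ⟨p, hp⟩ : ∃ p, b = 2 * p + 1 := ⟨b / 2, by omega⟩
    have : b * k = 20 * (2 * p * q + p + q) + 10 := by rw [hq, hp]; ring
    omega
  have h2a : (2 : ℤ) ^ a % 2 = 0 := by
    obtain ⟨m, rfl⟩ : ∃ m, a = m + 1 := ⟨a - 1, by omega⟩
    rw [pow_succ]
    omega
  obtain ⟨z, hz⟩ := ht
  have c1 : IsCoprime t b := ⟨1, -(k + 2 * l * z), by linear_combination hz⟩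
  have c2 : IsCoprime t l := ((hl.irreducible.coprime_iff_not_dvd).2 htl).symm
  have c3 : IsCoprime t (b * l) := c1.mul_right c2
  have c4 : IsCoprime (1 + b * k) (b * l) := by
    have : 1 + b * k = t + b * l * (-2 * z) := by linear_combination (-1 : ℤ) * hz
    rw [this]
    exact IsCoprime.add_mul_left_left c3 _
  have c5 : IsCoprime (b + 2 ^ a) l := by
    have c6 : IsCoprime ((2 : ℤ) ^ a * (1 + b * k)) l := by
      refine IsCoprime.mul_left ?_ (c4.of_mul_right_right)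
      exact ⟨k, 1, by linear_combination hk⟩
    have : b + 2 ^ a = 2 ^ a * (1 + b * k) + l * b := by linear_combination (-b) * hk
    rw [this]
    exact IsCoprime.add_mul_left_left c6 _
  refine ⟨by omega, by omega, c3, c4, c5, ?_⟩
  have : 1 + b * k = l + (b + 2 ^ a) * k := by linear_combination (-1 : ℤ) * hk
  rw [this]
  exact IsCoprime.add_mul_left_right c5 _

/-- the value of `J(A, l)`, `A = b + 2^a`, forced by the local condition for `n = b l` -/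
theorem caseA2_val (h : Par α β γ) {t l b k : ℤ} {a : ℕ} (hl : Prime l) (hl20 : l % 20 = 1)
    (ha : 1 ≤ a) (hk : k * 2 ^ a = 1 - l) (hk4 : k % 4 = 2) (hb : b % 2 = 1) (htl : ¬ l ∣ t)
    (ht : 2 * (b * l) ∣ t - (1 + b * k)) (hg : Good α β γ t (b * l)) :
    J (W α β γ) (b + 2 ^ a) l = (if a = 1 then -1 else 1) * (if b % 5 = 0 then -1 else 1) *
      (if (b + 2 ^ a) % 5 = 0 then -1 else 1) := by
  obtain ⟨f1, f2, f3, f4, f5, f6⟩ := A2_facts hl hl20 ha hk hk4 hb htl ht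
  have hE := edsz_W h
  have hb0 : b ≠ 0 := by omega
  have hl0 : l ≠ 0 := by omega
  have hn0 : b * l ≠ 0 := mul_ne_zero hb0 hl0
  have ht0 : 1 + b * k ≠ 0 := by omega
  have hA0 : b + 2 ^ a ≠ 0 := by omega
  have hn2 : (b * l) % 2 = 1 := by
    rw [Int.mul_emod, hb]; omega
  have hn4 : (b * l) % 4 = b % 4 := by
    obtain ⟨q, hq⟩ : ∃ q, l = 4 * q + 1 := ⟨l / 4, by omega⟩
    have : b * l = 4 * (b * q) + b := by rw [hq]; ring
    omega
  have hn5 : (b * l) % 5 = b % 5 := by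
    obtain ⟨q, hq⟩ : ∃ q, l = 5 * q + 1 := ⟨l / 5, by omega⟩
    have : b * l = 5 * (b * q) + b := by rw [hq]; ring
    omega
  obtain ⟨m, hm⟩ : ∃ m, a = m + 1 := ⟨a - 1, by omega⟩
  -- the chain
  have e1 : J (W α β γ) (1 + b * k) (b * l) = 1 := by
    rw [← dvd_neg, neg_sub] at ht
    exact (J_period hE hn0 f3 ht).trans (J_of_good h hn0 f3 hg)
  have e2 := A2_flip h f1 hn2 f4
  have e3 : J (W α β γ) (b * l) (1 + b * k) = J (W α β γ) (b + 2 ^ a) (1 + b * k) := by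
    refine J_period hE ht0 f6 ⟨-2 ^ m, ?_⟩
    have h2 : (2 : ℤ) ^ a = 2 * 2 ^ m := by rw [hm]; ring
    linear_combination b * hk - (1 + b * k) * h2
  have e4 := A2_flip h f1 f2 f6.symm
  have e5 : J (W α β γ) (1 + b * k) (b + 2 ^ a) = J (W α β γ) l (b + 2 ^ a) := by
    refine J_period hE hA0 f5.symm ⟨k / 2, ?_⟩
    have h2 : k = 2 * (k / 2) := by omega
    linear_combination (-1 : ℤ) * hk + (b + 2 ^ a) * h2
  have e6 : J (W α β γ) l (b + 2 ^ a) * J (W α β γ) (b + 2 ^ a) l = 1 := by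
    rw [J_flip hE hA0 f5.symm (by omega)]
    exact hil_of_one (A2_W1 h hl20) (hE.ne _ hA0)
  have e7 : J (W α β γ) (b + 2 ^ a) l = J (W α β γ) l (b + 2 ^ a) := by
    rcases J_sq hE hA0 f5.symm with e | e <;> rw [e] at e6 ⊢ <;> linarith
  rw [e7, ← e5, e4, ← e3]
  rw [e1] at e2
  rw [hn5, hn4] at e2
  have e8 : J (W α β γ) (b * l) (1 + b * k) = 1 ∨ J (W α β γ) (b * l) (1 + b * k) = -1 := by
    rw [e3]
    exact J_sq hE ht0 f6
  have h2a1 : a = 1 → (b + 2 ^ a) % 4 = (b + 2) % 4 := by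
    intro ha1; rw [ha1]; norm_num
  have h2a2 : a ≠ 1 → (b + 2 ^ a) % 4 = b % 4 := by
    intro ha1
    obtain ⟨r, hr⟩ : ∃ r, a = r + 2 := ⟨a - 2, by omega⟩
    have : (2 : ℤ) ^ a = 4 * 2 ^ r := by rw [hr]; ring
    omega
  clear e1 e3 e4 e5 e6 e7
  by_cases ha1 : a = 1
  · rw [if_pos ha1]
    have h2 := h2a1 ha1
    by_cases hb4 : b % 4 = 1
    · rw [if_pos hb4] at e2
      rw [if_neg (show ¬ (b + 2 ^ a) % 4 = 1 by omega)]
      rcases e8 with e | e <;> rw [e] at e2 ⊢ <;> split_ifs at e2 ⊢ <;> omega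
    · rw [if_neg hb4] at e2
      rw [if_pos (show (b + 2 ^ a) % 4 = 1 by omega)]
      rcases e8 with e | e <;> rw [e] at e2 ⊢ <;> split_ifs at e2 ⊢ <;> omega
  · rw [if_neg ha1, h2a2 ha1]
    by_cases hb4 : b % 4 = 1
    · rw [if_pos hb4] at e2 ⊢
      rcases e8 with e | e <;> rw [e] at e2 ⊢ <;> split_ifs at e2 ⊢ <;> omega
    · rw [if_neg hb4] at e2 ⊢
      rcases e8 with e | e <;> rw [e] at e2 ⊢ <;> split_ifs at e2 ⊢ <;> omega

/-- two `b`'s in the same class: contradiction -/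
theorem caseA2 (h : Par α β γ) {t l b₁ b₂ k : ℤ} {a : ℕ} (hl : Prime l) (hl20 : l % 20 = 1)
    (ha : 1 ≤ a) (hk : k * 2 ^ a = 1 - l) (hk4 : k % 4 = 2) (htl : ¬ l ∣ t)
    (hb₁ : b₁ % 2 = 1) (hb₂ : b₂ % 2 = 1)
    (ht₁ : 2 * (b₁ * l) ∣ t - (1 + b₁ * k)) (ht₂ : 2 * (b₂ * l) ∣ t - (1 + b₂ * k))
    (hg₁ : Good α β γ t (b₁ * l)) (hg₂ : Good α β γ t (b₂ * l))
    (h5 : b₁ % 5 = 0) (h5' : b₂ % 5 ≠ 0) (h5'' : (b₂ + 2 ^ a) % 5 ≠ 0) : False := by
  have v1 := caseA2_val h hl hl20 ha hk hk4 hb₁ htl ht₁ hg₁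
  have v2 := caseA2_val h hl hl20 ha hk hk4 hb₂ htl ht₂ hg₂
  obtain ⟨-, f2, -, -, f5, -⟩ := A2_facts hl hl20 ha hk hk4 hb₁ htl ht₁
  obtain ⟨-, g2, -, -, g5, -⟩ := A2_facts hl hl20 ha hk hk4 hb₂ htl ht₂
  have hl0 : l ≠ 0 := by omega
  have h5b : (b₁ + 2 ^ a) % 5 ≠ 0 := by
    intro hh
    have h1 : (5 : ℤ) ∣ 2 ^ a := by omega
    have h2 := (Nat.prime_iff_prime_int.1 Nat.prime_five).dvd_of_dvd_pow h1
    omega
  have hper : J (W α β γ) (b₂ + 2 ^ a) l = J (W α β γ) (b₁ + 2 ^ a) l := by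
    refine J_period (edsz_W h) hl0 f5 ?_
    have h1 : l ∣ b₂ + 2 ^ a - (b₁ + 2 ^ a) := by
      obtain ⟨z₁, hz₁⟩ := ht₁
      obtain ⟨z₂, hz₂⟩ := ht₂
      refine ⟨b₂ - b₁ + 2 ^ a * (2 * b₁ * z₁ - 2 * b₂ * z₂), ?_⟩
      linear_combination (2 ^ a : ℤ) * hz₁ - 2 ^ a * hz₂ + (b₁ - b₂) * hk
    have h2 : (2 : ℤ) ∣ b₂ + 2 ^ a - (b₁ + 2 ^ a) := by omega
    exact IsCoprime.mul_dvd (show IsCoprime (2 : ℤ) l from ⟨-((l - 1) / 2), 1, by omega⟩) h2 h1
  rw [v1, v2, if_pos h5, if_neg h5', if_neg h5'', if_neg h5b] at hper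
  split_ifs at hper <;> norm_num at hper

end MP308.CG
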