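import Pool.Agent.Work.MP_308fa9_nt.CG.CVal

/-! # Case B: `l ∣ t`. The general formula (*) and (B1)-(B4) -/

set_option autoImplicit false

namespace MP308.CG

open MP308.CE (Ell Reg EDSZ op J Smooth hil jac_eq_one_of_isSquare jac_sq op_mul op_pos
  hil_odd_odd hil_of_one jac_two J_period J_one)

variable {α β γ : ℤ}

private theorem B_zmod {q : ℕ} (x : ℤ) : ((x : ℤ) : ZMod q) = 0 ↔ (q : ℤ) ∣ x :=
  ZMod.intCast_zmod_eq_zero_iff_dvd x q

private theorem B_prime_dvd_mul {q : ℕ} (hq : q.Prime) {x y : ℤ} (h : (q : ℤ) ∣ x * y) :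
    (q : ℤ) ∣ x ∨ (q : ℤ) ∣ y := (Nat.prime_iff_prime_int.1 hq).dvd_or_dvd h

private theorem B_not_dvd_mul {q : ℕ} (hq : q.Prime) {x y : ℤ} (hx : ¬ (q : ℤ) ∣ x)
    (hy : ¬ (q : ℤ) ∣ y) : ¬ (q : ℤ) ∣ x * y := fun h => (B_prime_dvd_mul hq h).elim hx hy

private theorem B_not_dvd_two {q : ℕ} (hq : q.Prime) (hq2 : q ≠ 2) : ¬ (q : ℤ) ∣ 2 := by
  intro h
  have h1 : q ∣ 2 := by exact_mod_cast h
  exact hq2 ((Nat.prime_dvd_prime_iff_eq hq Nat.prime_two).1 h1)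

/-- adding an index killed by `q` preserves non-divisibility -/
private theorem B_shift_ne (h : Par α β γ) {q : ℕ} (hq : q.Prime) {n k : ℤ}
    (hn : (q : ℤ) ∣ W α β γ n) (hk : ¬ (q : ℤ) ∣ W α β γ k) : ¬ (q : ℤ) ∣ W α β γ (n + k) := by
  obtain ⟨r, _, _, hr⟩ := rank_W h.toPar₀ q hq
  rw [hr] at hn hk ⊢
  intro h1
  exact hk ((dvd_add_right hn).1 h1)

private theorem B_one_ne {q : ℕ} (hq : q.Prime) : ¬ (q : ℤ) ∣ (1 : ℤ) := by
  intro h
  have h1 : q ∣ 1 := by exact_mod_cast h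
  exact hq.one_lt.ne' (Nat.dvd_one.1 h1)

/-- `(T_n/q) = (2b/q)(W_{n+2}/q)` for odd `q ∣ W_n`, `q ∤ b`, in the form: the product is a nonzero
square. (`T_eq`: `b T_n ≡ 2 W_{n+2} W_{n-1}² mod W_n`) -/
theorem T_sq (h : Par α β γ) {q : ℕ} (hq : q.Prime) (hq2 : q ≠ 2) (hqb : ¬ (q : ℤ) ∣ β) {n : ℤ}
    (hn : (q : ℤ) ∣ W α β γ n) :
    ¬ (q : ℤ) ∣ T α β γ n ∧
      IsSquare ((2 * β * W α β γ (n + 2) * T α β γ n : ℤ) : ZMod q) := by
  have : Fact q.Prime := ⟨hq⟩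
  have h2 : ¬ (q : ℤ) ∣ W α β γ (n + 2) :=
    B_shift_ne h hq hn (by rw [W_two]; exact hqb)
  have h1 : ¬ (q : ℤ) ∣ W α β γ (n - 1) := by
    rw [sub_eq_add_neg]
    refine B_shift_ne h hq hn ?_
    rw [W_neg, W_one, dvd_neg]
    exact B_one_ne hq
  have hT := T_eq h.toPar₀ n
  obtain ⟨k, hk⟩ := hn
  have hT' : β * T α β γ n = 2 * W α β γ (n + 2) * W α β γ (n - 1) ^ 2 +
      q * (β ^ 2 * k * W α β γ n ^ 2 - 2 * γ * W α β γ (n - 1) * k * W α β γ (n + 1)) := by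
    rw [hT]
    have e1 : β ^ 2 * W α β γ n ^ 3 = q * (β ^ 2 * k * W α β γ n ^ 2) := by
      have : W α β γ n ^ 3 = q * k * W α β γ n ^ 2 := by rw [← hk]; ring
      rw [this]; ring
    rw [e1]
    have e2 : 2 * γ * W α β γ (n - 1) * W α β γ n * W α β γ (n + 1) =
        2 * γ * W α β γ (n - 1) * (q * k) * W α β γ (n + 1) := by rw [← hk]
    rw [e2]; ring
  constructor
  · intro hd
    have h3 : (q : ℤ) ∣ 2 * W α β γ (n + 2) * W α β γ (n - 1) ^ 2 := by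
      have h4 : 2 * W α β γ (n + 2) * W α β γ (n - 1) ^ 2 = β * T α β γ n -
        q * (β ^ 2 * k * W α β γ n ^ 2 - 2 * γ * W α β γ (n - 1) * k * W α β γ (n + 1)) := by
        rw [hT']; ring
      rw [h4]
      exact dvd_sub (hd.mul_left _) (dvd_mul_right _ _)
    refine B_not_dvd_mul hq (B_not_dvd_mul hq (B_not_dvd_two hq hq2) h2) ?_ h3
    rw [pow_two]
    exact B_not_dvd_mul hq h1 h1
  · refine ⟨((2 * W α β γ (n + 2) * W α β γ (n - 1) : ℤ) : ZMod q), ?_⟩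
    have : (2 * β * W α β γ (n + 2) * T α β γ n : ℤ) = (2 * W α β γ (n + 2) * W α β γ (n - 1)) *
        (2 * W α β γ (n + 2) * W α β γ (n - 1)) + q * (2 * W α β γ (n + 2) *
        (β ^ 2 * k * W α β γ n ^ 2 - 2 * γ * W α β γ (n - 1) * k * W α β γ (n + 1))) := by
      linear_combination 2 * W α β γ (n + 2) * hT'
    rw [this]
    push_cast
    simp

/-- primes dividing `b` divide no `W_s`, `s` odd -/
private theorem B_b_odd (h : Par α β γ) {q : ℕ} (hq : q.Prime) (hqb : (q : ℤ) ∣ β) {s : ℤ}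
    (hs : s % 2 = 1) : ¬ (q : ℤ) ∣ W α β γ s := by
  have : Fact q.Prime := ⟨hq⟩
  intro h1
  obtain ⟨k, rfl⟩ : ∃ k, s = 2 * k + 1 := ⟨s / 2, by omega⟩
  have h2 := (W_mod_b h.toPar₀ q hqb k).2
  rw [(B_zmod _).2 h1] at h2
  have h3 : ((γ : ℤ) : ZMod q) ≠ 0 := by
    intro h4
    have h5 := h.hbc.isUnit_of_dvd' hqb ((B_zmod _).1 h4)
    exact (Nat.prime_iff_prime_int.1 hq).not_isUnit h5
  exact (mul_ne_zero (pow_ne_zero _ (neg_ne_zero.2 one_ne_zero)) (pow_ne_zero _ h3)) h2.symm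

/-- for odd `q ∣ T_n` the rank of apparition is even: `q` divides no `W_s`, `s` odd -/
theorem T_rank (h : Par α β γ) {q : ℕ} (hq : q.Prime) (hq2 : q ≠ 2) {n s : ℤ} (hn : (q : ℤ) ∣ T α β γ n)
    (hs : s % 2 = 1) : ¬ (q : ℤ) ∣ W α β γ s := by
  by_cases hqb : (q : ℤ) ∣ β
  · exact B_b_odd h hq hqb hs
  intro hs'
  obtain ⟨r, _, _, hr⟩ := rank_W h.toPar₀ q hq
  have h1 : ¬ (q : ℤ) ∣ W α β γ n := fun h1 => (T_sq h hq hq2 hqb h1).1 hn
  have h2 : (q : ℤ) ∣ W α β γ (2 * n) := by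
    rw [W_dbl]; exact hn.mul_left _
  rw [hr] at hs' h1 h2
  apply h1
  have hrodd : (r : ℤ) % 2 = 1 := by
    obtain ⟨k, hk⟩ := hs'
    rcases Int.emod_two_eq_zero_or_one (r : ℤ) with h3 | h3
    · exfalso
      have : s % 2 = 0 := by
        rw [hk, Int.mul_emod, h3]; simp
      omega
    · exact h3
  have hcop : IsCoprime (r : ℤ) 2 := by
    rw [Int.isCoprime_iff_gcd_eq_one]
    have : (r : ℤ).gcd 2 ∣ 2 := Int.gcd_dvd_natAbs_right _ _
    rcases (Nat.dvd_prime Nat.prime_two).1 this with h4 | h4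
    · exact h4
    · exfalso
      have h5 : ((r : ℤ).gcd 2 : ℤ) ∣ r := Int.gcd_dvd_left _ _
      rw [h4] at h5
      omega
  exact hcop.dvd_of_dvd_mul_left h2

/-- `U = W_{2^j h l} / W_{h l} = ∏_{i<j} T_{2^i h l}` -/
def U (α β γ l h : ℤ) (j : ℕ) : ℤ := ∏ i ∈ Finset.range j, T α β γ (2 ^ i * (h * l))

theorem W_mul_U (l h : ℤ) (j : ℕ) : W α β γ (h * l) * U α β γ l h j = W α β γ (2 ^ j * (h * l)) := by
  induction j with
  | zero => simp [U]
  | succ j ih =>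
    have h1 : U α β γ l h (j + 1) = U α β γ l h j * T α β γ (2 ^ j * (h * l)) := by
      unfold U; rw [Finset.prod_range_succ]
    rw [h1, ← mul_assoc, ih, ← W_dbl]
    congr 1
    ring

private theorem B_two_cop {l : ℤ} (hl : l % 2 = 1) : IsCoprime (2 : ℤ) l := by
  rw [Int.isCoprime_iff_gcd_eq_one]
  have : (2 : ℤ).gcd l ∣ 2 := Int.gcd_dvd_natAbs_left _ _
  rcases (Nat.dvd_prime Nat.prime_two).1 this with h4 | h4
  · exact h4
  · exfalso
    have h5 : ((2 : ℤ).gcd l : ℤ) ∣ l := Int.gcd_dvd_right _ _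
    rw [h4] at h5
    omega

private theorem B_U_ne (hp : Par α β γ) {l h : ℤ} (hl : l ≠ 0) (hh : h ≠ 0) (j : ℕ) :
    U α β γ l h j ≠ 0 := by
  intro h0
  have h1 := W_mul_U (α := α) (β := β) (γ := γ) l h j
  rw [h0, mul_zero] at h1
  exact W_ne hp.toPar₀ (2 ^ j * (h * l)) (by positivity) h1.symm

/-- comparison of two Jacobi symbols through a square -/
private theorem B_jac_cmp {x a b : ℤ} (hx : x ≠ 0)
    (h : ∀ q : ℕ, q.Prime → q ≠ 2 → (q : ℤ) ∣ x → ¬ (q : ℤ) ∣ a * b ∧ IsSquare ((a * b : ℤ) : ZMod q)) :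
    jacobiSym a (op x) = jacobiSym b (op x) := by
  have h1 := jac_eq_one_of_isSquare hx h
  rw [jacobiSym.mul_left] at h1
  rcases Int.mul_eq_one_iff_eq_one_or_neg_one.1 h1 with h2 | h2
  · rw [h2.1, h2.2]
  · rw [h2.1, h2.2]

private theorem B_J_two (l : ℤ) :
    J (W α β γ) 2 l = jacobiSym β (op (W α β γ l)) := by
  unfold J
  rw [W_two]

private theorem B_bb (hp : Par α β γ) {l : ℤ} (hl : l % 2 = 1) :
    jacobiSym β (op (W α β γ l)) * jacobiSym β (op (W α β γ l)) = 1 := by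
  have h3 : jacobiSym β (op (W α β γ l)) = 1 ∨ jacobiSym β (op (W α β γ l)) = -1 := by
    apply jac_sq (W_ne hp.toPar₀ l (by omega))
    intro q hq _ hqd hqb
    exact B_b_odd hp hq hqb hl hqd
  rcases h3 with h3 | h3 <;> rw [h3] <;> norm_num

private theorem B_T_jac (hp : Par α β γ) {l : ℤ} (hl : l % 2 = 1) (n : ℤ) (hn : l ∣ n) :
    jacobiSym (T α β γ n) (op (W α β γ l)) =
      jacobiSym 2 (op (W α β γ l)) * jacobiSym β (op (W α β γ l)) * J (W α β γ) (n + 2) l := by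
  have hω : W α β γ l ≠ 0 := W_ne hp.toPar₀ l (by omega)
  unfold J
  rw [← jacobiSym.mul_left, ← jacobiSym.mul_left]
  symm
  apply B_jac_cmp hω
  intro q hq hq2 hqd
  have hqb : ¬ (q : ℤ) ∣ β := fun h1 => B_b_odd hp hq h1 hl hqd
  have h1 : (q : ℤ) ∣ W α β γ n := hqd.trans (dvd_W hp.toPar₀ l n hn)
  have h2 := T_sq hp hq hq2 hqb h1
  refine ⟨B_not_dvd_mul hq (B_not_dvd_mul hq (B_not_dvd_mul hq (B_not_dvd_two hq hq2) hqb)
    (B_shift_ne hp hq h1 (by rw [W_two]; exact hqb))) h2.1, h2.2⟩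

/-- `(U/ω) = (2/ω)^j c_l`, `ω = W_l` -/
theorem jac_U (hp : Par α β γ) {l h : ℤ} (hl4 : l % 4 = 1) (hl5 : l % 5 ≠ 0) (hlp : Prime l)
    (hh : h % 2 = 1) {j : ℕ} (hj : 1 ≤ j) :
    jacobiSym (U α β γ l h j) (op (W α β γ l))
      = jacobiSym 2 (op (W α β γ l)) ^ j * J (W α β γ) (l + 1) l := by
  have hl0 : l ≠ 0 := hlp.ne_zero
  have hE := edsz_W hp
  have hcop : IsCoprime (2 : ℤ) l := B_two_cop (by omega)
  have hbb := B_bb hp (l := l) (by omega)
  induction j, hj using Nat.le_induction with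
  | base =>
    have h1 : U α β γ l h 1 = T α β γ (h * l) := by simp [U]
    rw [h1, B_T_jac hp (by omega) (h * l) (dvd_mul_left l h), pow_one]
    have h2 : J (W α β γ) (h * l + 2) l = J (W α β γ) (2 + l) l := by
      apply J_period hE hl0
      · have := (IsCoprime.add_mul_right_left_iff (x := (2 : ℤ)) (y := l) (z := 1)).2 hcop
        simpa using this
      · obtain ⟨k, hk⟩ : (2 : ℤ) ∣ h - 1 := by omega
        exact ⟨k, by rw [show h * l + 2 - (2 + l) = (h - 1) * l by ring, hk]; ring⟩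
    rw [h2, CE.J_shift hE hl0 hcop, B_J_two]
    linear_combination (jacobiSym 2 (op (W α β γ l)) * J (W α β γ) (l + 1) l) * hbb
  | succ j hj ih =>
    have h1 : U α β γ l h (j + 1) = U α β γ l h j * T α β γ (2 ^ j * (h * l)) := by
      unfold U; rw [Finset.prod_range_succ]
    rw [h1, jacobiSym.mul_left, ih, B_T_jac hp (by omega) (2 ^ j * (h * l))
      ((dvd_mul_left l h).mul_left _)]
    have h2 : J (W α β γ) (2 ^ j * (h * l) + 2) l = jacobiSym β (op (W α β γ l)) := by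
      rw [J_period hE (s := 2) hl0 hcop ?_, B_J_two]
      obtain ⟨i, rfl⟩ : ∃ i, j = i + 1 := ⟨j - 1, by omega⟩
      exact ⟨2 ^ i * h, by ring⟩
    rw [h2]
    linear_combination (jacobiSym 2 (op (W α β γ l)) ^ (j + 1) * J (W α β γ) (l + 1) l) * hbb

private theorem B_dvd_U {q : ℕ} (hq : q.Prime) {l h : ℤ} {j : ℕ} (h1 : (q : ℤ) ∣ U α β γ l h j) :
    ∃ n, (q : ℤ) ∣ T α β γ n := by
  unfold U at h1
  obtain ⟨i, _, hi⟩ := (Prime.dvd_finsetProd_iff (Nat.prime_iff_prime_int.1 hq) _).1 h1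
  exact ⟨_, hi⟩

private theorem B_odd (hp : Par α β γ) {l : ℤ} (hl5 : l % 5 ≠ 0) : W α β γ l % 2 = 1 := by
  have h1 := two_dvd_W_iff hp.toPar₀ l
  have h2 : ¬ (2 : ℤ) ∣ W α β γ l := by
    rw [h1]; omega
  omega

private theorem B_cop (hp : Par α β γ) {l h : ℤ} (hl4 : l % 4 = 1) (hl5 : l % 5 ≠ 0) (j : ℕ) :
    IsCoprime (W α β γ l) (U α β γ l h j) := by
  rw [Int.isCoprime_iff_gcd_eq_one]
  by_contra hne
  obtain ⟨q, hq, hqd⟩ := Nat.exists_prime_and_dvd hne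
  have h1 : (q : ℤ) ∣ W α β γ l := (Int.natCast_dvd_natCast.2 hqd).trans (Int.gcd_dvd_left _ _)
  have h2 : (q : ℤ) ∣ U α β γ l h j := (Int.natCast_dvd_natCast.2 hqd).trans (Int.gcd_dvd_right _ _)
  by_cases hq2 : q = 2
  · subst hq2
    have := B_odd hp hl5
    have h3 : (2 : ℤ) ∣ W α β γ l := by exact_mod_cast h1
    omega
  · obtain ⟨n, hn⟩ := B_dvd_U hq h2
    exact T_rank hp hq hq2 hn (by omega) h1

/-- `(ω/odd|U|) = (ω,U)_2 (2/ω)^j c_l` -/
theorem jac_omega (hp : Par α β γ) {l h : ℤ} (hl4 : l % 4 = 1) (hl5 : l % 5 ≠ 0) (hlp : Prime l)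
    (hh : h % 2 = 1) (hh5 : h % 5 ≠ 0) {j : ℕ} (hj : 1 ≤ j) :
    jacobiSym (W α β γ l) (op (U α β γ l h j)) = hil (W α β γ l) (U α β γ l h j) *
      (jacobiSym 2 (op (W α β γ l)) ^ j * J (W α β γ) (l + 1) l) := by
  have hU := B_U_ne hp hlp.ne_zero (show h ≠ 0 by omega) j
  have hω := W_pos hp l hl4
  have hcop := B_cop hp (h := h) hl4 hl5 j
  have h1 := CE.flip hω hU hcop
  rw [← jac_U hp hl4 hl5 hlp hh hj, ← h1, mul_assoc]
  have h2 : jacobiSym (U α β γ l h j) (op (W α β γ l)) * jacobiSym (U α β γ l h j) (op (W α β γ l)) = 1 := by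
    have h3 : jacobiSym (U α β γ l h j) (op (W α β γ l)) = 1 ∨
        jacobiSym (U α β γ l h j) (op (W α β γ l)) = -1 := by
      apply jac_sq hω.ne'
      intro q hq hq2 hqd hqU
      obtain ⟨n, hn⟩ := B_dvd_U hq hqU
      exact T_rank hp hq hq2 hn (by omega) hqd
    rcases h3 with h3 | h3 <;> rw [h3] <;> norm_num
  rw [h2, mul_one]

private theorem B_sq_cancel {q : ℕ} [Fact q.Prime] {x y z : ZMod q} (hy : y ≠ 0)
    (h : IsSquare (x * y * (z * y))) : IsSquare (x * z) := by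
  obtain ⟨u, hu⟩ := h
  refine ⟨u / y, ?_⟩
  have : u / y * (u / y) = (u * u) / (y * y) := by field_simp
  rw [this, ← hu]
  field_simp

/-- period `2n` at a prime `q ∣ W_n`, `n` even -/
private theorem B_period (hp : Par α β γ) {q : ℕ} (hq : q.Prime) (hq2 : q ≠ 2) {n : ℤ}
    (hn : (q : ℤ) ∣ W α β γ n) (hn2 : n % 2 = 0) (k : ℕ) : ∀ s : ℤ, ¬ (q : ℤ) ∣ W α β γ s →
    ¬ (q : ℤ) ∣ W α β γ (s + 2 * n * k) ∧
      IsSquare ((W α β γ (s + 2 * n * k) * W α β γ s : ℤ) : ZMod q) := by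
  have : Fact q.Prime := ⟨hq⟩
  induction k with
  | zero =>
    intro s hs
    refine ⟨by simpa using hs, ⟨((W α β γ s : ℤ) : ZMod q), by push_cast; simp⟩⟩
  | succ k ih =>
    intro s hs
    obtain ⟨h1, h2⟩ := ih s hs
    set s' := s + 2 * n * (k : ℕ) with hs'
    have h3 : ¬ (q : ℤ) ∣ W α β γ (s' + n) := by
      rw [add_comm]; exact B_shift_ne hp hq hn h1
    have h4 : ¬ (q : ℤ) ∣ W α β γ (s' + n + n) := by
      rw [add_comm]; exact B_shift_ne hp hq hn h3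
    have h5 := (edsz_W hp).shift q hq hq2 n s' (s' + n) hn (by omega) h1 h3
    have e : s + 2 * n * ((k + 1 : ℕ) : ℤ) = s' + n + n := by
      rw [hs']; push_cast; ring
    rw [e]
    refine ⟨h4, ?_⟩
    have hs0 : ((W α β γ s' : ℤ) : ZMod q) ≠ 0 := fun h => h1 ((B_zmod _).1 h)
    have hs1 : ((W α β γ (s' + n) : ℤ) : ZMod q) ≠ 0 := fun h => h3 ((B_zmod _).1 h)
    push_cast at h2 h5 ⊢
    have h6 : IsSquare (((W α β γ (s' + n + n) : ℤ) : ZMod q) * ((W α β γ s' : ℤ) : ZMod q)) := by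
      apply B_sq_cancel (y := ((W α β γ (s' + n) : ℤ) : ZMod q)) hs1
      obtain ⟨x, hx⟩ := h5
      exact ⟨x, by rw [← hx]; ring⟩
    apply B_sq_cancel (y := ((W α β γ s' : ℤ) : ZMod q)) hs0
    obtain ⟨x, hx⟩ := h6
    obtain ⟨y, hy⟩ := h2
    exact ⟨x * y, by rw [show x * y * (x * y) = (x * x) * (y * y) by ring, ← hx, ← hy]; ring⟩

/-- (*): the local condition for `n = 2^j h l` gives `1 = (W_{lτ}/odd|U|)`, `lτ ≡ 1 mod 2^{j+1} h` -/
theorem star (hp : Par α β γ) {t l h τ : ℤ} (hl4 : l % 4 = 1) (hlp : Prime l) (hh : h % 2 = 1)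
    (hlh : ¬ l ∣ h) {j : ℕ} (hj : 1 ≤ j) (htl : l ∣ t) (ht : 2 ^ (j + 1) * h ∣ t - 1)
    (hτ : 2 ^ (j + 1) * h ∣ l * τ - 1) (hg : Good α β γ t (2 ^ j * (h * l))) :
    jacobiSym (W α β γ (l * τ)) (op (U α β γ l h j)) = 1 := by
  have hU := B_U_ne hp hlp.ne_zero (show h ≠ 0 by omega) j
  apply jac_eq_one_of_isSquare hU
  intro q hq hq2 hqU
  have : Fact q.Prime := ⟨hq⟩
  obtain ⟨n', hn'⟩ := B_dvd_U hq hqU
  have h2t : (2 : ℤ) ∣ t - 1 :=
    (Dvd.dvd.mul_right (dvd_pow_self (2 : ℤ) (Nat.succ_ne_zero j)) h).trans ht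
  have h2τ : (2 : ℤ) ∣ l * τ - 1 :=
    (Dvd.dvd.mul_right (dvd_pow_self (2 : ℤ) (Nat.succ_ne_zero j)) h).trans hτ
  have hqt : ¬ (q : ℤ) ∣ W α β γ t := T_rank hp hq hq2 hn' (by omega)
  have hqτ : ¬ (q : ℤ) ∣ W α β γ (l * τ) := T_rank hp hq hq2 hn' (by omega)
  refine ⟨hqτ, ?_⟩
  set n : ℤ := 2 ^ j * (h * l) with hn
  have hqn : (q : ℤ) ∣ W α β γ n := by
    rw [hn, ← W_mul_U]; exact hqU.mul_left _
  have hn2 : n % 2 = 0 := by
    have : (2 : ℤ) ∣ n := by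
      rw [hn]; exact Dvd.dvd.mul_right (dvd_pow_self (2 : ℤ) (by omega)) _
    omega
  have hsqt := hg q hq hq2 hqn hqt
  -- divisibility of the difference
  have hdiv : 2 * n ∣ t - l * τ := by
    have h1 : 2 ^ (j + 1) * h ∣ t - l * τ := by
      have := dvd_sub ht hτ
      rwa [show t - 1 - (l * τ - 1) = t - l * τ by ring] at this
    have h2 : l ∣ t - l * τ := dvd_sub htl (dvd_mul_right l τ)
    have hcop : IsCoprime (2 ^ (j + 1) * h) l := by
      apply IsCoprime.mul_left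
      · exact IsCoprime.pow_left (B_two_cop (by omega))
      · exact ((hlp.coprime_iff_not_dvd).2 hlh).symm
    have h3 := hcop.mul_dvd h1 h2
    rwa [show 2 ^ (j + 1) * h * l = 2 * n by rw [hn]; ring] at h3
  have hsq2 : IsSquare ((W α β γ t * W α β γ (l * τ) : ℤ) : ZMod q) := by
    obtain ⟨k, hk⟩ := hdiv
    rcases le_total 0 k with hk0 | hk0
    · obtain ⟨m, rfl⟩ := Int.eq_ofNat_of_zero_le hk0
      have h1 := (B_period hp hq hq2 hqn hn2 m (l * τ) hqτ).2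
      rwa [show l * τ + 2 * n * (m : ℤ) = t by linarith] at h1
    · obtain ⟨m, hm⟩ := Int.eq_ofNat_of_zero_le (neg_nonneg.2 hk0)
      have h1 := (B_period hp hq hq2 hqn hn2 m t hqt).2
      rw [show t + 2 * n * (m : ℤ) = l * τ by rw [← hm]; linarith] at h1
      rwa [mul_comm] at h1
  have ht0 : ((W α β γ t : ℤ) : ZMod q) ≠ 0 := fun h => hqt ((B_zmod _).1 h)
  obtain ⟨x, hx⟩ := hsqt
  obtain ⟨y, hy⟩ := hsq2
  have hx0 : x ≠ 0 := by
    rintro rfl
    apply ht0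
    rw [hx]; ring
  refine ⟨y / x, ?_⟩
  push_cast at hy
  rw [hx] at hy
  have h1 : y / x * (y / x) = (y * y) / (x * x) := by field_simp
  rw [h1, ← hy]
  field_simp

/-- `τ = 1 + b`, `b = 2^j`, `h = 1`: `(W_{l(1+b)}/odd|U|) = (ω/odd|U|) c_{bl}` -/
theorem jac_shift_U (hp : Par α β γ) {l : ℤ} (hl4 : l % 4 = 1) (hl5 : l % 5 ≠ 0) (hlp : Prime l)
    {j : ℕ} (hj : 1 ≤ j) :
    jacobiSym (W α β γ (l * (1 + 2 ^ j))) (op (U α β γ l 1 j)) =
      jacobiSym (W α β γ l) (op (U α β γ l 1 j)) * J (W α β γ) (2 ^ j * l + 1) (2 ^ j * l) := by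
  have hl0 : l ≠ 0 := hlp.ne_zero
  have hE := edsz_W hp
  have hU := B_U_ne hp hl0 (show (1 : ℤ) ≠ 0 by norm_num) j
  set n : ℤ := 2 ^ j * l with hn
  have hWU : W α β γ l * U α β γ l 1 j = W α β γ n := by
    have := W_mul_U (α := α) (β := β) (γ := γ) l 1 j
    rwa [one_mul] at this
  have hω : W α β γ l ≠ 0 := W_ne hp.toPar₀ l hl0
  -- the symbol of `W_{n+1}` over `U`
  have h1 : J (W α β γ) (n + 1) n = jacobiSym (W α β γ (n + 1)) (op (U α β γ l 1 j)) := by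
    have h2 : J (W α β γ) (n + 1) l = 1 := by
      rw [J_period hE (s := 1) hl0 isCoprime_one_left ?_, J_one hE]
      obtain ⟨i, rfl⟩ : ∃ i, j = i + 1 := ⟨j - 1, by omega⟩
      exact ⟨2 ^ i, by rw [hn]; ring⟩
    unfold J at h2 ⊢
    rw [← hWU, op_mul hω hU]
    have : NeZero (op (W α β γ l)) := ⟨(op_pos hω).ne'⟩
    have : NeZero (op (U α β γ l 1 j)) := ⟨(op_pos hU).ne'⟩
    rw [jacobiSym.mul_right, h2, one_mul]
  rw [h1, ← jacobiSym.mul_left, show l * (1 + 2 ^ j) = l + n by rw [hn]; ring]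
  apply B_jac_cmp hU
  intro q hq hq2 hqU
  obtain ⟨n', hn'⟩ := B_dvd_U hq hqU
  have hql : ¬ (q : ℤ) ∣ W α β γ l := T_rank hp hq hq2 hn' (by omega)
  have hqn : (q : ℤ) ∣ W α β γ n := by
    rw [← hWU]; exact hqU.mul_left _
  have hq1 : ¬ (q : ℤ) ∣ W α β γ 1 := by rw [W_one]; exact B_one_ne hq
  have h3 := hE.shift q hq hq2 n l 1 hqn (by omega) hql hq1
  constructor
  · refine B_not_dvd_mul hq ?_ (B_not_dvd_mul hq hql ?_)
    · rw [add_comm]; exact B_shift_ne hp hq hqn hql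
    · exact B_shift_ne hp hq hqn hq1
  · rw [W_one] at h3
    have e : W α β γ (l + n) * (W α β γ l * W α β γ (n + 1)) =
        W α β γ (l + n) * W α β γ l * (W α β γ (1 + n) * 1) := by
      rw [show n + 1 = 1 + n by ring]
      ring
    rw [e]
    exact h3

/-- `U ≡ ω W_{2^j l} mod 8` -/
private theorem B_U8 (hp : Par α β γ) {l : ℤ} (hl5 : l % 5 ≠ 0) (j : ℕ) :
    U α β γ l 1 j % 8 = (W α β γ l * W α β γ (2 ^ j * l)) % 8 := by
  have h1 := W_mul_U (α := α) (β := β) (γ := γ) l 1 j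
  rw [one_mul] at h1
  rw [← h1]
  have h2 := B_odd hp hl5
  have h3 : (W α β γ l * W α β γ l) % 8 = 1 := by
    have h4 : W α β γ l % 8 = 1 ∨ W α β γ l % 8 = 3 ∨ W α β γ l % 8 = 5 ∨ W α β γ l % 8 = 7 := by omega
    rcases h4 with h4 | h4 | h4 | h4 <;> rw [Int.mul_emod, h4] <;> norm_num
  rw [← mul_assoc, Int.mul_emod, h3]
  omega

private theorem B_jac2 (hp : Par α β γ) {l : ℤ} (hl4 : l % 4 = 1) (hl5 : l % 5 ≠ 0) :
    jacobiSym 2 (op (W α β γ l)) = if CE.tab γ l % 8 = 3 ∨ CE.tab γ l % 8 = 5 then -1 else 1 := by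
  rw [jac_two (B_odd hp hl5) (W_pos hp l hl4)]
  have h1 := W_mod8 hp.toPar₀ l
  unfold tab at h1
  rw [if_neg (by omega)] at h1
  have h2 : W α β γ l % 8 = CE.tab γ l % 8 := by omega
  rw [h2]

/-- the product `(ω, U)_2 (ω, b)_2` -/
private theorem B_hil2 (hp : Par α β γ) {l : ℤ} (hl2 : l % 2 = 1) (hl5 : l % 5 ≠ 0) {j : ℕ} (hj : 1 ≤ j) :
    hil (W α β γ l) (U α β γ l 1 j) * hil (W α β γ l) β =
      if CE.tab γ l % 4 = 3 ∧ CE.tab γ (2 ^ j * l) % 4 = 1 then -1 else 1 := by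
  have h1 := W_mod8 hp.toPar₀ l
  have h2 := W_mod8 hp.toPar₀ (2 ^ j * l)
  have h3 : (2 ^ j * l) % 2 = 0 := by
    have : (2 : ℤ) ∣ 2 ^ j * l := Dvd.dvd.mul_right (dvd_pow_self (2 : ℤ) (by omega)) l
    omega
  unfold tab at h1 h2
  rw [if_neg (by omega)] at h1
  rw [if_pos h3] at h2
  have h4 := B_U8 hp hl5 j
  have hω := B_odd hp hl5
  have hβ := hp.hb
  have h20 : W α β γ (2 ^ j * l) % 2 = 1 := by
    have h5 := two_dvd_W_iff hp.toPar₀ (2 ^ j * l)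
    have h6 : ¬ (2 : ℤ) ∣ W α β γ (2 ^ j * l) := by
      rw [h5]
      intro h7
      have p5 : Prime (5 : ℤ) := by norm_num
      rcases p5.dvd_or_dvd h7 with h8 | h8
      · have := p5.dvd_of_dvd_pow h8
        omega
      · omega
    omega
  generalize W α β γ (2 ^ j * l) = V at h2 h4 h20
  generalize CE.tab γ (2 ^ j * l) = v at h2 ⊢
  generalize CE.tab γ l = w at h1 ⊢
  generalize W α β γ l = ω at h1 h4 hω ⊢
  generalize U α β γ l 1 j = u at h4 ⊢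
  have h2' : (V % 4) = (β % 4 * (v % 4)) % 4 := by
    rw [← Int.mul_emod]; omega
  have h4' : (u % 4) = (ω % 4 * (V % 4)) % 4 := by
    rw [← Int.mul_emod]; omega
  have hv : v % 4 = 0 ∨ v % 4 = 1 ∨ v % 4 = 2 ∨ v % 4 = 3 := by omega
  have hβ4 : β % 4 = 1 ∨ β % 4 = 3 := by omega
  have hω4 : ω % 4 = 1 ∨ ω % 4 = 3 := by omega
  have hw4 : w % 4 = ω % 4 := by omega
  rw [h2'] at h4'
  have hu : u % 2 = 1 := by
    rcases hω4 with e1 | e1 <;> rcases hβ4 with e2 | e2 <;> rcases hv with e3 | e3 | e3 | e3 <;>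
      rw [e1, e2, e3] at h4' <;> rw [e2, e3] at h2' <;> norm_num at h4' h2' <;> omega
  rw [hil_odd_odd hω hu, hil_odd_odd hω hβ, hw4]
  rcases hω4 with e1 | e1 <;> rcases hβ4 with e2 | e2 <;> rcases hv with e3 | e3 | e3 | e3 <;>
      rw [e1, e2, e3] at h4' <;> rw [e2, e3] at h2' <;> norm_num at h4' h2' <;>
      first | omega | (rw [h4', e1, e2, e3]; norm_num)

theorem caseB1 (hp : Par α β γ) {t l : ℤ} (hlp : Prime l)
    (hl : l % 40 = 13 ∨ l % 40 = 17 ∨ l % 40 = 21 ∨ l % 40 = 29)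
    (htl : l ∣ t) (ht : 4 ∣ t - 1) (hg : Good α β γ t (2 * l)) : False := by
  have hl4 : l % 4 = 1 := by omega
  have hl5 : l % 5 ≠ 0 := by omega
  have hlh : ¬ l ∣ (1 : ℤ) := fun h => hlp.not_isUnit (isUnit_of_dvd_one h)
  have h1 := star (j := 1) (h := 1) (τ := 1) hp hl4 hlp (by norm_num) hlh le_rfl htl
    (by norm_num; exact ht) (by norm_num; omega) (by norm_num; exact hg)
  rw [mul_one, jac_omega hp hl4 hl5 hlp (by norm_num) (by norm_num) le_rfl, pow_one,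
    B_jac2 hp hl4 hl5] at h1
  have h2 := B_hil2 hp (l := l) (by omega) hl5 (j := 1) le_rfl
  have hc4 : γ % 4 = 0 ∨ γ % 4 = 2 := by have := hp.hc; omega
  generalize hil (W α β γ l) (U α β γ l 1 1) = X at h1 h2
  unfold CE.tab at h1 h2
  rcases hl with hl | hl | hl | hl
  · have e1 : l % 20 = 13 := by omega
    have e2 : 2 ^ 1 * l % 20 = 6 := by omega
    rw [c_odd_pos hp (.inr (.inl hl))] at h1
    generalize hil (W α β γ l) β = Y at h1 h2
    rw [e1] at h1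
    rw [e1, e2] at h2
    rcases hc4 with hc | hc <;> simp [hc, CE.tab0, CE.tab2] at h1 h2 <;> omega
  · have e1 : l % 20 = 17 := by omega
    have e2 : 2 ^ 1 * l % 20 = 14 := by omega
    rw [c_odd_pos hp (.inr (.inr (.inl hl)))] at h1
    generalize hil (W α β γ l) β = Y at h1 h2
    rw [e1] at h1
    rw [e1, e2] at h2
    rcases hc4 with hc | hc <;> simp [hc, CE.tab0, CE.tab2] at h1 h2 <;> omega
  · have e1 : l % 20 = 1 := by omega
    have e2 : 2 ^ 1 * l % 20 = 2 := by omega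
    rw [c_odd_neg hp (.inr (.inl hl))] at h1
    generalize hil (W α β γ l) β = Y at h1 h2
    rw [e1] at h1
    rw [e1, e2] at h2
    rcases hc4 with hc | hc <;> simp [hc, CE.tab0, CE.tab2] at h1 h2 <;> omega
  · have e1 : l % 20 = 9 := by omega
    have e2 : 2 ^ 1 * l % 20 = 18 := by omega
    rw [c_odd_pos hp (.inr (.inr (.inr hl)))] at h1
    generalize hil (W α β γ l) β = Y at h1 h2
    rw [e1] at h1
    rw [e1, e2] at h2
    rcases hc4 with hc | hc <;> simp [hc, CE.tab0, CE.tab2] at h1 h2 <;> omega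

theorem caseB2 (hp : Par α β γ) {t l : ℤ} (hlp : Prime l) (hl : l % 40 = 33 ∨ l % 40 = 37)
    (htl : l ∣ t) (ht : 8 ∣ t - 1) (hg : Good α β γ t (4 * l)) : False := by
  have hl4 : l % 4 = 1 := by omega
  have hl5 : l % 5 ≠ 0 := by omega
  have hlh : ¬ l ∣ (1 : ℤ) := fun h => hlp.not_isUnit (isUnit_of_dvd_one h)
  have hc4 : γ % 4 = 0 ∨ γ % 4 = 2 := by have := hp.hc; omega
  have hj2 : jacobiSym 2 (op (W α β γ l)) ^ 2 = 1 := by
    rw [B_jac2 hp hl4 hl5]; split_ifs <;> norm_num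
  have hom := jac_omega hp hl4 hl5 hlp (h := 1) (by norm_num) (by norm_num) (j := 2) (by norm_num)
  rw [hj2, one_mul] at hom
  have h2 := B_hil2 hp (l := l) (by omega) hl5 (j := 2) (by norm_num)
  rcases hl with hl | hl
  · have h1 := star (j := 2) (h := 1) (τ := 1) hp hl4 hlp (by norm_num) hlh (by norm_num) htl
      (by norm_num; exact ht) (by norm_num; omega) (by norm_num; exact hg)
    rw [mul_one, hom, c_odd_neg hp (.inr (.inr (.inl hl)))] at h1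
    generalize hil (W α β γ l) (U α β γ l 1 2) = X at h1 h2
    generalize hil (W α β γ l) β = Y at h1 h2
    unfold CE.tab at h2
    have e1 : l % 20 = 13 := by omega
    have e2 : 2 ^ 2 * l % 20 = 12 := by omega
    rw [e1, e2] at h2
    rcases hc4 with hc | hc <;> simp [hc, CE.tab0, CE.tab2] at h1 h2 <;> omega
  · have h1 := star (j := 2) (h := 1) (τ := 1 + 2 ^ 2) hp hl4 hlp (by norm_num) hlh (by norm_num) htl
      (by norm_num; exact ht) (by norm_num; omega) (by norm_num; exact hg)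
    rw [jac_shift_U hp hl4 hl5 hlp (by norm_num), hom, c_odd_neg hp (.inr (.inr (.inr hl))),
      c_4 hp (n := 2 ^ 2 * l) (by omega) (by omega)] at h1
    generalize hil (W α β γ l) (U α β γ l 1 2) = X at h1 h2
    generalize hil (W α β γ l) β = Y at h1 h2
    unfold CE.tab at h2
    have e1 : l % 20 = 17 := by omega
    have e2 : 2 ^ 2 * l % 20 = 8 := by omega
    rw [e1, e2] at h2
    rcases hc4 with hc | hc <;> simp [hc, CE.tab0, CE.tab2] at h1 h2 <;> omega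

theorem caseB3 (hp : Par α β γ) {t l : ℤ} (hlp : Prime l) (hl : l % 40 = 1) {v : ℕ}
    (hv : (2 : ℤ) ^ v ∣ l - 1) (hv' : ¬ (2 : ℤ) ^ (v + 1) ∣ l - 1)
    (htl : l ∣ t) (ht : 2 ^ (v + 1) ∣ t - 1) (hg : Good α β γ t (2 ^ v * l)) : False := by
  have hl4 : l % 4 = 1 := by omega
  have hl5 : l % 5 ≠ 0 := by omega
  have hlh : ¬ l ∣ (1 : ℤ) := fun h => hlp.not_isUnit (isUnit_of_dvd_one h)
  have hv3 : 3 ≤ v := by
    by_contra hlt
    apply hv'
    have h8 : (2 : ℤ) ^ 3 ∣ l - 1 := by norm_num; omega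
    exact (pow_dvd_pow 2 (by omega)).trans h8
  have hτ : (2 : ℤ) ^ (v + 1) * 1 ∣ l * (1 + 2 ^ v) - 1 := by
    obtain ⟨m, hm⟩ := hv
    have hmodd : m % 2 = 1 := by
      by_contra hne
      apply hv'
      obtain ⟨k, hk⟩ : (2 : ℤ) ∣ m := by omega
      exact ⟨k, by rw [hm, hk]; ring⟩
    obtain ⟨k, hk⟩ : (2 : ℤ) ∣ m + 1 := by omega
    obtain ⟨i, rfl⟩ : ∃ i, v = i + 1 := ⟨v - 1, by omega⟩
    refine ⟨k + 2 ^ i * m, ?_⟩
    have hl' : l = 1 + 2 ^ (i + 1) * m := by linarith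
    rw [hl', mul_one]
    linear_combination (2 : ℤ) ^ (i + 1) * hk
  have h1 := star (j := v) (h := 1) (τ := 1 + 2 ^ v) hp hl4 hlp (by norm_num) hlh (by omega) htl
    (by rw [mul_one]; exact ht) hτ (by rw [one_mul]; exact hg)
  have hω8 := W_mod8 hp.toPar₀ l
  have hU0 := B_U_ne hp hlp.ne_zero (show (1 : ℤ) ≠ 0 by norm_num) v
  have h8 : (2 ^ v * l) % 8 = 0 := by
    have : (8 : ℤ) ∣ 2 ^ v * l := by
      have h2 : (2 : ℤ) ^ 3 ∣ 2 ^ v := pow_dvd_pow 2 hv3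
      exact Dvd.dvd.mul_right (by simpa using h2) l
    omega
  have h5 : (2 ^ v * l) % 5 ≠ 0 := by
    intro h
    have h2 : (5 : ℤ) ∣ 2 ^ v * l := Int.dvd_of_emod_eq_zero h
    have p5 : Prime (5 : ℤ) := by norm_num
    rcases p5.dvd_or_dvd h2 with h3 | h3
    · have := p5.dvd_of_dvd_pow h3
      omega
    · omega
  have htab : CE.tab γ l = 1 := by
    unfold CE.tab
    rw [show l % 20 = 1 by omega]
    split_ifs <;> simp [CE.tab0, CE.tab2]
  have hω1 : W α β γ l % 8 = 1 := by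
    rw [hω8]
    unfold tab
    rw [if_neg (by omega), htab]
  have hβ0 : β ≠ 0 := hp.toPar₀.b_ne
  rw [jac_shift_U hp hl4 hl5 hlp (by omega), jac_omega hp hl4 hl5 hlp (by norm_num) (by norm_num)
    (by omega), hil_of_one hω1 hU0, B_jac2 hp hl4 hl5, if_neg (by rw [htab]; norm_num), one_pow,
    c_odd_pos hp (.inl hl), hil_of_one hω1 hβ0, c_8 hp h8 h5] at h1
  norm_num at h1

theorem caseB4 (hp : Par α β γ) {t l : ℤ} (hlp : Prime l) (hl : l % 80 = 49)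
    (htl : l ∣ t) (ht : 16 ∣ t - 1) (hg : Good α β γ t (8 * l)) : False := by
  have hl4 : l % 4 = 1 := by omega
  have hl5 : l % 5 ≠ 0 := by omega
  have hlh : ¬ l ∣ (1 : ℤ) := fun h => hlp.not_isUnit (isUnit_of_dvd_one h)
  have h1 := star (j := 3) (h := 1) (τ := 1) hp hl4 hlp (by norm_num) hlh (by norm_num) htl
    (by norm_num; exact ht) (by norm_num; omega) (by norm_num; exact hg)
  rw [mul_one, jac_omega hp hl4 hl5 hlp (by norm_num) (by norm_num) (by norm_num),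
    B_jac2 hp hl4 hl5, c_odd_neg hp (.inl (by omega))] at h1
  have hc4 : γ % 4 = 0 ∨ γ % 4 = 2 := by have := hp.hc; omega
  have h2 := B_hil2 hp (l := l) (by omega) hl5 (j := 3) (by norm_num)
  generalize hil (W α β γ l) (U α β γ l 1 3) = X at h1 h2
  generalize hil (W α β γ l) β = Y at h1 h2
  unfold CE.tab at h1 h2
  have e1 : l % 20 = 9 := by omega
  have e2 : 2 ^ 3 * l % 20 = 12 := by omega
  rw [e1] at h1
  rw [e1, e2] at h2
  rcases hc4 with hc | hc <;> simp [hc, CE.tab0, CE.tab2] at h1 h2 <;> omega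

end MP308.CG
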