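import Pool.Agent.Work.MP_308fa9_nt.CE.Shift
import Pool.Agent.Work.MP_308fa9_nt.CG.Sign

/-! # `W` mod `q`: ranks of apparition, coprimality, divisibility, `EDSZ (W a b c)`

* `q ∤ b W_3`: `reg_of_ne`. * `q ∣ W_3` (then `q ∤ b`): `W_2 = b, W_3 = 0, W_4 = -b⁵` mod `q`,
`W_{3k+1} = (-1)^k b^{3k²+2k}`, `W_{3k+2} = (-1)^k b^{3k²+4k+1}`.
* `q ∣ b`: `W_{2k} = 0`, `W_{2k+1} = (-1)^k c^{k(k+1)}` mod `q`, `q ∤ c`; so `-W_{2k+1} W_{2k-1} = c^{2k²}` and
`W_{s+n} W_s = (-1)^{n/2} □` for `n` even, `s` odd. -/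

set_option autoImplicit false

namespace MP308.CG

open MP308.CE (Ell Reg EDSZ op J Smooth reg_of_ne exists_zero shift_sq shift_sq_odd)

variable {a b c : ℤ}

private theorem neg_one_sq_pow {F : Type*} [CommRing F] (k : ℕ) : ((-1 : F) ^ k) * (-1) ^ k = 1 := by
  rw [← mul_pow]; simp

/-- the sequence with `V 2 = β`, `V 3 = 0`, `V 4 = -β⁵` over a field -/
private theorem reg_three {F : Type*} [Field F] {V : ℤ → F} (h : Ell V) {β : F} (hβ : β ≠ 0)
    (h2 : V 2 = β) (h3 : V 3 = 0) (h4 : V 4 = -β ^ 5) : Reg V := by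
  have r3 : ∀ n : ℤ, V (n + 3) * V (n - 3) = β ^ 6 * V n ^ 2 := by
    intro n
    have := h.rel n 3
    rw [show (3 : ℤ) + 1 = 4 by norm_num, show (3 : ℤ) - 1 = 2 by norm_num, h2, h3, h4] at this
    linear_combination this
  have r2 : ∀ n : ℤ, V (n + 2) * V (n - 2) = β ^ 2 * (V (n + 1) * V (n - 1)) := by
    intro n
    have := h.rel n 2
    rw [show (2 : ℤ) + 1 = 3 by norm_num, show (2 : ℤ) - 1 = 1 by norm_num, h2, h3] at this
    linear_combination this
  have key : ∀ k : ℕ, V (3 * k) = 0 ∧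
      V (3 * k + 1) = (-1) ^ k * β ^ (3 * (k : ℤ) ^ 2 + 2 * k) ∧
      V (3 * k + 2) = (-1) ^ k * β ^ (3 * (k : ℤ) ^ 2 + 4 * k + 1) ∧
      V (3 * k - 1) = (-1) ^ (k + 1) * β ^ (3 * (k : ℤ) ^ 2 - 2 * k) ∧
      V (3 * k - 2) = (-1) ^ (k + 1) * β ^ (3 * (k : ℤ) ^ 2 - 4 * k + 1) := by
    intro k
    induction k with
    | zero =>
      refine ⟨by simp [h.zero], by simp [h.one], by simp [h2], ?_, ?_⟩
      · have := h.neg 1
        simp only [Nat.cast_zero, mul_zero, zero_sub, this, h.one]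
        simp
      · have := h.neg 2
        simp only [Nat.cast_zero, mul_zero, zero_sub, this, h2]
        simp
    | succ k ih =>
      obtain ⟨i0, i1, i2, j1, j2⟩ := ih
      have s := neg_one_sq_pow (F := F) k
      have e1 := r3 (3 * k + 1)
      rw [show (3 * (k : ℤ) + 1 + 3) = 3 * ((k + 1 : ℕ) : ℤ) + 1 by push_cast; ring,
        show (3 * (k : ℤ) + 1 - 3) = 3 * (k : ℤ) - 2 by ring, i1, j2] at e1
      have e2 := r3 (3 * k + 2)
      rw [show (3 * (k : ℤ) + 2 + 3) = 3 * ((k + 1 : ℕ) : ℤ) + 2 by push_cast; ring,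
        show (3 * (k : ℤ) + 2 - 3) = 3 * (k : ℤ) - 1 by ring, i2, j1] at e2
      have e3 := r2 (3 * k + 1)
      rw [show (3 * (k : ℤ) + 1 + 2) = 3 * ((k + 1 : ℕ) : ℤ) by push_cast; ring,
        show (3 * (k : ℤ) + 1 - 2) = 3 * (k : ℤ) - 1 by ring,
        show (3 * (k : ℤ) + 1 - 1) = 3 * (k : ℤ) by ring, i0, j1, mul_zero, mul_zero] at e3
      refine ⟨?_, ?_, ?_, ?_, ?_⟩
      · rcases mul_eq_zero.1 e3 with e | e
        · exact e
        · exact absurd e (mul_ne_zero (pow_ne_zero _ (by norm_num)) (zpow_ne_zero _ hβ))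
      · have hz : ((-1 : F) ^ (k + 1)) * β ^ (3 * (k : ℤ) ^ 2 - 4 * k + 1) ≠ 0 :=
          mul_ne_zero (pow_ne_zero _ (by norm_num)) (zpow_ne_zero _ hβ)
        refine mul_right_cancel₀ hz (e1.trans ?_)
        have e4 : β ^ (3 * ((k + 1 : ℕ) : ℤ) ^ 2 + 2 * ((k + 1 : ℕ) : ℤ)) *
            β ^ (3 * (k : ℤ) ^ 2 - 4 * k + 1) = β ^ (6 : ℕ) * (β ^ (3 * (k : ℤ) ^ 2 + 2 * k)) ^ 2 := by
          rw [← zpow_natCast, ← zpow_natCast, ← zpow_mul, ← zpow_add₀ hβ, ← zpow_add₀ hβ]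
          congr 1
          push_cast
          ring
        linear_combination (-((-1 : F) ^ k * (-1) ^ k)) * e4
      · have hz : ((-1 : F) ^ (k + 1)) * β ^ (3 * (k : ℤ) ^ 2 - 2 * k) ≠ 0 :=
          mul_ne_zero (pow_ne_zero _ (by norm_num)) (zpow_ne_zero _ hβ)
        refine mul_right_cancel₀ hz (e2.trans ?_)
        have e4 : β ^ (3 * ((k + 1 : ℕ) : ℤ) ^ 2 + 4 * ((k + 1 : ℕ) : ℤ) + 1) *
            β ^ (3 * (k : ℤ) ^ 2 - 2 * k) =
            β ^ (6 : ℕ) * (β ^ (3 * (k : ℤ) ^ 2 + 4 * k + 1)) ^ 2 := by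
          rw [← zpow_natCast, ← zpow_natCast, ← zpow_mul, ← zpow_add₀ hβ, ← zpow_add₀ hβ]
          congr 1
          push_cast
          ring
        linear_combination (-((-1 : F) ^ k * (-1) ^ k)) * e4
      · rw [show 3 * ((k + 1 : ℕ) : ℤ) - 1 = 3 * (k : ℤ) + 2 by push_cast; ring, i2, pow_succ, pow_succ,
          show 3 * ((k + 1 : ℕ) : ℤ) ^ 2 - 2 * ((k + 1 : ℕ) : ℤ) = 3 * (k : ℤ) ^ 2 + 4 * k + 1 by
            push_cast; ring]
        ring_nf
      · rw [show 3 * ((k + 1 : ℕ) : ℤ) - 2 = 3 * (k : ℤ) + 1 by push_cast; ring, i1, pow_succ, pow_succ,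
          show 3 * ((k + 1 : ℕ) : ℤ) ^ 2 - 4 * ((k + 1 : ℕ) : ℤ) + 1 = 3 * (k : ℤ) ^ 2 + 2 * k by
            push_cast; ring]
        ring_nf
  have hnat : ∀ n : ℕ, V (n : ℤ) = 0 ↔ 3 ∣ n := by
    intro n
    obtain ⟨i0, i1, i2, -, -⟩ := key (n / 3)
    have hne : ((-1 : F) ^ (n / 3)) ≠ 0 := pow_ne_zero _ (by norm_num)
    have hc : n % 3 = 0 ∨ n % 3 = 1 ∨ n % 3 = 2 := by omega
    rcases hc with hc | hc | hc
    · rw [show (n : ℤ) = 3 * ((n / 3 : ℕ) : ℤ) by omega, i0]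
      exact ⟨fun _ => by omega, fun _ => rfl⟩
    · rw [show (n : ℤ) = 3 * ((n / 3 : ℕ) : ℤ) + 1 by omega, i1]
      exact ⟨fun e => absurd e (mul_ne_zero hne (zpow_ne_zero _ hβ)), fun e => by omega⟩
    · rw [show (n : ℤ) = 3 * ((n / 3 : ℕ) : ℤ) + 2 by omega, i2]
      exact ⟨fun e => absurd e (mul_ne_zero hne (zpow_ne_zero _ hβ)), fun e => by omega⟩
  have hz : ∀ n : ℤ, V n = 0 ↔ ((3 : ℕ) : ℤ) ∣ n := by
    intro n
    rcases Int.natAbs_eq n with hn | hn
    · rw [hn, hnat]; exact Int.natCast_dvd_natCast.symm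
    · rw [hn, h.neg, neg_eq_zero, hnat, dvd_neg]; exact Int.natCast_dvd_natCast.symm
  refine ⟨h, by rw [h2]; exact hβ, ⟨3, hz⟩, fun n hn => ?_⟩
  have hsq : ∀ k : ℕ, IsSquare (-(V (3 * (k : ℤ) + 1) * V (3 * (k : ℤ) - 1))) := by
    intro k
    obtain ⟨-, i1, -, j1, -⟩ := key k
    rw [i1, j1]
    refine ⟨β ^ (3 * (k : ℤ) ^ 2), ?_⟩
    have e4 : β ^ (3 * (k : ℤ) ^ 2 + 2 * k) * β ^ (3 * (k : ℤ) ^ 2 - 2 * k) =
        β ^ (3 * (k : ℤ) ^ 2) * β ^ (3 * (k : ℤ) ^ 2) := by
      rw [← zpow_add₀ hβ, ← zpow_add₀ hβ]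
      congr 1
      ring
    have s := neg_one_sq_pow (F := F) k
    rw [← e4]
    linear_combination (β ^ (3 * (k : ℤ) ^ 2 + 2 * k) * β ^ (3 * (k : ℤ) ^ 2 - 2 * k)) * s
  obtain ⟨m, hm⟩ := (hz n).1 hn
  rcases Int.natAbs_eq m with hm' | hm'
  · rw [hm, hm']
    exact hsq _
  · have e : -(V (n + 1) * V (n - 1)) =
        -(V (3 * (m.natAbs : ℤ) + 1) * V (3 * (m.natAbs : ℤ) - 1)) := by
      have h5 : n = -(3 * (m.natAbs : ℤ)) := by
        rw [hm]
        push_cast
        rw [hm']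
        simp
      rw [h5, show -(3 * (m.natAbs : ℤ)) + 1 = -(3 * (m.natAbs : ℤ) - 1) by ring,
        show -(3 * (m.natAbs : ℤ)) - 1 = -(3 * (m.natAbs : ℤ) + 1) by ring, h.neg, h.neg]
      ring
    rw [e]
    exact hsq _

theorem reg_W (h : Par₀ a b c) (q : ℕ) [Fact q.Prime] (_hq : q ≠ 2) (hqb : ¬ (q : ℤ) ∣ b) :
    Reg (fun n => ((W a b c n : ℤ) : ZMod q)) := by
  have hE : Ell (fun n => ((W a b c n : ℤ) : ZMod q)) :=
    (ell_W a b c h.b_ne).map (Int.castRingHom (ZMod q))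
  have hb0 : ((b : ℤ) : ZMod q) ≠ 0 := fun e => hqb ((ZMod.intCast_zmod_eq_zero_iff_dvd _ _).1 e)
  have e2 : ((W a b c 2 : ℤ) : ZMod q) = (b : ZMod q) := by rw [W_two]
  by_cases h3 : ((W a b c 3 : ℤ) : ZMod q) = 0
  · refine reg_three hE hb0 e2 h3 ?_
    rw [W_three] at h3
    push_cast at h3
    simp only [W_four]
    push_cast
    linear_combination (2 * (c : ZMod q) * b) * h3
  · exact reg_of_ne hE (by rw [e2]; exact hb0) h3

/-- even terms vanish modulo divisors of `b` -/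
private theorem W_even_mod (q : ℕ) (hqb : (q : ℤ) ∣ b) (k : ℤ) :
    ((W a b c (2 * k) : ℤ) : ZMod q) = 0 :=
  (ZMod.intCast_zmod_eq_zero_iff_dvd _ _).2 (hqb.trans (b_dvd_even a b c k))

private theorem W_odd_nat (q : ℕ) (hqb : (q : ℤ) ∣ b) (k : ℕ) :
    ((W a b c (2 * k + 1) : ℤ) : ZMod q) = (-1) ^ k * (c : ZMod q) ^ (k * (k + 1)) := by
  induction k using Nat.strong_induction_on with
  | _ k ih =>
    rcases Nat.lt_or_ge k 2 with hk | hk
    · have hb : ((b : ℤ) : ZMod q) = 0 := (ZMod.intCast_zmod_eq_zero_iff_dvd _ _).2 hqb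
      have hk' : k = 0 ∨ k = 1 := by omega
      rcases hk' with rfl | rfl
      · simp [W_one]
      · rw [show 2 * ((1 : ℕ) : ℤ) + 1 = 3 by norm_num, W_three]
        push_cast
        rw [hb]
        ring
    · obtain ⟨j, hj | hj⟩ := Nat.even_or_odd' k
      · -- `k = 2 j`
        obtain ⟨i, rfl⟩ : ∃ i, j = i + 1 := ⟨j - 1, by omega⟩
        have e := W_dbl_add_one a b c (k : ℤ)
        have h1 := W_even_mod (a := a) (c := c) q hqb (k := (i : ℤ) + 2)
        have i1 := ih i (by omega)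
        have i2 := ih (i + 1) (by omega)
        rw [show (k : ℤ) + 2 = 2 * ((i : ℤ) + 2) by push_cast [hj]; ring,
          show (k : ℤ) - 1 = 2 * (i : ℤ) + 1 by push_cast [hj]; ring,
          show (k : ℤ) + 1 = 2 * ((i + 1 : ℕ) : ℤ) + 1 by push_cast [hj]; ring] at e
        rw [e]
        push_cast at h1 i1 i2 ⊢
        rw [h1, i1, i2, hj]
        have hs : ((-1 : ZMod q) ^ i) ^ 2 = 1 := by rw [sq]; exact neg_one_sq_pow i
        linear_combination ((c : ZMod q) ^ (2 * (i + 1) * (2 * (i + 1) + 1)) * ((-1) ^ i) ^ 2) * hs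
      · obtain ⟨i, rfl⟩ : ∃ i, j = i + 1 := ⟨j - 1, by omega⟩
        have e := W_dbl_add_one a b c (k : ℤ)
        have h1 := W_even_mod (a := a) (c := c) q hqb (k := (i : ℤ) + 1)
        have i1 := ih (i + 1) (by omega)
        have i2 := ih (i + 2) (by omega)
        rw [show (k : ℤ) - 1 = 2 * ((i : ℤ) + 1) by push_cast [hj]; ring,
          show (k : ℤ) + 2 = 2 * ((i + 2 : ℕ) : ℤ) + 1 by push_cast [hj]; ring] at e
        rw [e]
        have i1' : ((W a b c (k : ℤ) : ℤ) : ZMod q) =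
            (-1) ^ (i + 1) * (c : ZMod q) ^ ((i + 1) * (i + 1 + 1)) := by
          rw [show (k : ℤ) = 2 * ((i + 1 : ℕ) : ℤ) + 1 by push_cast [hj]; ring]
          exact i1
        push_cast at h1 i1' i2 ⊢
        rw [h1, i1', i2, hj]
        have hs : ((-1 : ZMod q) ^ i) ^ 2 = 1 := by rw [sq]; exact neg_one_sq_pow i
        linear_combination (-(c : ZMod q) ^ ((2 * (i + 1) + 1) * (2 * (i + 1) + 1 + 1)) * ((-1) ^ i) ^ 2) * hs

/-- the primes dividing `b` -/
theorem W_mod_b (_h : Par₀ a b c) (q : ℕ) (hqb : (q : ℤ) ∣ b) (k : ℤ) :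
    ((W a b c (2 * k) : ℤ) : ZMod q) = 0 ∧
    ((W a b c (2 * k + 1) : ℤ) : ZMod q) = (-1) ^ k.natAbs * (c : ZMod q) ^ (k * (k + 1)).natAbs := by
  refine ⟨W_even_mod q hqb k, ?_⟩
  rcases Int.natAbs_eq k with hk | hk
  · have e : (k * (k + 1)).natAbs = k.natAbs * (k.natAbs + 1) := by
      rw [Int.natAbs_mul]
      congr 1
      omega
    rw [e, show (2 * k + 1) = 2 * (k.natAbs : ℤ) + 1 by omega]
    exact W_odd_nat q hqb _
  · rcases Nat.eq_zero_or_pos k.natAbs with h0 | h0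
    · have hk0 : k = 0 := by omega
      subst hk0
      simp [W_one]
    · obtain ⟨j, hj⟩ : ∃ j, k.natAbs = j + 1 := ⟨k.natAbs - 1, by omega⟩
      have e : (k * (k + 1)).natAbs = j * (j + 1) := by
        rw [Int.natAbs_mul, hj, mul_comm]
        congr 1
        omega
      rw [e, hj, show (2 * k + 1) = -(2 * (j : ℤ) + 1) by omega, W_neg]
      push_cast
      rw [W_odd_nat q hqb]
      ring

/-- for `q ∣ b`: `q ∣ W_n` iff `n` is even -/
private theorem W_zero_iff_b (h : Par₀ a b c) (q : ℕ) [Fact q.Prime] (hqb : (q : ℤ) ∣ b) (n : ℤ) :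
    ((W a b c n : ℤ) : ZMod q) = 0 ↔ n % 2 = 0 := by
  have hc0 : ((c : ℤ) : ZMod q) ≠ 0 := by
    intro e
    have hqc := (ZMod.intCast_zmod_eq_zero_iff_dvd _ _).1 e
    have hu := h.hbc.isUnit_of_dvd' hqb hqc
    have := Int.isUnit_iff.1 hu
    have hp := (Fact.out : q.Prime).two_le
    omega
  obtain ⟨k, hk | hk⟩ := Int.even_or_odd' n
  · rw [hk]
    exact ⟨fun _ => by omega, fun _ => (W_mod_b h q hqb k).1⟩
  · rw [hk, (W_mod_b h q hqb k).2]
    refine ⟨fun e => absurd e (mul_ne_zero (pow_ne_zero _ (by simp)) (pow_ne_zero _ hc0)),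
      fun e => by omega⟩

/-- (SQ) for all odd primes -/
theorem sq_W (h : Par₀ a b c) (q : ℕ) (hq : q.Prime) (hq2 : q ≠ 2) (n : ℤ) (hn : (q : ℤ) ∣ W a b c n) :
    IsSquare ((-(W a b c (n + 1) * W a b c (n - 1)) : ℤ) : ZMod q) := by
  have : Fact q.Prime := ⟨hq⟩
  have hn0 := (ZMod.intCast_zmod_eq_zero_iff_dvd (W a b c n) q).2 hn
  by_cases hqb : (q : ℤ) ∣ b
  · have hn2 := (W_zero_iff_b h q hqb n).1 hn0
    obtain ⟨k, hk⟩ : ∃ k, n = 2 * k := ⟨n / 2, by omega⟩
    have e1 := (W_mod_b h q hqb k).2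
    have e2 := (W_mod_b h q hqb (k - 1)).2
    rw [show 2 * (k - 1) + 1 = n - 1 by omega, show k - 1 + 1 = k by ring] at e2
    rw [← hk] at e1
    refine ⟨(c : ZMod q) ^ (k ^ 2).natAbs, ?_⟩
    push_cast
    rw [e1, e2]
    have e3 : (k * (k + 1)).natAbs + ((k - 1) * k).natAbs = (k ^ 2).natAbs + (k ^ 2).natAbs := by
      have p1 : 0 ≤ k * (k + 1) := by
        rcases le_or_gt 0 k with h0 | h0
        · positivity
        · exact mul_nonneg_of_nonpos_of_nonpos h0.le (by omega)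
      have p2 : 0 ≤ (k - 1) * k := by
        rcases le_or_gt k 0 with h0 | h0
        · exact mul_nonneg_of_nonpos_of_nonpos (by omega) h0
        · exact mul_nonneg (by omega) h0.le
      have p3 : 0 ≤ k ^ 2 := sq_nonneg k
      have : (((k * (k + 1)).natAbs + ((k - 1) * k).natAbs : ℕ) : ℤ) =
          (((k ^ 2).natAbs + (k ^ 2).natAbs : ℕ) : ℤ) := by
        push_cast
        rw [abs_of_nonneg p1, abs_of_nonneg p2, abs_of_nonneg p3]
        ring
      exact_mod_cast this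
    rw [← pow_add, ← e3, pow_add]
    have s : ((-1 : ZMod q) ^ k.natAbs) * (-1) ^ (k - 1).natAbs = -1 := by
      rw [← pow_add]
      apply Odd.neg_one_pow
      rcases le_or_gt k 0 with h0 | h0
      · exact ⟨k.natAbs, by omega⟩
      · exact ⟨(k - 1).natAbs, by omega⟩
    linear_combination (-((c : ZMod q) ^ (k * (k + 1)).natAbs * (c : ZMod q) ^ ((k - 1) * k).natAbs)) * s
  · have hR := reg_W h q hq2 hqb
    have := hR.sq n hn0
    push_cast at this ⊢
    exact this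

/-- rank of apparition (all primes, `q = 2` included: `r = 5`; `r = 2` iff `q ∣ b`) -/
theorem rank_W (h : Par₀ a b c) (q : ℕ) (hq : q.Prime) :
    ∃ r : ℕ, 2 ≤ r ∧ r ≤ 2 * q + 1 ∧ ∀ n : ℤ, (q : ℤ) ∣ W a b c n ↔ (r : ℤ) ∣ n := by
  by_cases hq2 : q = 2
  · subst hq2
    exact ⟨5, by norm_num, by norm_num, fun n => two_dvd_W_iff h n⟩
  · have : Fact q.Prime := ⟨hq⟩
    by_cases hqb : (q : ℤ) ∣ b
    · refine ⟨2, le_rfl, by have := hq.two_le; omega, fun n => ?_⟩
      rw [← ZMod.intCast_zmod_eq_zero_iff_dvd, W_zero_iff_b h q hqb n]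
      omega
    · have hR := reg_W h q hq2 hqb
      obtain ⟨r, hr⟩ := hR.zset
      obtain ⟨i, hi1, hi2, hi0⟩ := exists_zero q _ hR.ell
      have hri : (r : ℤ) ∣ (i : ℤ) := (hr i).1 hi0
      have hri' : r ∣ i := Int.natCast_dvd_natCast.1 hri
      have hrle := Nat.le_of_dvd hi1 hri'
      have hr1 : ¬ (r : ℤ) ∣ 1 := by
        intro hd
        have := (hr 1).2 hd
        simp only [W_one, Int.cast_one] at this
        exact one_ne_zero this
      refine ⟨r, ?_, by omega, fun n => ?_⟩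
      · by_contra hlt
        have hlt' : r = 0 ∨ r = 1 := by omega
        rcases hlt' with h0 | h0
        · rw [h0, zero_dvd_iff] at hri'
          omega
        · exact hr1 (by rw [h0]; simp)
      · rw [← hr n, ZMod.intCast_zmod_eq_zero_iff_dvd]

/-- a common prime factor of `W_m` and `W_n` would have a rank dividing `m` and `n` -/
private theorem cop_of (h : Par₀ a b c) (m n : ℤ)
    (hr' : ∀ r : ℕ, 2 ≤ r → (r : ℤ) ∣ m → ¬ (r : ℤ) ∣ n) : IsCoprime (W a b c m) (W a b c n) := by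
  rw [Int.isCoprime_iff_gcd_eq_one]
  by_contra hne
  obtain ⟨p, hp, hpd⟩ := Nat.exists_prime_and_dvd hne
  have h1 : (p : ℤ) ∣ W a b c m := (Int.natCast_dvd_natCast.2 hpd).trans (Int.gcd_dvd_left _ _)
  have h2 : (p : ℤ) ∣ W a b c n := (Int.natCast_dvd_natCast.2 hpd).trans (Int.gcd_dvd_right _ _)
  obtain ⟨r, hr3, -, hr⟩ := rank_W h p hp
  exact hr' r hr3 ((hr m).1 h1) ((hr n).1 h2)

theorem cop_W (h : Par₀ a b c) (m n : ℤ) (hmn : IsCoprime m n) :
    IsCoprime (W a b c m) (W a b c n) := by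
  refine cop_of h m n fun r hr hm hn => ?_
  have h1 : (r : ℤ) ∣ 1 := by
    obtain ⟨a, b, hab⟩ := hmn
    rw [← hab]
    exact dvd_add (hm.mul_left a) (hn.mul_left b)
  have := Int.le_of_dvd one_pos h1
  omega

/-- `W_{jm} / W_m` is again an elliptic sequence, with integral initial values -/
private theorem W_mul_nat (h : Par₀ a b c) (m : ℤ) (hm : m ≠ 0) (j : ℕ) :
    W a b c (j * m) = W a b c m * normEDS (T a b c m)
      (W a b c (2 * m + 1) * W a b c (2 * m - 1) - W a b c (m + 1) * W a b c (m - 1) * T a b c m ^ 2)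
      (T a b c (2 * m)) j := by
  have hE := ell_W a b c h.b_ne
  have hW := W_ne h m hm
  have hT : T a b c m ≠ 0 := by
    intro e
    have := W_ne h (2 * m) (by omega)
    rw [W_dbl, e, mul_zero] at this
    exact this rfl
  set B := T a b c m with hB
  set C := W a b c (2 * m + 1) * W a b c (2 * m - 1) - W a b c (m + 1) * W a b c (m - 1) * B ^ 2 with hC
  set D := T a b c (2 * m) with hD
  induction j using Nat.strong_induction_on with
  | _ j ih =>
    rcases Nat.lt_or_ge j 5 with hj | hj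
    · have hj' : j = 0 ∨ j = 1 ∨ j = 2 ∨ j = 3 ∨ j = 4 := by omega
      rcases hj' with rfl | rfl | rfl | rfl | rfl
      · simp [W_zero]
      · simp
      · rw [show (((2 : ℕ) : ℤ)) = 2 by norm_num, normEDS_two, W_dbl]
      · rw [show (((3 : ℕ) : ℤ)) = 3 by norm_num, normEDS_three]
        have e := hE.three (2 * m) m 1
        rw [show 2 * m + m = 3 * m by ring, show 2 * m - m = m by ring, W_one, W_dbl] at e
        refine mul_right_cancel₀ hW ?_
        rw [hC]
        linear_combination e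
      · rw [show (((4 : ℕ) : ℤ)) = 4 by norm_num, normEDS_four,
          show 4 * m = 2 * (2 * m) by ring, W_dbl, W_dbl]
        ring
    · obtain ⟨k, hk | hk⟩ := Nat.even_or_odd' j
      · have e := hE.three ((k + 1) * m) ((k - 1) * m) m
        have i1 := ih (k + 2) (by omega)
        have i2 := ih k (by omega)
        have i3 := ih (k - 1) (by omega)
        have i4 := ih (k - 2) (by omega)
        have i5 := ih (k + 1) (by omega)
        have i6 := W_dbl a b c m
        have n := normEDS_even B C D (k : ℤ)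
        rw [show (((k - 1 : ℕ)) : ℤ) = k - 1 by omega] at i3
        rw [show (((k - 2 : ℕ)) : ℤ) = k - 2 by omega] at i4
        push_cast at i1 i5
        rw [show ((k : ℤ) + 1) * m + (k - 1) * m = 2 * k * m by ring,
          show ((k : ℤ) + 1) * m - (k - 1) * m = 2 * m by ring,
          show ((k : ℤ) + 1) * m + m = (k + 2) * m by ring,
          show ((k : ℤ) + 1) * m - m = k * m by ring,
          show ((k : ℤ) - 1) * m + m = k * m by ring,
          show ((k : ℤ) - 1) * m - m = (k - 2) * m by ring, i1, i2, i3, i4, i5, i6] at e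
        rw [show ((j : ℕ) : ℤ) = 2 * k by omega]
        refine mul_right_cancel₀ (mul_ne_zero (pow_ne_zero 3 hW) hT) ?_
        linear_combination e - W a b c m ^ 4 * n
      · have e := hE.three ((k + 1) * m) (k * m) m
        have i1 := ih (k + 2) (by omega)
        have i2 := ih k (by omega)
        have i3 := ih (k - 1) (by omega)
        have i5 := ih (k + 1) (by omega)
        have n := normEDS_odd B C D (k : ℤ)
        rw [show (((k - 1 : ℕ)) : ℤ) = k - 1 by omega] at i3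
        push_cast at i1 i5
        rw [show ((k : ℤ) + 1) * m + k * m = (2 * k + 1) * m by ring,
          show ((k : ℤ) + 1) * m - k * m = m by ring,
          show ((k : ℤ) + 1) * m + m = (k + 2) * m by ring,
          show ((k : ℤ) + 1) * m - m = k * m by ring,
          show (k : ℤ) * m + m = (k + 1) * m by ring,
          show (k : ℤ) * m - m = (k - 1) * m by ring, i1, i2, i3, i5] at e
        rw [show ((j : ℕ) : ℤ) = 2 * k + 1 by omega]
        refine mul_right_cancel₀ (pow_ne_zero 3 hW) ?_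
        linear_combination e - W a b c m ^ 4 * n

theorem dvd_W (h : Par₀ a b c) (m n : ℤ) (hmn : m ∣ n) : W a b c m ∣ W a b c n := by
  rcases eq_or_ne m 0 with rfl | hm
  · rw [zero_dvd_iff.1 hmn]
  obtain ⟨k, rfl⟩ := hmn
  rcases Int.natAbs_eq k with hk | hk
  · rw [hk, mul_comm, W_mul_nat h m hm]
    exact dvd_mul_right _ _
  · rw [hk, show m * -(k.natAbs : ℤ) = -((k.natAbs : ℤ) * m) by ring, W_neg, dvd_neg,
      W_mul_nat h m hm]
    exact dvd_mul_right _ _

/-- the shift lemma for the primes dividing `b` -/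
private theorem shift_b (h : Par₀ a b c) (q : ℕ) (hqb : (q : ℤ) ∣ b) (k i : ℤ) :
    ∃ t : ZMod q, ((W a b c (2 * i + 1 + 2 * k) * W a b c (2 * i + 1) : ℤ) : ZMod q) =
      (-1) ^ k.natAbs * t ^ 2 := by
  have e1 := (W_mod_b h q hqb (i + k)).2
  have e2 := (W_mod_b h q hqb i).2
  rw [show 2 * (i + k) + 1 = 2 * i + 1 + 2 * k by ring] at e1
  obtain ⟨u, hu⟩ : Even ((i + k) * (i + k + 1)).natAbs := by
    rw [Int.natAbs_even]; exact Int.even_mul_succ_self _
  obtain ⟨v, hv⟩ : Even (i * (i + 1)).natAbs := by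
    rw [Int.natAbs_even]; exact Int.even_mul_succ_self _
  refine ⟨(c : ZMod q) ^ (u + v), ?_⟩
  push_cast
  rw [e1, e2, hu, hv]
  have s : ((-1 : ZMod q) ^ (i + k).natAbs) * (-1) ^ i.natAbs = (-1) ^ k.natAbs := by
    rw [← pow_add]
    rcases Nat.even_or_odd k.natAbs with hk | hk
    · rw [hk.neg_one_pow]
      apply Even.neg_one_pow
      rw [Nat.even_add, Int.natAbs_even, Int.natAbs_even, Int.even_add]
      rw [Int.natAbs_even] at hk
      simp [hk]
    · rw [hk.neg_one_pow]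
      apply Odd.neg_one_pow
      rw [Nat.odd_add, Int.natAbs_odd, Int.natAbs_even, Int.odd_add]
      rw [Int.natAbs_odd] at hk
      by_cases hi : Odd i
      · have h1 : ¬ Even i := Int.not_even_iff_odd.2 hi
        have h2 : ¬ Even k := Int.not_even_iff_odd.2 hk
        simp [hi, h1, h2]
      · have h1 : Even i := Int.not_odd_iff_even.1 hi
        have h2 : ¬ Even k := Int.not_even_iff_odd.2 hk
        simp [hi, h1, h2]
  rw [← s]
  ring

private theorem shift_W (h : Par₀ a b c) (q : ℕ) (hq : q.Prime) (hq2 : q ≠ 2) (n s s' : ℤ)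
    (hn : (q : ℤ) ∣ W a b c n) (hp : s % 2 = s' % 2) (hs : ¬ (q : ℤ) ∣ W a b c s)
    (hs' : ¬ (q : ℤ) ∣ W a b c s') :
    IsSquare ((W a b c (s + n) * W a b c s * (W a b c (s' + n) * W a b c s') : ℤ) : ZMod q) := by
  have : Fact q.Prime := ⟨hq⟩
  by_cases hqb : (q : ℤ) ∣ b
  · have hn2 := (W_zero_iff_b h q hqb n).1 ((ZMod.intCast_zmod_eq_zero_iff_dvd _ _).2 hn)
    have hs2 : ¬ s % 2 = 0 := fun e => hs ((ZMod.intCast_zmod_eq_zero_iff_dvd _ _).1
      ((W_zero_iff_b h q hqb s).2 e))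
    obtain ⟨k, rfl⟩ : ∃ k, n = 2 * k := ⟨n / 2, by omega⟩
    obtain ⟨i, rfl⟩ : ∃ i, s = 2 * i + 1 := ⟨s / 2, by omega⟩
    obtain ⟨i', rfl⟩ : ∃ i, s' = 2 * i + 1 := ⟨s' / 2, by omega⟩
    obtain ⟨t, ht⟩ := shift_b h q hqb k i
    obtain ⟨t', ht'⟩ := shift_b h q hqb k i'
    refine ⟨t * t', ?_⟩
    rw [Int.cast_mul, ht, ht']
    have := neg_one_sq_pow (F := ZMod q) k.natAbs
    linear_combination (t ^ 2 * t' ^ 2) * this
  · have hR := reg_W h q hq2 hqb
    have := shift_sq hR n s s' ((ZMod.intCast_zmod_eq_zero_iff_dvd _ _).2 hn)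
      (fun e => hs ((ZMod.intCast_zmod_eq_zero_iff_dvd _ _).1 e))
      (fun e => hs' ((ZMod.intCast_zmod_eq_zero_iff_dvd _ _).1 e)) hp
    push_cast
    exact this

theorem edsz_W (h : Par a b c) : EDSZ (W a b c) where
  ell := ell_W a b c h.b_ne
  ne n hn := W_ne h.toPar₀ n hn
  cop m n hmn := cop_W h.toPar₀ m n hmn
  pos n hn := W_pos h n hn
  shift := by
    intro q hq hq2 n s s' hn hp hs hs'
    exact shift_W h.toPar₀ q hq hq2 n s s' hn hp hs hs'

/-- for odd `n` the parity condition in the shift lemma can be dropped -/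
theorem W_shift_odd (h : Par a b c) (q : ℕ) (hq : q.Prime) (hq2 : q ≠ 2) (n s s' : ℤ)
    (hn : (q : ℤ) ∣ W a b c n) (hodd : n % 2 = 1) (hs : ¬ (q : ℤ) ∣ W a b c s)
    (hs' : ¬ (q : ℤ) ∣ W a b c s') :
    IsSquare ((W a b c (s + n) * W a b c s * (W a b c (s' + n) * W a b c s') : ℤ) : ZMod q) := by
  have : Fact q.Prime := ⟨hq⟩
  have hqb : ¬ (q : ℤ) ∣ b := by
    intro hqb
    have := (W_zero_iff_b h.toPar₀ q hqb n).1 ((ZMod.intCast_zmod_eq_zero_iff_dvd _ _).2 hn)
    omega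
  have hR := reg_W h.toPar₀ q hq2 hqb
  have := shift_sq_odd hR n s s' ((ZMod.intCast_zmod_eq_zero_iff_dvd _ _).2 hn)
    (fun e => hs ((ZMod.intCast_zmod_eq_zero_iff_dvd _ _).1 e))
    (fun e => hs' ((ZMod.intCast_zmod_eq_zero_iff_dvd _ _).1 e)) hodd
  push_cast
  exact this

/-- every prime power divides some `W_n` -/
theorem exists_pow_dvd (h : Par₀ a b c) (q : ℕ) (hq : q.Prime) (k : ℕ) :
    ∃ n : ℤ, n ≠ 0 ∧ (q : ℤ) ^ k ∣ W a b c n := by
  have : Fact q.Prime := ⟨hq⟩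
  have hE := ell_W a b c h.b_ne
  induction k with
  | zero => exact ⟨1, one_ne_zero, by simp⟩
  | succ k ih =>
    obtain ⟨n, hn, hd⟩ := ih
    have hW0 := W_ne h n hn
    choose V hV using fun i : ℤ => dvd_W h n (i * n) (dvd_mul_left n i)
    have hVE : Ell V := by
      refine ⟨?_, ?_, ?_, ?_⟩
      · have := hV 0
        rw [zero_mul, W_zero] at this
        exact (mul_eq_zero.1 this.symm).resolve_left hW0
      · have := hV 1
        rw [one_mul] at this
        exact mul_left_cancel₀ hW0 (by rw [mul_one]; exact this.symm)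
      · intro i
        have h1 := hV i
        have h2 := hV (-i)
        rw [show -i * n = -(i * n) by ring, W_neg, h1] at h2
        exact mul_left_cancel₀ hW0 (by rw [← h2]; ring)
      · intro x y
        have e := hE.three (x * n) (y * n) n
        rw [show x * n + y * n = (x + y) * n by ring, show x * n - y * n = (x - y) * n by ring,
          show x * n + n = (x + 1) * n by ring, show x * n - n = (x - 1) * n by ring,
          show y * n + n = (y + 1) * n by ring, show y * n - n = (y - 1) * n by ring,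
          hV (x + y), hV (x - y), hV (x + 1), hV (x - 1), hV (y + 1), hV (y - 1), hV x, hV y] at e
        have e' : W a b c n ^ 4 * (V (x + y) * V (x - y)) = W a b c n ^ 4 *
            (V (x + 1) * V (x - 1) * V y ^ 2 - V (y + 1) * V (y - 1) * V x ^ 2) := by
          linear_combination e
        exact mul_left_cancel₀ (pow_ne_zero 4 hW0) e'
    obtain ⟨i, hi1, -, hi0⟩ := exists_zero q (fun n => ((V n : ℤ) : ZMod q))
      (hVE.map (Int.castRingHom (ZMod q)))
    refine ⟨i * n, mul_ne_zero (by omega) hn, ?_⟩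
    rw [hV i, pow_succ]
    exact mul_dvd_mul hd ((ZMod.intCast_zmod_eq_zero_iff_dvd _ _).1 hi0)

end MP308.CG
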