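import Pool.Agent.Work.MP_308fa9_nt.CE.Jac
import Pool.Agent.Work.MP_308fa9_nt.CE.QRM
import Pool.Agent.Work.MP_308fa9_nt.CG.WReg

/-! # The values `c_n = J W (n+1) n` (from `J_five`, `J_four` and the table `W_mod8`) -/

set_option autoImplicit false

namespace MP308.CG

open MP308.CE (Ell Reg EDSZ op J Smooth hil tab0 tab2 jac_neg_one jac_neg_one_two op_neg hil_two_odd
  hil_odd_odd hil_of_one hil_mul_right hil_mul_self J_four J_five' jac_eq_one_of_isSquare)

variable {α β γ : ℤ}

/-- the table at odd indices -/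
private theorem CV_odd (h : Par α β γ) {n : ℤ} (hn : n % 2 = 1) :
    W α β γ n % 8 = CE.tab γ n := by
  rw [W_mod8 h.toPar₀, tab, if_neg (by omega)]

/-- the table at even indices -/
private theorem CV_even (h : Par α β γ) {n : ℤ} (hn : n % 2 = 0) :
    (β * W α β γ n) % 8 = CE.tab γ n % 8 := by
  have h1 := W_mod8 h.toPar₀ n
  rw [tab, if_pos hn] at h1
  have hb := h.toPar₀.hb
  have h2 : (β * β) % 8 = 1 := by
    have h3 : β % 8 = 1 ∨ β % 8 = 3 ∨ β % 8 = 5 ∨ β % 8 = 7 := by omega
    rcases h3 with h3 | h3 | h3 | h3 <;> rw [Int.mul_emod, h3] <;> norm_num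
  calc (β * W α β γ n) % 8 = (β * (W α β γ n % 8)) % 8 := by rw [Int.mul_emod, Int.mul_emod β (_ % 8), Int.emod_emod_of_dvd _ (dvd_refl 8)]
    _ = (β * (β * CE.tab γ n)) % 8 := by
      rw [h1, Int.mul_emod, Int.emod_emod_of_dvd _ (dvd_refl 8), ← Int.mul_emod]
    _ = ((β * β) * CE.tab γ n) % 8 := by rw [mul_assoc]
    _ = CE.tab γ n % 8 := by rw [Int.mul_emod, h2, one_mul, Int.emod_emod_of_dvd _ (dvd_refl 8)]

private theorem CV_c4 (h : Par α β γ) : γ % 4 = 0 ∨ γ % 4 = 2 := by have := h.toPar₀.hc; omega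

/-- `(-1 / odd W_i)` for `i ≡ 1 mod 4`, odd value -/
private theorem CV_neg_odd (h : Par α β γ) {i : ℤ} (hi : i % 4 = 1) (hw : W α β γ i % 2 = 1) :
    jacobiSym (-1) (op (W α β γ i)) = if W α β γ i % 4 = 3 then -1 else 1 :=
  jac_neg_one hw (W_pos h i hi)

/-- `(-1 / odd W_i)` for `i ≡ 1 mod 4`, value twice an odd number -/
private theorem CV_neg_two (h : Par α β γ) {i u : ℤ} (hi : i % 4 = 1) (hw : W α β γ i = 2 * u)
    (hu : u % 2 = 1) : jacobiSym (-1) (op (W α β γ i)) = if u % 4 = 3 then -1 else 1 := by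
  have h1 := W_pos h i hi
  rw [hw] at h1 ⊢
  exact jac_neg_one_two hu (by omega)

/-- the same for `i ≡ 3 mod 4` -/
private theorem CV_neg_odd' (h : Par α β γ) {i : ℤ} (hi : i % 4 = 3) (hw : W α β γ i % 2 = 1) :
    jacobiSym (-1) (op (W α β γ i)) = if W α β γ i % 4 = 1 then -1 else 1 := by
  have h1 := CV_neg_odd h (i := -i) (by omega) (by rw [W_neg]; omega)
  rw [W_neg, op_neg] at h1
  rw [h1]
  by_cases h2 : W α β γ i % 4 = 1
  · rw [if_pos (by omega), if_pos h2]
  · rw [if_neg (by omega), if_neg h2]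

private theorem CV_neg_two' (h : Par α β γ) {i u : ℤ} (hi : i % 4 = 3) (hw : W α β γ i = 2 * u)
    (hu : u % 2 = 1) : jacobiSym (-1) (op (W α β γ i)) = if u % 4 = 1 then -1 else 1 := by
  have h1 := CV_neg_two h (i := -i) (u := -u) (by omega) (by rw [W_neg, hw]; ring) (by omega)
  rw [W_neg, op_neg] at h1
  rw [h1]
  by_cases h2 : u % 4 = 1
  · rw [if_pos (by omega), if_pos h2]
  · rw [if_neg (by omega), if_neg h2]

/-- (J5) for `W` -/
private theorem CV_five (h : Par α β γ) {m : ℤ} (hm : m ≠ 0) (hm2 : m % 2 = 0) :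
    J (W α β γ) (2 * m + 1) (2 * m) =
      hil (W α β γ (m + 1) * W α β γ (1 - m)) (β * W α β γ (2 * m)) *
      jacobiSym (-1) (op (W α β γ (m + 1))) := by
  rw [J_five' (edsz_W h) hm hm2, W_two, hil_mul_right _ h.toPar₀.b_ne (W_ne h.toPar₀ _ (by omega))]
  ring

private theorem CV_half {x : ℤ} (hx : x % 4 = 2) : ∃ u, x = 2 * u ∧ u % 2 = 1 :=
  ⟨x / 2, by omega, by omega⟩

theorem c_8 (h : Par α β γ) {n : ℤ} (h8 : n % 8 = 0) (h5 : n % 5 ≠ 0) :
    J (W α β γ) (n + 1) n = -1 := by
  obtain ⟨m, rfl⟩ : ∃ m, n = 2 * m := ⟨n / 2, by omega⟩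
  rw [CV_five h (by omega) (by omega)]
  have e1 := CV_odd h (n := m + 1) (by omega)
  have e2 := CV_odd h (n := 1 - m) (by omega)
  have e3 := CV_even h (n := 2 * m) (by omega)
  unfold CE.tab at e1 e2 e3
  have hm : m % 20 = 4 ∨ m % 20 = 8 ∨ m % 20 = 12 ∨ m % 20 = 16 := by omega
  rcases hm with hm | hm | hm | hm
  · rw [show (m + 1) % 20 = 5 by omega] at e1
    rw [show (1 - m) % 20 = 17 by omega] at e2
    rw [show (2 * m) % 20 = 8 by omega] at e3
    rcases CV_c4 h with hc | hc <;> simp [hc, tab0, tab2] at e1 e2 e3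
    · obtain ⟨u, hu, hu2⟩ := CV_half (show W α β γ (m + 1) % 4 = 2 by omega)
      rw [CV_neg_two h (by omega) hu hu2, hu, mul_assoc,
        hil_two_odd (A := u * W α β γ (1 - m)) ?_ (by omega)]
      · have : (u * W α β γ (1 - m)) % 4 = 3 := by
          rw [Int.mul_emod, show u % 4 = 1 by omega, show W α β γ (1 - m) % 4 = 3 by omega]; norm_num
        rw [if_neg (by omega), if_pos ⟨this, by omega⟩, if_neg (by omega)]
        norm_num
      · rw [Int.mul_emod, hu2, show W α β γ (1 - m) % 2 = 1 by omega]; norm_num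
    · obtain ⟨u, hu, hu2⟩ := CV_half (show W α β γ (m + 1) % 4 = 2 by omega)
      rw [CV_neg_two h (by omega) hu hu2, hu, mul_assoc,
        hil_two_odd (A := u * W α β γ (1 - m)) ?_ (by omega)]
      · have : (u * W α β γ (1 - m)) % 4 = 1 := by
          rw [Int.mul_emod, show u % 4 = 3 by omega, show W α β γ (1 - m) % 4 = 3 by omega]; norm_num
        rw [if_neg (by omega), if_neg (by omega), if_pos (by omega)]
        norm_num
      · rw [Int.mul_emod, hu2, show W α β γ (1 - m) % 2 = 1 by omega]; norm_num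
  · rw [show (m + 1) % 20 = 9 by omega] at e1
    rw [show (1 - m) % 20 = 13 by omega] at e2
    rw [show (2 * m) % 20 = 16 by omega] at e3
    rcases CV_c4 h with hc | hc <;> simp [hc, tab0, tab2] at e1 e2 e3 <;>
    · have e4 : (W α β γ (m + 1) * W α β γ (1 - m)) % 8 = 7 := by rw [Int.mul_emod, e1, e2]; norm_num
      rw [hil_odd_odd (by omega) (by omega), CV_neg_odd h (by omega) (by omega),
        if_neg (by omega), if_pos (by omega)]
      norm_num
  · rw [show (m + 1) % 20 = 13 by omega] at e1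
    rw [show (1 - m) % 20 = 9 by omega] at e2
    rw [show (2 * m) % 20 = 4 by omega] at e3
    rcases CV_c4 h with hc | hc <;> simp [hc, tab0, tab2] at e1 e2 e3 <;>
    · have e4 : (W α β γ (m + 1) * W α β γ (1 - m)) % 8 = 7 := by rw [Int.mul_emod, e1, e2]; norm_num
      rw [hil_odd_odd (by omega) (by omega), CV_neg_odd h (by omega) (by omega),
        if_pos ⟨by omega, by omega⟩, if_neg (by omega)]
      norm_num
  · rw [show (m + 1) % 20 = 17 by omega] at e1
    rw [show (1 - m) % 20 = 5 by omega] at e2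
    rw [show (2 * m) % 20 = 12 by omega] at e3
    rcases CV_c4 h with hc | hc <;> simp [hc, tab0, tab2] at e1 e2 e3 <;>
    · obtain ⟨u, hu, hu2⟩ := CV_half (show W α β γ (1 - m) % 4 = 2 by omega)
      rw [CV_neg_odd h (by omega) (by omega), hu,
        show W α β γ (m + 1) * (2 * u) = 2 * (W α β γ (m + 1) * u) by ring,
        hil_two_odd (A := W α β γ (m + 1) * u) ?_ (by omega)]
      · rw [if_neg (by omega), if_neg (by omega), if_pos (by omega)]
        norm_num
      · rw [Int.mul_emod, hu2, show W α β γ (m + 1) % 2 = 1 by omega]; norm_num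

theorem c_4 (h : Par α β γ) {n : ℤ} (h8 : n % 8 = 4) (h5 : n % 5 ≠ 0) :
    J (W α β γ) (n + 1) n = 1 := by
  obtain ⟨m, rfl⟩ : ∃ m, n = 2 * m := ⟨n / 2, by omega⟩
  rw [CV_five h (by omega) (by omega)]
  have e1 := CV_odd h (n := m + 1) (by omega)
  have e2 := CV_odd h (n := 1 - m) (by omega)
  have e3 := CV_even h (n := 2 * m) (by omega)
  unfold CE.tab at e1 e2 e3
  have hm : m % 20 = 2 ∨ m % 20 = 6 ∨ m % 20 = 14 ∨ m % 20 = 18 := by omega
  rcases hm with hm | hm | hm | hm
  · rw [show (m + 1) % 20 = 3 by omega] at e1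
    rw [show (1 - m) % 20 = 19 by omega] at e2
    rw [show (2 * m) % 20 = 4 by omega] at e3
    rcases CV_c4 h with hc | hc <;> simp [hc, tab0, tab2] at e1 e2 e3 <;>
    · have e4 : (W α β γ (m + 1) * W α β γ (1 - m)) % 8 = 3 := by rw [Int.mul_emod, e1, e2]; norm_num
      rw [hil_odd_odd (by omega) (by omega), CV_neg_odd' h (by omega) (by omega),
        if_pos ⟨by omega, by omega⟩, if_pos (by omega)]
      norm_num
  · rw [show (m + 1) % 20 = 7 by omega] at e1
    rw [show (1 - m) % 20 = 15 by omega] at e2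
    rw [show (2 * m) % 20 = 12 by omega] at e3
    rcases CV_c4 h with hc | hc <;> simp [hc, tab0, tab2] at e1 e2 e3 <;>
    · obtain ⟨u, hu, hu2⟩ := CV_half (show W α β γ (1 - m) % 4 = 2 by omega)
      rw [CV_neg_odd' h (by omega) (by omega), hu,
        show W α β γ (m + 1) * (2 * u) = 2 * (W α β γ (m + 1) * u) by ring,
        hil_two_odd (A := W α β γ (m + 1) * u) ?_ (by omega)]
      · rw [if_neg (by omega), if_neg (by omega), if_neg (by omega)]
        norm_num
      · rw [Int.mul_emod, hu2, show W α β γ (m + 1) % 2 = 1 by omega]; norm_num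
  · rw [show (m + 1) % 20 = 15 by omega] at e1
    rw [show (1 - m) % 20 = 7 by omega] at e2
    rw [show (2 * m) % 20 = 8 by omega] at e3
    rcases CV_c4 h with hc | hc <;> simp [hc, tab0, tab2] at e1 e2 e3
    · obtain ⟨u, hu, hu2⟩ := CV_half (show W α β γ (m + 1) % 4 = 2 by omega)
      rw [CV_neg_two' h (by omega) hu hu2, hu, mul_assoc,
        hil_two_odd (A := u * W α β γ (1 - m)) ?_ (by omega)]
      · have : (u * W α β γ (1 - m)) % 4 = 1 := by
          rw [Int.mul_emod, show u % 4 = 3 by omega, show W α β γ (1 - m) % 4 = 3 by omega]; norm_num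
        rw [if_neg (by omega), if_neg (by omega), if_neg (by omega)]
        norm_num
      · rw [Int.mul_emod, hu2, show W α β γ (1 - m) % 2 = 1 by omega]; norm_num
    · obtain ⟨u, hu, hu2⟩ := CV_half (show W α β γ (m + 1) % 4 = 2 by omega)
      rw [CV_neg_two' h (by omega) hu hu2, hu, mul_assoc,
        hil_two_odd (A := u * W α β γ (1 - m)) ?_ (by omega)]
      · have : (u * W α β γ (1 - m)) % 4 = 3 := by
          rw [Int.mul_emod, show u % 4 = 1 by omega, show W α β γ (1 - m) % 4 = 3 by omega]; norm_num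
        rw [if_neg (by omega), if_pos ⟨this, by omega⟩, if_pos (by omega)]
        norm_num
      · rw [Int.mul_emod, hu2, show W α β γ (1 - m) % 2 = 1 by omega]; norm_num
  · rw [show (m + 1) % 20 = 19 by omega] at e1
    rw [show (1 - m) % 20 = 3 by omega] at e2
    rw [show (2 * m) % 20 = 16 by omega] at e3
    rcases CV_c4 h with hc | hc <;> simp [hc, tab0, tab2] at e1 e2 e3 <;>
    · have e4 : (W α β γ (m + 1) * W α β γ (1 - m)) % 8 = 3 := by rw [Int.mul_emod, e1, e2]; norm_num
      rw [hil_odd_odd (by omega) (by omega), CV_neg_odd' h (by omega) (by omega),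
        if_neg (by omega), if_neg (by omega)]
      norm_num

theorem c_20 (h : Par α β γ) {n : ℤ} (h40 : n % 40 = 20) : J (W α β γ) (n + 1) n = -1 := by
  obtain ⟨m, rfl⟩ : ∃ m, n = 2 * m := ⟨n / 2, by omega⟩
  rw [CV_five h (by omega) (by omega)]
  have e1 := CV_odd h (n := m + 1) (by omega)
  have e2 := CV_odd h (n := 1 - m) (by omega)
  unfold CE.tab at e1 e2
  rw [show (m + 1) % 20 = 11 by omega] at e1
  rw [show (1 - m) % 20 = 11 by omega] at e2
  rcases CV_c4 h with hc | hc <;> simp [hc, tab0, tab2] at e1 e2 <;>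
  · have e4 : (W α β γ (m + 1) * W α β γ (1 - m)) % 8 = 1 := by rw [Int.mul_emod, e1, e2]; norm_num
    rw [hil_of_one e4 (mul_ne_zero h.toPar₀.b_ne (W_ne h.toPar₀ _ (by omega))), CV_neg_odd' h (by omega) (by omega),
      if_pos (by omega)]
    norm_num

theorem c_40 (h : Par α β γ) {n : ℤ} (hn : n ≠ 0) (h40 : n % 40 = 0) : J (W α β γ) (n + 1) n = 1 := by
  obtain ⟨m, rfl⟩ : ∃ m, n = 2 * m := ⟨n / 2, by omega⟩
  rw [CV_five h (by omega) (by omega)]
  have e1 := CV_odd h (n := m + 1) (by omega)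
  have e2 := CV_odd h (n := 1 - m) (by omega)
  unfold CE.tab at e1 e2
  rw [show (m + 1) % 20 = 1 by omega] at e1
  rw [show (1 - m) % 20 = 1 by omega] at e2
  rcases CV_c4 h with hc | hc <;> simp [hc, tab0, tab2] at e1 e2 <;>
  · have e4 : (W α β γ (m + 1) * W α β γ (1 - m)) % 8 = 1 := by rw [Int.mul_emod, e1, e2]; norm_num
    rw [hil_of_one e4 (mul_ne_zero h.toPar₀.b_ne (W_ne h.toPar₀ _ hn)), CV_neg_odd h (by omega) (by omega),
      if_neg (by omega)]
    norm_num

/-- (J4) for `W`, in terms of `n ≡ 1 mod 4`, `n ≠ 1` -/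
private theorem CV_four (h : Par α β γ) {n : ℤ} (hn : n ≠ 1) (h4 : n % 4 = 1) :
    J (W α β γ) (n - 1 + 1) (n - 1) * J (W α β γ) (n + 1) n * jacobiSym (-1) (op (W α β γ n))
      = hil (W α β γ n) β * hil (W α β γ n) (β * W α β γ (n - 1)) := by
  have hb := h.toPar₀.b_ne
  have h1 := J_four (edsz_W h) (n := n - 1) (by omega) (by omega)
  rw [show n - 1 + 2 = n + 1 by ring] at h1
  rw [hil_mul_right _ hb (W_ne h.toPar₀ _ (by omega)), ← mul_assoc,
    hil_mul_self (W_ne h.toPar₀ _ (by omega)) hb, one_mul]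
  rwa [show n - 1 + 1 = n by ring] at h1 ⊢

/-- `n ≡ 1 mod 4`, `5 ∤ n` -/
theorem c_odd_pos (h : Par α β γ) {n : ℤ} (h40 : n % 40 = 1 ∨ n % 40 = 13 ∨ n % 40 = 17 ∨ n % 40 = 29) :
    J (W α β γ) (n + 1) n = hil (W α β γ n) β := by
  by_cases hn : n = 1
  · subst hn
    unfold J
    rw [W_one]
    have : op 1 = 1 := by simp [op]
    rw [this, jacobiSym.one_right, hil_of_one (by norm_num) h.toPar₀.b_ne]
  have key := CV_four h hn (by omega)
  have e1 := CV_odd h (n := n) (by omega)
  have e2 := CV_even h (n := n - 1) (by omega)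
  unfold CE.tab at e1 e2
  rcases h40 with h4 | h4 | h4 | h4
  · rw [show n % 20 = 1 by omega] at e1
    rw [c_40 h (by omega) (by omega)] at key
    rcases CV_c4 h with hc | hc <;> simp [hc, tab0, tab2] at e1 <;>
    · rw [hil_of_one e1 h.toPar₀.b_ne, hil_of_one e1 (mul_ne_zero h.toPar₀.b_ne
        (W_ne h.toPar₀ _ (by omega))), CV_neg_odd h (by omega) (by omega),
        if_neg (by omega)] at key
      rw [hil_of_one e1 h.toPar₀.b_ne]
      linarith
  · rw [show n % 20 = 13 by omega] at e1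
    rw [show (n - 1) % 20 = 12 by omega] at e2
    rw [c_4 h (by omega) (by omega)] at key
    rcases CV_c4 h with hc | hc <;> simp [hc, tab0, tab2] at e1 e2 <;>
    · rw [hil_odd_odd (B := β * W α β γ (n - 1)) (by omega) (by omega), CV_neg_odd h (by omega) (by omega),
        if_neg (by omega), if_neg (by omega)] at key
      linarith
  · rw [show n % 20 = 17 by omega] at e1
    rw [show (n - 1) % 20 = 16 by omega] at e2
    rw [c_8 h (by omega) (by omega)] at key
    rcases CV_c4 h with hc | hc <;> simp [hc, tab0, tab2] at e1 e2 <;>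
    · rw [hil_odd_odd (B := β * W α β γ (n - 1)) (by omega) (by omega), CV_neg_odd h (by omega) (by omega),
        if_pos (by omega), if_neg (by omega)] at key
      linarith
  · rw [show n % 20 = 9 by omega] at e1
    rw [show (n - 1) % 20 = 8 by omega] at e2
    rw [c_4 h (by omega) (by omega)] at key
    rcases CV_c4 h with hc | hc <;> simp [hc, tab0, tab2] at e1 e2 <;>
    · rw [hil_odd_odd (B := β * W α β γ (n - 1)) (by omega) (by omega), CV_neg_odd h (by omega) (by omega),
        if_pos (by omega), if_pos ⟨by omega, by omega⟩] at key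
      linarith

theorem c_odd_neg (h : Par α β γ) {n : ℤ} (h40 : n % 40 = 9 ∨ n % 40 = 21 ∨ n % 40 = 33 ∨ n % 40 = 37) :
    J (W α β γ) (n + 1) n = -hil (W α β γ n) β := by
  have key := CV_four h (n := n) (by omega) (by omega)
  have e1 := CV_odd h (n := n) (by omega)
  have e2 := CV_even h (n := n - 1) (by omega)
  unfold CE.tab at e1 e2
  rcases h40 with h4 | h4 | h4 | h4
  · rw [show n % 20 = 9 by omega] at e1
    rw [show (n - 1) % 20 = 8 by omega] at e2
    rw [c_8 h (by omega) (by omega)] at key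
    rcases CV_c4 h with hc | hc <;> simp [hc, tab0, tab2] at e1 e2 <;>
    · rw [hil_odd_odd (B := β * W α β γ (n - 1)) (by omega) (by omega), CV_neg_odd h (by omega) (by omega),
        if_pos (by omega), if_pos ⟨by omega, by omega⟩] at key
      linarith
  · rw [show n % 20 = 1 by omega] at e1
    rw [c_20 h (by omega)] at key
    rcases CV_c4 h with hc | hc <;> simp [hc, tab0, tab2] at e1 <;>
    · rw [hil_of_one e1 h.toPar₀.b_ne, hil_of_one e1 (mul_ne_zero h.toPar₀.b_ne
        (W_ne h.toPar₀ _ (by omega))), CV_neg_odd h (by omega) (by omega),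
        if_neg (by omega)] at key
      rw [hil_of_one e1 h.toPar₀.b_ne]
      linarith
  · rw [show n % 20 = 13 by omega] at e1
    rw [show (n - 1) % 20 = 12 by omega] at e2
    rw [c_8 h (by omega) (by omega)] at key
    rcases CV_c4 h with hc | hc <;> simp [hc, tab0, tab2] at e1 e2 <;>
    · rw [hil_odd_odd (B := β * W α β γ (n - 1)) (by omega) (by omega), CV_neg_odd h (by omega) (by omega),
        if_neg (by omega), if_neg (by omega)] at key
      linarith
  · rw [show n % 20 = 17 by omega] at e1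
    rw [show (n - 1) % 20 = 16 by omega] at e2
    rw [c_4 h (by omega) (by omega)] at key
    rcases CV_c4 h with hc | hc <;> simp [hc, tab0, tab2] at e1 e2 <;>
    · rw [hil_odd_odd (B := β * W α β γ (n - 1)) (by omega) (by omega), CV_neg_odd h (by omega) (by omega),
        if_pos (by omega), if_neg (by omega)] at key
      linarith

/-- `c_5 (-1/N_5) = (W_5, b)_2` -/
theorem c_five (h : Par α β γ) :
    J (W α β γ) 6 5 * jacobiSym (-1) (op (W α β γ 5)) = hil (W α β γ 5) β := by
  have key := CV_four h (n := 5) (by norm_num) (by norm_num)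
  norm_num at key
  have h4 := c_4 h (n := 4) (by norm_num) (by norm_num)
  norm_num at h4
  rw [h4, one_mul] at key
  rw [key]
  have key2 : hil (W α β γ 5) (β * W α β γ 4) = 1 → hil (W α β γ 5) β *
      hil (W α β γ 5) (β * W α β γ 4) = hil (W α β γ 5) β := fun h0 => by rw [h0, mul_one]
  apply key2
  have e1 := CV_odd h (n := 5) (by omega)
  have e2 := CV_even h (n := 4) (by omega)
  unfold CE.tab at e1 e2
  rcases CV_c4 h with hc | hc <;> simp [hc, tab0, tab2] at e1 e2 <;>
  · obtain ⟨u, hu, hu2⟩ := CV_half (show W α β γ 5 % 4 = 2 by omega)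
    rw [hu, hil_two_odd hu2 (by omega)]
    by_cases h1 : (β * W α β γ 4) % 8 = 3 ∨ (β * W α β γ 4) % 8 = 5
    · rw [if_pos h1, if_pos ⟨by omega, by omega⟩]; norm_num
    · rw [if_neg h1, if_neg (by omega)]; norm_num

/-- a `Good` index has Jacobi symbol 1 -/
theorem J_of_good (h : Par α β γ) {t n : ℤ} (hn : n ≠ 0) (ht : IsCoprime t n) (hg : Good α β γ t n) :
    J (W α β γ) t n = 1 := by
  unfold J
  apply jac_eq_one_of_isSquare (W_ne h.toPar₀ n hn)
  intro q hq hq2 hqn
  have h1 : ¬ (q : ℤ) ∣ W α β γ t := by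
    intro h2
    have h3 := (cop_W h.toPar₀ t n ht)
    have h4 := h3.isUnit_of_dvd' h2 hqn
    exact (Nat.prime_iff_prime_int.1 hq).not_isUnit h4
  exact ⟨h1, hg q hq hq2 hqn h1⟩

end MP308.CG
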