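import Pool.Agent.Work.MP_308fa9_nt.CG.KM

/-!
# Coordinates of the multiples of `Q0 = (0, 0)` on `y² + b y = x³ + a x² + c x`
-/

set_option autoImplicit false

namespace Pool.Agent.Work.MP_308fa9_nt.CG

open WeierstrassCurve.Affine

/-- The curve `y ^ 2 + b y = x ^ 3 + a x ^ 2 + c x`. -/
def crv {R : Type*} [CommRing R] (a b c : R) : WeierstrassCurve R := ⟨0, a, b, c, 0⟩

variable {F : Type*} [Field F]

theorem crv_equation {a b c x y : F} : (crv a b c).toAffine.Equation x y ↔
    y ^ 2 + b * y = x ^ 3 + a * x ^ 2 + c * x := by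
  rw [WeierstrassCurve.Affine.equation_iff]
  simp [crv]

theorem crv_nonsingular {a b c x y : F} : (crv a b c).toAffine.Nonsingular x y ↔
    (y ^ 2 + b * y = x ^ 3 + a * x ^ 2 + c * x) ∧
      (3 * x ^ 2 + 2 * a * x + c ≠ 0 ∨ 2 * y + b ≠ 0) := by
  rw [WeierstrassCurve.Affine.nonsingular_iff, crv_equation]
  constructor
  · rintro ⟨h1, h2⟩
    refine ⟨h1, ?_⟩
    rcases h2 with h2 | h2
    · left
      intro h3
      apply h2
      simp only [crv]
      linear_combination -h3
    · right
      intro h3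
      apply h2
      simp only [crv]
      linear_combination h3
  · rintro ⟨h1, h2⟩
    refine ⟨h1, ?_⟩
    rcases h2 with h2 | h2
    · left
      intro h3
      apply h2
      simp only [crv] at h3
      linear_combination -h3
    · right
      intro h3
      apply h2
      simp only [crv] at h3
      linear_combination h3

theorem nonsing_zero (a c : F) {b : F} (hb : b ≠ 0) :
    (crv a b c).toAffine.Nonsingular 0 0 := by
  rw [crv_nonsingular]
  exact ⟨by ring, Or.inr (by simpa using hb)⟩

/-- `X_n = - W_(n+1) W_(n-1)`. -/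
def Xn (w : ℤ → F) (n : ℤ) : F := -(w (n + 1) * w (n - 1))

/-- `Y_n = (W_(n+2) W_(n-1)^2 - c W_(n-1) W_n W_(n+1)) / b`. -/
def Yn (w : ℤ → F) (b c : F) (n : ℤ) : F :=
  (w (n + 2) * w (n - 1) ^ 2 - c * w (n - 1) * w n * w (n + 1)) / b

theorem some_congr {a b c x y x' y' : F} (hx : x = x') (hy : y = y')
    (h : (crv a b c).toAffine.Nonsingular x y) :
    ∃ h' : (crv a b c).toAffine.Nonsingular x' y',
      (Point.some x y h : (crv a b c).toAffine.Point) = Point.some x' y' h' := by
  subst hx hy
  exact ⟨h, rfl⟩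

variable [DecidableEq F]

theorem smul_pos {a b c : F} (hb : b ≠ 0) {w : ℤ → F} (hw : Doubling b w)
    (h3 : w 3 = a * b ^ 2 - c ^ 2)
    (h4 : w 4 = -(b * (b ^ 4 + 2 * c * (c ^ 2 - a * b ^ 2))))
    (hne : ∀ n : ℤ, n ≠ 0 → w n ≠ 0) (m : ℕ) :
    ∃ h : (crv a b c).toAffine.Nonsingular (Xn w ((m : ℤ) + 1) / w ((m : ℤ) + 1) ^ 2)
        (Yn w b c ((m : ℤ) + 1) / w ((m : ℤ) + 1) ^ 3),
      (m + 1) • (Point.some 0 0 (nonsing_zero a c hb) : (crv a b c).toAffine.Point)
        = Point.some _ _ h := by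
  induction m with
  | zero =>
    simp only [Nat.cast_zero, zero_add, one_smul]
    exact some_congr (by simp [Xn, hw.zero]) (by simp [Yn, hw.zero]) _
  | succ m ih =>
    rcases Nat.eq_zero_or_pos m with rfl | hm
    · -- doubling
      rw [add_smul, zero_add, one_smul]
      have hy : (0 : F) ≠ (crv a b c).toAffine.negY 0 0 := by
        simp [WeierstrassCurve.Affine.negY, crv]
        exact hb
      have hadd := WeierstrassCurve.Affine.Point.add_self_of_Y_ne (W := (crv a b c).toAffine)
        (h₁ := nonsing_zero a c hb) hy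
      rw [hadd]
      have hs : (crv a b c).toAffine.slope 0 0 0 0 = c / b := by
        rw [WeierstrassCurve.Affine.slope_of_Y_ne rfl hy]
        simp [WeierstrassCurve.Affine.negY, crv]
      apply some_congr
      · rw [hs]
        simp only [WeierstrassCurve.Affine.addX, crv, Xn]
        push_cast
        norm_num [hw.two, hw.one, h3]
        field_simp
      · rw [hs]
        simp only [WeierstrassCurve.Affine.addY, WeierstrassCurve.Affine.negAddY,
          WeierstrassCurve.Affine.negY, WeierstrassCurve.Affine.addX, crv, Yn]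
        push_cast
        norm_num [hw.two, hw.one, h3, h4]
        field_simp
        ring
    · -- the chord
      obtain ⟨n, hn⟩ : ∃ n : ℤ, n = (m : ℤ) + 1 := ⟨_, rfl⟩
      have e1 : (((m + 1 : ℕ) : ℤ) + 1) = n + 1 := by push_cast; omega
      rw [e1]
      rw [← hn] at ih
      obtain ⟨h, ih⟩ := ih
      have w0 : w n ≠ 0 := hne n (by omega)
      have wm : w (n - 1) ≠ 0 := hne _ (by omega)
      have wp : w (n + 1) ≠ 0 := hne _ (by omega)
      have hx : Xn w n / w n ^ 2 ≠ 0 :=
        div_ne_zero (neg_ne_zero.mpr (mul_ne_zero wp wm)) (pow_ne_zero 2 w0)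
      have hadd := WeierstrassCurve.Affine.Point.add_of_X_ne (W := (crv a b c).toAffine)
        (h₁ := h) (h₂ := nonsing_zero a c hb) hx
      rw [succ_nsmul, ih, hadd]
      have hs : (crv a b c).toAffine.slope (Xn w n / w n ^ 2) 0 (Yn w b c n / w n ^ 3) 0 =
          (c - w (n + 2) * w (n - 1) / (w n * w (n + 1))) / b := by
        rw [WeierstrassCurve.Affine.slope_of_X_ne hx]
        simp only [Xn, Yn, sub_zero]
        field_simp
        ring
      have hM := hw.M_rel hb h3 h4 hne n
      have hK := hw.K_rel hb c h3 h4 hne (n + 1)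
      rw [show n + 1 + 2 = n + 3 by ring, show n + 1 - 2 = n - 1 by ring,
        show n + 1 + 1 = n + 2 by ring, show n + 1 - 1 = n by ring] at hK
      have hxn : (crv a b c).toAffine.addX (Xn w n / w n ^ 2) 0
          ((c - w (n + 2) * w (n - 1) / (w n * w (n + 1))) / b)
            = Xn w (n + 1) / w (n + 1) ^ 2 := by
        simp only [WeierstrassCurve.Affine.addX, crv, Xn]
        rw [show n + 1 + 1 = n + 2 by ring, show n + 1 - 1 = n by ring]
        field_simp
        linear_combination hM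
      apply some_congr
      · rw [hs, hxn]
      · rw [hs]
        simp only [WeierstrassCurve.Affine.addY, WeierstrassCurve.Affine.negAddY,
          WeierstrassCurve.Affine.negY, hxn]
        simp only [crv, Xn, Yn]
        rw [show n + 1 + 2 = n + 3 by ring, show n + 1 + 1 = n + 2 by ring,
          show n + 1 - 1 = n by ring]
        field_simp
        linear_combination (-w n ^ 3) * hK

omit [DecidableEq F] in
theorem some_neg {a b c x y : F} (h : (crv a b c).toAffine.Nonsingular x y) :
    ∃ h' : (crv a b c).toAffine.Nonsingular x (-y - b),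
      -(Point.some x y h : (crv a b c).toAffine.Point) = Point.some x (-y - b) h' := by
  rw [WeierstrassCurve.Affine.Point.neg_some]
  exact some_congr rfl (by simp [WeierstrassCurve.Affine.negY, crv]) _

/-- The coordinates of `n Q0`. -/
theorem smul_coord {a b c : F} (hb : b ≠ 0) {w : ℤ → F} (hw : Doubling b w)
    (h3 : w 3 = a * b ^ 2 - c ^ 2)
    (h4 : w 4 = -(b * (b ^ 4 + 2 * c * (c ^ 2 - a * b ^ 2))))
    (hne : ∀ n : ℤ, n ≠ 0 → w n ≠ 0) (n : ℤ)
    (hn : n ≠ 0) :
    ∃ h : (crv a b c).toAffine.Nonsingular (Xn w n / w n ^ 2) (Yn w b c n / w n ^ 3),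
      n • (Point.some 0 0 (nonsing_zero a c hb) : (crv a b c).toAffine.Point)
        = Point.some _ _ h := by
  rcases lt_or_gt_of_ne hn with hlt | hgt
  · obtain ⟨m, rfl⟩ : ∃ m : ℕ, n = -((m : ℤ) + 1) := ⟨(-n - 1).toNat, by omega⟩
    obtain ⟨h, e⟩ := smul_pos hb hw h3 h4 hne m
    have e' : (-((m : ℤ) + 1)) • (Point.some 0 0 (nonsing_zero a c hb) :
        (crv a b c).toAffine.Point) = -((m + 1 : ℕ) • (Point.some 0 0 (nonsing_zero a c hb) :
        (crv a b c).toAffine.Point)) := by
      rw [neg_smul]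
      congr 1
    rw [e', e]
    obtain ⟨h', e2⟩ := some_neg h
    rw [e2]
    have hK := hw.K_rel hb c h3 h4 hne ((m : ℤ) + 1)
    have hwm := hne ((m : ℤ) + 1) (by omega)
    obtain ⟨k, hk⟩ : ∃ k : ℤ, k = (m : ℤ) + 1 := ⟨_, rfl⟩
    simp only [← hk] at hK hwm ⊢
    apply some_congr
    · simp only [Xn]
      rw [show -k + 1 = -(k - 1) by ring, show -k - 1 = -(k + 1) by ring, hw.odd (k - 1),
        hw.odd (k + 1), hw.odd k]
      congr 1 <;> ring
    · simp only [Yn]
      rw [show -k + 2 = -(k - 2) by ring, show -k - 1 = -(k + 1) by ring,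
        show -k + 1 = -(k - 1) by ring, hw.odd (k - 2), hw.odd (k + 1), hw.odd (k - 1), hw.odd k]
      have : (-w k) ^ 3 = -(w k ^ 3) := by ring
      rw [this, div_neg]
      field_simp
      linear_combination (-1 : F) * hK
  · obtain ⟨m, rfl⟩ : ∃ m : ℕ, n = (m : ℤ) + 1 := ⟨(n - 1).toNat, by omega⟩
    obtain ⟨h, e⟩ := smul_pos hb hw h3 h4 hne m
    refine ⟨h, ?_⟩
    rw [← e]
    exact_mod_cast natCast_zsmul
      (Point.some 0 0 (nonsing_zero a c hb) : (crv a b c).toAffine.Point) (m + 1)

end Pool.Agent.Work.MP_308fa9_nt.CG
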