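import Mathlib

/-! # The curves `C : w⁴ = (t²-a)² - 4(bt+c)` and `E : y² + b y = x³ + a x² + c x`, the map `f` -/

set_option autoImplicit false

namespace MP308.CG

open WeierstrassCurve.Affine

/-- the elliptic curve `E : y² + b y = x³ + a x² + c x` -/
def E (K : Type*) [Field K] (a b c : ℤ) : WeierstrassCurve.Affine K :=
  { a₁ := 0, a₂ := (a : K), a₃ := (b : K), a₄ := (c : K), a₆ := 0 }

/-- for odd `b` the discriminant of `E` is an odd integer, so `E` is smooth in characteristic 0 -/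
theorem E_Δ (K : Type*) [Field K] [CharZero K] (a c : ℤ) {b : ℤ} (hb : Odd b) :
    (E K a b c).Δ ≠ 0 := by
  have h : (E K a b c).Δ = (((2 * (-8 * a ^ 2 * (a * b ^ 2 - c ^ 2) - 32 * c ^ 3 + 36 * a * b ^ 2 * c
      - 14 * b ^ 4) + b ^ 4 : ℤ)) : K) := by
    simp only [WeierstrassCurve.Δ, WeierstrassCurve.b₂, WeierstrassCurve.b₄, WeierstrassCurve.b₆,
      WeierstrassCurve.b₈, E]
    push_cast
    ring
  rw [h, Ne, Int.cast_eq_zero]
  have h4 : b ^ 4 % 2 = 1 := Int.odd_iff.1 (hb.pow)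
  omega

theorem E_nonsing_zero (K : Type*) [Field K] [CharZero K] (a c : ℤ) {b : ℤ} (hb : Odd b) :
    (E K a b c).Nonsingular 0 0 := by
  have h : (b : K) ≠ 0 := by
    have : b ≠ 0 := by rintro rfl; exact absurd hb (by decide)
    exact_mod_cast this
  rw [nonsingular_zero]
  exact ⟨rfl, Or.inl h⟩

/-- the point `Q₀ = (0, 0)` of `E` -/
def Q₀ (K : Type*) [Field K] [CharZero K] (a c : ℤ) {b : ℤ} (hb : Odd b) : (E K a b c).Point :=
  .some 0 0 (E_nonsing_zero K a c hb)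

/-- The `K`-points of the plane quartic `C : w⁴ = (t² - a z²)² - 4 z³ (b t + c z)`:
the affine points `[t : w : 1]` and the points `[1 : ε : 0]`, `ε⁴ = 1`, at infinity. -/
inductive CPt (K : Type*) [Field K] (a b c : ℤ)
  | aff (t w : K) (h : w ^ 4 = (t ^ 2 - a) ^ 2 - 4 * (b * t + c))
  | inf (ε : K) (h : ε ^ 4 = 1)

theorem E_nonsing_f {K : Type*} [Field K] [CharZero K] {a b c : ℤ} (hb : Odd b) {t w : K}
    (h : w ^ 4 = (t ^ 2 - a) ^ 2 - 4 * (b * t + c)) :
    (E K a b c).Nonsingular ((t ^ 2 - a - w ^ 2) / 2) (t * ((t ^ 2 - a - w ^ 2) / 2) - b) := by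
  rw [← equation_iff_nonsingular_of_Δ_ne_zero (E_Δ K a c hb), equation_iff]
  simp only [E]
  have h2 : (2 : K) ≠ 0 := two_ne_zero
  field_simp
  linear_combination -(t ^ 2 - a - w ^ 2) * h

open Classical in
/-- the morphism `f : C → E`, `f(t, w) = ((t² - a - w²)/2, t (t² - a - w²)/2 - b)`;
`f([1:±1:0]) = (0,0)`, `f([1:±i:0]) = O` -/
noncomputable def f {K : Type*} [Field K] [CharZero K] {a b c : ℤ} (hb : Odd b) :
    CPt K a b c → (E K a b c).Point
  | .aff t w h =>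
      .some ((t ^ 2 - a - w ^ 2) / 2) (t * ((t ^ 2 - a - w ^ 2) / 2) - b) (E_nonsing_f hb h)
  | .inf ε _ => if ε ^ 2 = 1 then Q₀ K a c hb else 0

end MP308.CG
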