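import Pool.Agent.Work.MP_308fa9_nt.CE.Defs

/-!
# MP_308fa9_nt, CG: the full family `E : y² + b y = x³ + a x² + c x`

`W a b c n = ψ_n((0,0))`. In internal files the parameters are called `α β γ` (`= a b c`).
-/

set_option autoImplicit false

namespace MP308.CG

open MP308.CE (Ell Reg EDSZ op J Smooth)

/-- The elliptic divisibility sequence of the point `(0,0)` on `y² + b y = x³ + a x² + c x`. -/
def W (a b c : ℤ) (n : ℤ) : ℤ :=
  normEDS b (a * b ^ 2 - c ^ 2) (-(b ^ 4 + 2 * c * (c ^ 2 - a * b ^ 2))) n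

/-- `T_n`, with `W_{2n} = W_n T_n` (Mathlib: `complEDS₂`), `b T_n = W_{n+2} W_{n-1}² - W_{n-2} W_{n+1}²`. -/
def T (a b c : ℤ) (n : ℤ) : ℤ :=
  complEDS₂ b (a * b ^ 2 - c ^ 2) (-(b ^ 4 + 2 * c * (c ^ 2 - a * b ^ 2))) n

/-- The arithmetic hypotheses on the parameters. -/
structure Par₀ (a b c : ℤ) : Prop where
  hb : b % 2 = 1
  hc : c % 2 = 0
  ha : (c ^ 2 - a * b ^ 2) % 8 = 3
  hbc : IsCoprime b c

/-- The hypotheses on the parameters. -/
structure Par (a b c : ℤ) : Prop extends Par₀ a b c where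
  hF : ∀ t : ℝ, 0 < (t ^ 2 - a) ^ 2 - 4 * (b * t + c)

/-- The local condition at the primes dividing `W_n`, for the index `t`. -/
def Good (a b c t n : ℤ) : Prop := ∀ q : ℕ, q.Prime → q ≠ 2 → (q : ℤ) ∣ W a b c n →
  ¬ (q : ℤ) ∣ W a b c t → IsSquare ((W a b c t : ℤ) : ZMod q)

end MP308.CG
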