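import Mathlib

/-!
# The elliptic net relations for sequences with `W 1 = 1`, `W 2 = b ≠ 0`, in a domain
-/

set_option autoImplicit false

namespace Pool.Agent.Work.MP_308fa9_nt.CG

open IsEllipticNet

variable {R : Type*} [CommRing R]

/-- Odd sequence with `W 1 = 1`, `W 2 = b` and the two doubling recurrences. -/
structure Doubling (b : R) (W : ℤ → R) : Prop where
  odd : W.Odd
  zero : W 0 = 0
  one : W 1 = 1
  two : W 2 = b
  even_rec : ∀ m : ℤ, W (2 * m) * b =
    W m * (W (m + 2) * W (m - 1) ^ 2 - W (m - 2) * W (m + 1) ^ 2)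
  odd_rec : ∀ m : ℤ, W (2 * m + 1) = W (m + 2) * W m ^ 3 - W (m - 1) * W (m + 1) ^ 3

theorem atomRel_plucker [IsDomain R] {W : ℤ → R} {e f a b c d : ℤ} (hef : atom W e f ≠ 0)
    (hab : atomRel W a b e f = 0) (hac : atomRel W a c e f = 0) (had : atomRel W a d e f = 0)
    (hbc : atomRel W b c e f = 0) (hbd : atomRel W b d e f = 0) (hcd : atomRel W c d e f = 0) :
    atomRel W a b c d = 0 := by
  simp only [atomRel] at hab hac had hbc hbd hcd ⊢
  have e1 : atom W a b * atom W e f = atom W a e * atom W b f - atom W a f * atom W b e := by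
    linear_combination hab
  have e2 : atom W a c * atom W e f = atom W a e * atom W c f - atom W a f * atom W c e := by
    linear_combination hac
  have e3 : atom W a d * atom W e f = atom W a e * atom W d f - atom W a f * atom W d e := by
    linear_combination had
  have e4 : atom W b c * atom W e f = atom W b e * atom W c f - atom W b f * atom W c e := by
    linear_combination hbc
  have e5 : atom W b d * atom W e f = atom W b e * atom W d f - atom W b f * atom W d e := by
    linear_combination hbd
  have e6 : atom W c d * atom W e f = atom W c e * atom W d f - atom W c f * atom W d e := by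
    linear_combination hcd
  have key : (atom W a b * atom W c d - atom W a c * atom W b d + atom W a d * atom W b c)
      * atom W e f ^ 2 = 0 := by
    have : (atom W a b * atom W c d - atom W a c * atom W b d + atom W a d * atom W b c)
      * atom W e f ^ 2 = (atom W a b * atom W e f) * (atom W c d * atom W e f)
        - (atom W a c * atom W e f) * (atom W b d * atom W e f)
        + (atom W a d * atom W e f) * (atom W b c * atom W e f) := by ring
    rw [this, e1, e2, e3, e4, e5, e6]
    ring
  exact (mul_eq_zero.mp key).resolve_right (pow_ne_zero 2 hef)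

/-- The base entries: `(2, 0)` for even and `(3, 1)` for odd index. -/
def be (x : ℤ) : ℤ := 2 + x % 2

def bf (x : ℤ) : ℤ := x % 2

theorem be_congr {x y : ℤ} (h : x % 2 = y % 2) : be x = be y := by simp [be, h]

theorem bf_congr {x y : ℤ} (h : x % 2 = y % 2) : bf x = bf y := by simp [bf, h]

theorem atomRel_swap {W : ℤ → R} (hW : W.Odd) (x y e f : ℤ) :
    atomRel W y x e f = - atomRel W x y e f := by
  have h1 := neg_atom hW x y
  simp only [atomRel]
  linear_combination (-atom W e f) * h1

namespace Doubling

variable [IsDomain R] {b : R} {W : ℤ → R} (h : Doubling b W) (hb0 : b ≠ 0)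

include h hb0 in
theorem atom_base (x : ℤ) : atom W (be x) (bf x) ≠ 0 := by
  rcases Int.emod_two_eq_zero_or_one x with hx | hx
  · simp only [be, bf, hx, add_zero]
    have := atom_even W 1 0
    norm_num [h.one] at this
    norm_num [this]
  · simp only [be, bf, hx]
    have := atom_odd W 1 0
    norm_num at this
    norm_num [this, h.one, h.two, hb0]

include h hb0 in
/-- The four-term relation with the base pair. -/
theorem claim (N : ℕ) : ∀ x y : ℤ, x % 2 = y % 2 → |x| ≤ N → |y| ≤ N →
    atomRel W x y (be x) (bf x) = 0 := by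
  induction N using Nat.strong_induction_on with
  | _ N ih =>
    -- reduction to `0 ≤ y ≤ x = N`
    have key : ∀ y : ℤ, (N : ℤ) % 2 = y % 2 → 0 ≤ y → y ≤ N →
        atomRel W (N : ℤ) y (be N) (bf N) = 0 := by
      intro y hpar hy0 hyN
      rcases eq_or_lt_of_le hyN with heq | hlt
      · subst heq
        rw [atomRel_same₁₂, h.zero]
        ring
      have hlt2 : y ≤ N - 2 := by omega
      rcases eq_or_lt_of_le hlt2 with heq | hlt3
      · -- doubling recurrences
        rcases Int.emod_two_eq_zero_or_one (N : ℤ) with hN | hN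
        · obtain ⟨m, hm⟩ : ∃ m : ℤ, (N : ℤ) = 2 * m := ⟨N / 2, by omega⟩
          have hb : be (N : ℤ) = 2 * 1 := by simp [be, hN]
          have hc : bf (N : ℤ) = 2 * 0 := by simp [bf, hN]
          rw [hb, hc, heq, hm, show 2 * m - 2 = 2 * (m - 1) by ring]
          simp only [atomRel, atom_even]
          have := h.odd_rec (m - 1)
          rw [show 2 * (m - 1) + 1 = m + (m - 1) by ring, show m - 1 + 2 = m + 1 by ring,
            show m - 1 - 1 = m - 2 by ring, show m - 1 + 1 = m by ring] at this
          rw [this, show m - (m - 1) = 1 by ring, show (1 : ℤ) + 0 = 1 by ring,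
            show (1 : ℤ) - 0 = 1 by ring, show m - 1 - 0 = m - 1 by ring,
            show m - 1 + 0 = m - 1 by ring, show m + 0 = m by ring, show m - 0 = m by ring,
            show m - 1 + 1 = m by ring, show m - 1 - 1 = m - 2 by ring, h.one]
          ring
        · obtain ⟨m, hm⟩ : ∃ m : ℤ, (N : ℤ) = 2 * m + 1 := ⟨N / 2, by omega⟩
          have hb : be (N : ℤ) = 2 * 1 + 1 := by simp [be, hN]
          have hc : bf (N : ℤ) = 2 * 0 + 1 := by simp [bf, hN]
          rw [hb, hc, heq, hm, show 2 * m + 1 - 2 = 2 * (m - 1) + 1 by ring]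
          simp only [atomRel, atom_odd]
          have := h.even_rec m
          rw [show m + (m - 1) + 1 = 2 * m by ring, show m - (m - 1) = 1 by ring,
            show (1 : ℤ) + 0 + 1 = 2 by ring, show (1 : ℤ) - 0 = 1 by ring,
            show m + 1 + 1 = m + 2 by ring, show m - 1 + 0 + 1 = m by ring,
            show m - 1 - 0 = m - 1 by ring, show m + 0 + 1 = m + 1 by ring,
            show m - 0 = m by ring, show m - 1 + 1 + 1 = m + 1 by ring,
            show m - 1 - 1 = m - 2 by ring, h.one, h.two]
          linear_combination this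
      · -- symmetry of the relator
        have hlt4 : y ≤ N - 4 := by omega
        have hb : be (N : ℤ) = 2 + (N : ℤ) % 2 := rfl
        have hc : bf (N : ℤ) = (N : ℤ) % 2 := rfl
        obtain ⟨s, hs⟩ : ∃ s : ℤ, s = ((N : ℤ) + y + be N + bf N) / 2 := ⟨_, rfl⟩
        rw [← atomRel_avg_sub W (a := N) (b := y) (c := be N) (d := bf N) ⟨by omega, by omega,
          by omega⟩, ← hs]
        have hs2 : 2 * s = (N : ℤ) + y + be N + bf N := by omega
        have hN4 : (4 : ℤ) ≤ N := by omega
        have hM : ((N - 1 : ℕ) : ℤ) = (N : ℤ) - 1 := by omega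
        have big : ∀ u v : ℤ, u % 2 = (s - bf N) % 2 → v % 2 = (s - bf N) % 2 → |u| ≤ N - 1 →
            |v| ≤ N - 1 → atomRel W u v (be (s - bf N)) (bf (s - bf N)) = 0 := by
          intro u v hu hv hu1 hv1
          rw [← be_congr hu, ← bf_congr hu]
          exact ih (N - 1) (by omega) u v (by rw [hu, hv]) (by rw [hM]; exact hu1)
            (by rw [hM]; exact hv1)
        have b1 : |s - bf (N : ℤ)| ≤ N - 1 := abs_le.mpr ⟨by omega, by omega⟩
        have b2 : |s - be (N : ℤ)| ≤ N - 1 := abs_le.mpr ⟨by omega, by omega⟩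
        have b3 : |s - y| ≤ (N : ℤ) - 1 := abs_le.mpr ⟨by omega, by omega⟩
        have b4 : |s - (N : ℤ)| ≤ N - 1 := abs_le.mpr ⟨by omega, by omega⟩
        have p2 : (s - be (N : ℤ)) % 2 = (s - bf N) % 2 := by omega
        have p3 : (s - y) % 2 = (s - bf N) % 2 := by omega
        have p4 : (s - (N : ℤ)) % 2 = (s - bf N) % 2 := by omega
        exact atomRel_plucker (h.atom_base hb0 _) (big _ _ rfl p2 b1 b2) (big _ _ rfl p3 b1 b3)
          (big _ _ rfl p4 b1 b4) (big _ _ p2 p3 b2 b3) (big _ _ p2 p4 b2 b4)
          (big _ _ p3 p4 b3 b4)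
    intro x y hpar hx hy
    -- smaller maximum: use the induction hypothesis
    by_cases hmax : |x| < N ∧ |y| < N
    · rcases Nat.eq_zero_or_pos N with h0 | hpos
      · subst h0
        exact absurd hmax.1 (not_lt.mpr (by simpa using abs_nonneg x))
      exact ih (N - 1) (by omega) x y hpar (by omega) (by omega)
    have hparx : (|x|) % 2 = x % 2 := by
      rcases abs_choice x with h1 | h1 <;> rw [h1] <;> omega
    have hpary : (|y|) % 2 = y % 2 := by
      rcases abs_choice y with h1 | h1 <;> rw [h1] <;> omega
    rw [← atomRel_abs₁ h.odd, ← atomRel_abs₂ h.odd]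
    rcases eq_or_lt_of_le hx with hxe | hxl
    · rw [hxe, be_congr (show x % 2 = (N : ℤ) % 2 by rw [← hxe, hparx]),
        bf_congr (show x % 2 = (N : ℤ) % 2 by rw [← hxe, hparx])]
      exact key |y| (by rw [← hxe, hparx, hpary, hpar]) (abs_nonneg y) hy
    · have hye : |y| = N := by
        rcases eq_or_lt_of_le hy with h1 | h1
        · exact h1
        · exact absurd ⟨hxl, h1⟩ hmax
      have h2 : x % 2 = (N : ℤ) % 2 := by rw [hpar, ← hye, hpary]
      rw [hye, be_congr h2, bf_congr h2, atomRel_swap h.odd, key |x| (by rw [← h2, hparx])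
        (abs_nonneg x) hx, neg_zero]

include h hb0 in
theorem atomRel_zero {a b c d : ℤ} (hab : a % 2 = b % 2) (hac : a % 2 = c % 2)
    (had : a % 2 = d % 2) : atomRel W a b c d = 0 := by
  obtain ⟨N, hN⟩ : ∃ N : ℕ, |a| ≤ N ∧ |b| ≤ N ∧ |c| ≤ N ∧ |d| ≤ N :=
    ⟨(|a| + |b| + |c| + |d|).toNat, by
      have := abs_nonneg a; have := abs_nonneg b; have := abs_nonneg c; have := abs_nonneg d
      omega⟩
  have big : ∀ u v : ℤ, u % 2 = a % 2 → v % 2 = a % 2 → |u| ≤ N → |v| ≤ N →
      atomRel W u v (be a) (bf a) = 0 := by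
    intro u v hu hv hu1 hv1
    rw [← be_congr hu, ← bf_congr hu]
    exact h.claim hb0 N u v (by rw [hu, hv]) hu1 hv1
  exact atomRel_plucker (h.atom_base hb0 a) (big _ _ rfl hab.symm hN.1 hN.2.1)
    (big _ _ rfl hac.symm hN.1 hN.2.2.1) (big _ _ rfl had.symm hN.1 hN.2.2.2)
    (big _ _ hab.symm hac.symm hN.2.1 hN.2.2.1) (big _ _ hab.symm had.symm hN.2.1 hN.2.2.2)
    (big _ _ hac.symm had.symm hN.2.2.1 hN.2.2.2)

include h hb0 in
/-- `W` is an elliptic net. -/
theorem isEllipticNet : IsEllipticNet W := by
  intro p q r s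
  rw [rel_eq]
  exact h.atomRel_zero hb0 (by omega) (by omega) (by omega)

include h hb0 in
/-- The three-index relation. -/
theorem three (p q r : ℤ) : W (p + q) * W (p - q) * W r ^ 2 -
    W (p + r) * W (p - r) * W q ^ 2 + W p ^ 2 * (W (q + r) * W (q - r)) = 0 := by
  have := h.isEllipticNet hb0 p q r 0
  simp only [rel, add_zero] at this
  linear_combination this

include h hb0 in
/-- The elliptic relation. -/
theorem erel (m n : ℤ) : W (m + n) * W (m - n) =
    W (m + 1) * W (m - 1) * W n ^ 2 - W (n + 1) * W (n - 1) * W m ^ 2 := by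
  have := h.three hb0 m n 1
  rw [h.one] at this
  linear_combination this

end Doubling

/-- The normalised sequence satisfies the doubling recurrences. -/
theorem doubling_normEDS (b c d : R) : Doubling b (normEDS b c d) where
  odd n := normEDS_neg b c d n
  zero := normEDS_zero b c d
  one := normEDS_one b c d
  two := normEDS_two b c d
  even_rec m := by
    have := normEDS_even b c d m
    rw [this]
    ring
  odd_rec m := normEDS_odd b c d m

end Pool.Agent.Work.MP_308fa9_nt.CG
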