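import Pool.Agent.Work.MP_308fa9_nt.CG.Defs
import Pool.Agent.Work.MP_308fa9_nt.CG.Coord

/-! # (1.1): the elliptic relation for `W` (and the doubling recurrences) -/

set_option autoImplicit false

namespace MP308.CG

open MP308.CE (Ell Reg EDSZ op J Smooth)

variable (a b c : ℤ)

theorem W_zero : W a b c 0 = 0 := by simp [W]
theorem W_one : W a b c 1 = 1 := by simp [W]
theorem W_two : W a b c 2 = b := by simp [W]
theorem W_three : W a b c 3 = a * b ^ 2 - c ^ 2 := by simp [W]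
theorem W_four : W a b c 4 = -(b ^ 4 + 2 * c * (c ^ 2 - a * b ^ 2)) * b := by simp [W]
theorem W_neg (n : ℤ) : W a b c (-n) = -W a b c n := by simp [W]

theorem W_dbl (m : ℤ) : W a b c (2 * m) = W a b c m * T a b c m := by
  rw [W, W, T, normEDS_mul_complEDS₂]

theorem T_mul_b (m : ℤ) : T a b c m * b
    = W a b c (m + 2) * W a b c (m - 1) ^ 2 - W a b c (m - 2) * W a b c (m + 1) ^ 2 := by
  have := complEDS₂_mul_b b (a * b ^ 2 - c ^ 2) (-(b ^ 4 + 2 * c * (c ^ 2 - a * b ^ 2))) m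
  simp only [W, T]; linear_combination this

theorem W_dbl_add_one (m : ℤ) : W a b c (2 * m + 1)
    = W a b c (m + 2) * W a b c m ^ 3 - W a b c (m - 1) * W a b c (m + 1) ^ 3 :=
  normEDS_odd b (a * b ^ 2 - c ^ 2) (-(b ^ 4 + 2 * c * (c ^ 2 - a * b ^ 2))) m

theorem doubling_W : Pool.Agent.Work.MP_308fa9_nt.CG.Doubling b (W a b c) :=
  Pool.Agent.Work.MP_308fa9_nt.CG.doubling_normEDS b (a * b ^ 2 - c ^ 2)
    (-(b ^ 4 + 2 * c * (c ^ 2 - a * b ^ 2)))

/-- (1.1), for `b ≠ 0` -/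
theorem ell_W (hb : b ≠ 0) : Ell (W a b c) where
  zero := W_zero a b c
  one := W_one a b c
  neg := W_neg a b c
  rel m n := (doubling_W a b c).erel hb m n

/-- even terms are divisible by `b` -/
theorem b_dvd_even (m : ℤ) : b ∣ W a b c (2 * m) := by
  rw [W, normEDS, if_pos (even_two_mul m)]
  exact dvd_mul_left _ _

end MP308.CG
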