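import Pool.Agent.Work.MP_308fa9_nt.CG.NearQ
import Pool.Agent.Work.MP_308fa9_nt.CG.Curve

/-! # Complements: positivity of `F`, smoothness of the plane quartic, the trivial inclusion -/

set_option autoImplicit false

namespace MP308.CG

/-- `F > 0` on `ℝ` for all `b`, `c` and all `a ≤ -(b² + |c| + 2)` -/
theorem F_pos (a b c : ℤ) (ha : b ^ 2 + |c| + 2 ≤ -a) (t : ℝ) :
    0 < (t ^ 2 - a) ^ 2 - 4 * (b * t + c) := by
  have h1 : (b : ℝ) ^ 2 + |(c : ℝ)| + 2 ≤ -a := by exact_mod_cast ha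
  have h2 : (c : ℝ) ≤ |(c : ℝ)| := le_abs_self _
  have h3 : (0 : ℝ) ≤ |(c : ℝ)| := abs_nonneg _
  set A : ℝ := -a with hA
  set C : ℝ := |(c : ℝ)| with hC
  have h4 : (a : ℝ) = -A := by rw [hA]; ring
  rw [h4]
  have h5 : C + 2 ≤ A := by nlinarith [sq_nonneg (b : ℝ)]
  have h6 : (b : ℝ) ^ 2 ≤ A := by linarith
  have h7 : (C + 2) ^ 2 ≤ A ^ 2 := pow_le_pow_left₀ (by linarith) h5 2
  have h8 : (b : ℝ) ^ 2 * t ^ 2 ≤ A * t ^ 2 := mul_le_mul_of_nonneg_right h6 (sq_nonneg t)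
  nlinarith [sq_nonneg (b * t - 1), sq_nonneg (t ^ 2), sq_nonneg C]

/-- For odd `b` the plane quartic `G = w⁴ - (t² - a z²)² + 4 z³ (b t + c z)` is smooth (characteristic 0, all
integers `a`, `c`): the conditions `G = 0`, `∂G/∂w = 0`, `∂G/∂t = 0` have no common solution but `0`. -/
theorem C_smooth (K : Type*) [Field K] [CharZero K] (a b c : ℤ) (hb : Odd b) (t w z : K)
    (h : w ^ 4 = (t ^ 2 - a * z ^ 2) ^ 2 - 4 * z ^ 3 * (b * t + c * z))
    (hw : 4 * w ^ 3 = 0) (ht : 4 * b * z ^ 3 - 4 * t * (t ^ 2 - a * z ^ 2) = 0) :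
    t = 0 ∧ w = 0 ∧ z = 0 := by
  have hw0 : w = 0 := by
    have : w ^ 3 = 0 := by simpa using hw
    exact pow_eq_zero_iff (by norm_num) |>.1 this
  subst hw0
  have ht' : t ^ 3 = a * t * z ^ 2 + b * z ^ 3 := by
    have h4 : (4 : K) ≠ 0 := by norm_num
    have : 4 * (t ^ 3 - (a * t * z ^ 2 + b * z ^ 3)) = 0 := by linear_combination -ht
    rcases mul_eq_zero.1 this with h | h
    · exact absurd h h4
    · linear_combination h
  by_cases hz : z = 0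
  · subst hz
    have : t ^ 3 = 0 := by rw [ht']; ring
    exact ⟨pow_eq_zero_iff (by norm_num) |>.1 this, rfl, rfl⟩
  exfalso
  -- `s = t² - a z²`, `t s = b z³`, `s² = 4 z³ (b t + c z)`
  have e0 : 3 * b ^ 2 * z ^ 2 + 4 * a * b * t * z + 4 * c * t ^ 2 = 0 := by
    have h3 : z ^ 4 * (3 * b ^ 2 * z ^ 2 + 4 * a * b * t * z + 4 * c * t ^ 2) = 0 := by
      have hs : (t * (t ^ 2 - a * z ^ 2)) ^ 2 = b ^ 2 * z ^ 6 := by
        have : t * (t ^ 2 - a * z ^ 2) = b * z ^ 3 := by linear_combination ht'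
        rw [this]; ring
      have h2 : t ^ 2 * (4 * z ^ 3 * (b * t + c * z)) = b ^ 2 * z ^ 6 := by
        rw [← hs]; linear_combination (t ^ 2) * h
      linear_combination h2 - 4 * b * z ^ 3 * ht'
    rcases mul_eq_zero.1 h3 with h | h
    · exact absurd h (pow_ne_zero 4 hz)
    · exact h
  have e1 : 4 * b * c * z ^ 2 + (4 * a * c + 3 * b ^ 2) * t * z + 4 * a * b * t ^ 2 = 0 := by
    have : z * (4 * b * c * z ^ 2 + (4 * a * c + 3 * b ^ 2) * t * z + 4 * a * b * t ^ 2) = 0 := by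
      linear_combination t * e0 - 4 * c * ht'
    rcases mul_eq_zero.1 this with h | h
    · exact absurd h hz
    · exact h
  have e2 : 4 * a * b ^ 2 * z ^ 2 + 4 * b * (a ^ 2 + c) * t * z + (4 * a * c + 3 * b ^ 2) * t ^ 2
      = 0 := by
    have : z * (4 * a * b ^ 2 * z ^ 2 + 4 * b * (a ^ 2 + c) * t * z
        + (4 * a * c + 3 * b ^ 2) * t ^ 2) = 0 := by
      linear_combination t * e1 - 4 * a * b * ht'
    rcases mul_eq_zero.1 this with h | h
    · exact absurd h hz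
    · exact h
  have e3 : (((b ^ 2 * (2 * (-8 * a ^ 2 * c ^ 2 + 8 * a ^ 3 * b ^ 2 + 32 * c ^ 3 - 36 * a * b ^ 2 * c
      + 13 * b ^ 4) + b ^ 4) : ℤ)) : K) * z ^ 2 = 0 := by
    push_cast
    linear_combination ((4 * a * c + 3 * b ^ 2) ^ 2 - 16 * a * b ^ 2 * (a ^ 2 + c) : K) * e0
      + (16 * b * c ^ 2 - 12 * a * b ^ 3 : K) * e1
      + (16 * a ^ 2 * b ^ 2 - 16 * a * c ^ 2 - 12 * b ^ 2 * c : K) * e2
  have hb4 : b ^ 4 % 2 = 1 := Int.odd_iff.1 hb.pow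
  have hb0 : b ≠ 0 := by rintro rfl; exact absurd hb (by decide)
  rcases mul_eq_zero.1 e3 with h | h
  · rw [Int.cast_eq_zero] at h
    rcases mul_eq_zero.1 h with h | h
    · exact pow_ne_zero 2 hb0 h
    · omega
  · exact pow_ne_zero 2 hz h

theorem Near.refl {q : ℕ} [Fact q.Prime] {a b c : ℤ} (k : ℕ) (x y : ℚ_[q])
    (h : (E ℚ_[q] a b c).Nonsingular x y) : Near q a b c k (.some x y h) (.some x y h) := by
  refine ⟨?_, ?_⟩ <;> rw [sub_self, norm_zero] <;> positivity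

open Classical in
/-- the trivial inclusion: `Q₀` itself is in the closure -/
theorem inClosure_of_inf {a b c : ℤ} (hb : Odd b) (P : ∀ (q : ℕ) [Fact q.Prime], CPt ℚ_[q] a b c)
    (h : ∀ (q : ℕ) [Fact q.Prime], ∃ (ε : ℚ_[q]) (hε : ε ^ 4 = 1), P q = .inf ε hε ∧ (ε = 1 ∨ ε = -1)) :
    InClosure a c hb (fun q _ => f hb (P q)) := by
  intro S k
  refine ⟨1, fun q _ _ => ?_⟩
  obtain ⟨ε, hε, h1, h2⟩ := h q
  have h3 : ε ^ 2 = 1 := by rcases h2 with rfl | rfl <;> norm_num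
  have : f hb (P q) = Q₀ ℚ_[q] a c hb := by rw [h1]; simp [f, h3]
  have e : (1 : ℤ) • Q₀ ℚ_[q] a c hb = Q₀ ℚ_[q] a c hb := one_smul _ _
  simp only [this]
  rw [e]
  exact Near.refl k _ _ _

end MP308.CG
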