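import Pool.Agent.Work.MP_308fa9_nt.CG.Curve
import Pool.Agent.Work.MP_308fa9_nt.CG.WReg

/-! # (1.3): the multiples of `Q₀` -/

set_option autoImplicit false

namespace MP308.CG

open Classical WeierstrassCurve.Affine

variable {a b c : ℤ}

/-- numerator of `x(nQ₀)` -/
def X (a b c n : ℤ) : ℤ := -(W a b c (n + 1) * W a b c (n - 1))
/-- numerator of `y(nQ₀)`; `y = Y/(b W³)`, `b ∣ Y` -/
def Y (a b c n : ℤ) : ℤ := W a b c (n + 2) * W a b c (n - 1) ^ 2 - c * W a b c (n - 1) * W a b c n * W a b c (n + 1)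

theorem Par₀.odd (h : Par₀ a b c) : Odd b := Int.odd_iff.2 h.hb

theorem b_dvd_Y (n : ℤ) : b ∣ Y a b c n := by
  rcases Int.even_or_odd' n with ⟨k, rfl | rfl⟩
  · obtain ⟨x, hx⟩ := b_dvd_even a b c k
    obtain ⟨y, hy⟩ := b_dvd_even a b c (k + 1)
    rw [show 2 * (k + 1) = 2 * k + 2 by ring] at hy
    refine ⟨y * W a b c (2 * k - 1) ^ 2 - c * W a b c (2 * k - 1) * x * W a b c (2 * k + 1), ?_⟩
    simp only [Y]
    rw [hx, hy]; ring
  · obtain ⟨x, hx⟩ := b_dvd_even a b c k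
    refine ⟨b * x ^ 2 * W a b c (2 * k + 1 + 2) - c * x * W a b c (2 * k + 1) * W a b c (2 * k + 1 + 1), ?_⟩
    simp only [Y]
    rw [show 2 * k + 1 - 1 = 2 * k by ring, hx]; ring

/-- the image of `W` in a ring -/
theorem doubling_cast {K : Type*} [CommRing K] (a b c : ℤ) :
    Pool.Agent.Work.MP_308fa9_nt.CG.Doubling (b : K) (fun n => ((W a b c n : ℤ) : K)) where
  odd n := by
    change ((W a b c (-n) : ℤ) : K) = -((W a b c n : ℤ) : K)
    rw [W_neg]; push_cast; ring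
  zero := by simp [W_zero]
  one := by simp [W_one]
  two := by simp [W_two]
  even_rec m := by
    have := (doubling_W a b c).even_rec m
    exact_mod_cast congrArg (Int.cast : ℤ → K) this
  odd_rec m := by
    have := (doubling_W a b c).odd_rec m
    exact_mod_cast congrArg (Int.cast : ℤ → K) this

/-- (1.3): the coordinates of `n Q₀` -/
theorem zsmul_Q₀ {K : Type*} [Field K] [CharZero K] (h : Par₀ a b c) (n : ℤ) (hn : n ≠ 0) :
    ∃ hh, n • Q₀ K a c h.odd
      = .some ((X a b c n : K) / (W a b c n : K) ^ 2) ((Y a b c n : K) / (b * (W a b c n : K) ^ 3)) hh := by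
  have hb : (b : K) ≠ 0 := by exact_mod_cast h.b_ne
  have h3 : (fun n => ((W a b c n : ℤ) : K)) 3 = (a : K) * (b : K) ^ 2 - (c : K) ^ 2 := by
    simp only [W_three]; push_cast; ring
  have h4 : (fun n => ((W a b c n : ℤ) : K)) 4
      = -((b : K) * ((b : K) ^ 4 + 2 * (c : K) * ((c : K) ^ 2 - (a : K) * (b : K) ^ 2))) := by
    simp only [W_four]; push_cast; ring
  have hne : ∀ n : ℤ, n ≠ 0 → (fun n => ((W a b c n : ℤ) : K)) n ≠ 0 := fun n hn => by
    simp only
    exact_mod_cast W_ne h n hn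
  obtain ⟨hh, e⟩ := Pool.Agent.Work.MP_308fa9_nt.CG.smul_coord hb (doubling_cast (K := K) a b c)
    (a := (a : K)) (c := (c : K)) h3 h4 hne n hn
  have hX : Pool.Agent.Work.MP_308fa9_nt.CG.Xn (fun n => ((W a b c n : ℤ) : K)) n
      = ((X a b c n : ℤ) : K) := by
    simp only [Pool.Agent.Work.MP_308fa9_nt.CG.Xn, X]; push_cast; ring
  have hY : Pool.Agent.Work.MP_308fa9_nt.CG.Yn (fun n => ((W a b c n : ℤ) : K)) (b : K) (c : K) n
        / ((W a b c n : ℤ) : K) ^ 3
      = ((Y a b c n : ℤ) : K) / ((b : K) * ((W a b c n : ℤ) : K) ^ 3) := by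
    simp only [Pool.Agent.Work.MP_308fa9_nt.CG.Yn, Y]
    rw [div_div]
    push_cast
    ring
  simp only [hX, hY] at hh e
  exact ⟨hh, e⟩

/-- the curve equation for `nQ₀`, as an identity of integers -/
theorem XY_eq (h : Par₀ a b c) (n : ℤ) :
    Y a b c n ^ 2 + b ^ 2 * Y a b c n * W a b c n ^ 3
      = b ^ 2 * (X a b c n ^ 3 + a * X a b c n ^ 2 * W a b c n ^ 2 + c * X a b c n * W a b c n ^ 4) := by
  have hM := M_rel h n
  simp only [X, Y]
  linear_combination W a b c (n - 1) ^ 2 * hM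

/-- `v(mQ₀) = t² - a - 2x = W_{2m-1}/(W_m W_{m-1})²`, `t = (y+b)/x`, in integral form:
`t(mQ₀) = (Y_m + b² W_m³)/(b X_m W_m)` -/
theorem v_eq (h : Par₀ a b c) (m : ℤ) :
    ((Y a b c m + b ^ 2 * W a b c m ^ 3) ^ 2 - b ^ 2 * (a * W a b c m ^ 2 + 2 * X a b c m) * X a b c m ^ 2)
        * W a b c (m - 1) ^ 2 = b ^ 2 * W a b c (2 * m - 1) * X a b c m ^ 2 := by
  have hK := K_rel h m
  have hM := M_rel h (m - 1)
  have hd := W_dbl_add_one a b c (m - 1)
  rw [show 2 * (m - 1) + 1 = 2 * m - 1 by ring, show m - 1 + 2 = m + 1 by ring,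
    show m - 1 - 1 = m - 2 by ring, show m - 1 + 1 = m by ring] at hd
  rw [show m - 1 + 2 = m + 1 by ring, show m - 1 + 1 = m by ring,
    show m - 1 - 1 = m - 2 by ring] at hM
  rw [hd]
  have hYW : Y a b c m + b ^ 2 * W a b c m ^ 3
      = W a b c (m + 1) * (c * W a b c (m - 1) * W a b c m - W a b c (m + 1) * W a b c (m - 2)) := by
    simp only [Y]
    linear_combination hK
  rw [hYW]
  simp only [X]
  linear_combination W a b c (m + 1) ^ 2 * W a b c (m - 1) ^ 2 * hM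

end MP308.CG
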