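import Pool.Agent.Work.MP_308fa9_nt.CG.NearQ
import Pool.Agent.Work.MP_308fa9_nt.CG.Geo
import Pool.Agent.Work.MP_308fa9_nt.CE.LocalT

/-! # Section 3: the local condition at the prime 2 -/

set_option autoImplicit false

namespace MP308.CG

open Classical WeierstrassCurve.Affine

open MP308.CE (localT_sq)

variable {a b c : ℤ}

theorem localT_four (hP : Par₀ a b c) {n : ℤ} (h : (4 : ℤ) ∣ W a b c n) :
    (10 : ℤ) ∣ n := by
  have h1 := W_mod8 hP n
  have hb := hP.hb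
  unfold tab CE.tab at h1
  obtain ⟨r, hr⟩ : ∃ r : ℤ, r = n % 20 := ⟨_, rfl⟩
  rw [← hr] at h1
  have h2 : 0 ≤ r := by omega
  have h3 : r < 20 := by omega
  interval_cases r <;> split_ifs at h1 <;> simp [CE.tab0, CE.tab2] at h1 <;> omega

theorem localT_one (hP : Par₀ a b c) {n : ℤ} (hn : n % 2 = 1)
    (h : W a b c n % 8 = 1) : n % 20 = 1 := by
  have h1 := W_mod8 hP n
  unfold tab CE.tab at h1
  rw [if_neg (by omega)] at h1
  obtain ⟨r, hr⟩ : ∃ r : ℤ, r = n % 20 := ⟨_, rfl⟩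
  rw [← hr] at h1 ⊢
  have h2 : 0 ≤ r := by omega
  have h3 : r < 20 := by omega
  rw [h] at h1
  interval_cases r <;> split_ifs at h1 <;> simp [CE.tab0, CE.tab2] at h1 <;> omega

/-- the value of `v = t² - a - 2x` at `m Q₀` -/
theorem localT_v (hP : Par₀ a b c) (m : ℤ) (hm : m ≠ 0)
    (hx : (X a b c m : ℚ_[2]) / (W a b c m : ℚ_[2]) ^ 2 ≠ 0) :
    (W a b c (2 * m - 1) : ℚ_[2]) =
      (((((Y a b c m : ℚ_[2]) / (b * (W a b c m : ℚ_[2]) ^ 3)) + b) /
        ((X a b c m : ℚ_[2]) / (W a b c m : ℚ_[2]) ^ 2)) ^ 2 - (a : ℚ_[2]) -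
        2 * ((X a b c m : ℚ_[2]) / (W a b c m : ℚ_[2]) ^ 2)) *
        ((W a b c m : ℚ_[2]) * (W a b c (m - 1) : ℚ_[2])) ^ 2 := by
  have hW0 : (W a b c m : ℚ_[2]) ≠ 0 := by exact_mod_cast W_ne hP m hm
  have hb0 : (b : ℚ_[2]) ≠ 0 := by exact_mod_cast hP.b_ne
  have hX0 : (X a b c m : ℚ_[2]) ≠ 0 := by
    intro h
    apply hx
    rw [h, zero_div]
  have hv := congrArg (fun z : ℤ => (z : ℚ_[2])) (v_eq hP m)
  push_cast at hv ⊢
  field_simp
  linear_combination -hv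

/-- (L2) -/
theorem local_two {a b c : ℤ} (hP : Par₀ a b c) (P : CPt ℚ_[2] a b c) :
    ∃ k : ℕ, ∀ m : ℤ, Near 2 a b c k (m • Q₀ ℚ_[2] a c hP.odd) (f hP.odd P) →
      (2 * m - 1) % 20 = 1 := by
  have hfour : ∀ m : ℤ, ¬ (4 : ℤ) ∣ W a b c (2 * m - 1) := by
    intro m h
    have := localT_four hP h
    omega
  cases P with
  | inf ε hε =>
    have hε2 : ε ^ 2 = 1 := by
      have h1 : (ε ^ 2 - 1) * (ε ^ 2 + 1) = 0 := by linear_combination hε
      rcases mul_eq_zero.1 h1 with h2 | h2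
      · linear_combination h2
      · exfalso
        have h3 : (-1 : ℤ) % 8 = 1 := localT_sq (by omega) (z := ε) (u := 1) (by simp)
          (by push_cast; linear_combination -h2)
        omega
    refine ⟨2, fun m hm => ?_⟩
    simp only [f, hε2, if_true] at hm
    rcases eq_or_ne m 0 with rfl | hm0
    · rw [zero_smul] at hm
      exact absurd hm id
    obtain ⟨h, e⟩ := zsmul_Q₀ (K := ℚ_[2]) hP m hm0
    rw [e] at hm
    have hx : ‖(X a b c m : ℚ_[2]) / (W a b c m : ℚ_[2]) ^ 2‖ ≤ ((2 : ℕ) : ℝ) ^ (-(2 : ℕ) : ℤ) := by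
      have := hm.1
      rwa [sub_zero] at this
    have hy : ‖(Y a b c m : ℚ_[2]) / (b * (W a b c m : ℚ_[2]) ^ 3)‖ ≤ ((2 : ℕ) : ℝ) ^ (-(2 : ℕ) : ℤ) := by
      have := hm.2
      rwa [sub_zero] at this
    by_cases h5 : (5 : ℤ) ∣ m
    · exfalso
      have hWn : ‖(W a b c m : ℚ_[2])‖ < 1 := Padic.norm_intCast_lt_one_iff.2 (by
        exact_mod_cast (two_dvd_W_iff hP m).2 h5)
      have hW0 : (W a b c m : ℚ_[2]) ≠ 0 := by exact_mod_cast W_ne hP m hm0
      have hX : ¬ (2 : ℤ) ∣ X a b c m := by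
        simp only [X, dvd_neg]
        intro h2
        rcases Int.prime_two.dvd_or_dvd h2 with h3 | h3
        · rw [two_dvd_W_iff hP] at h3; omega
        · rw [two_dvd_W_iff hP] at h3; omega
      have hXn : ‖(X a b c m : ℚ_[2])‖ = 1 := by
        rcases (Padic.norm_int_le_one (p := 2) (X a b c m)).lt_or_eq with h1 | h1
        · exact absurd ((Padic.norm_intCast_lt_one_iff).mp h1) (by exact_mod_cast hX)
        · exact h1
      rw [norm_div, hXn, norm_pow] at hx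
      have h3 : 0 < ‖(W a b c m : ℚ_[2])‖ := norm_pos_iff.2 hW0
      have h4 : 1 < 1 / ‖(W a b c m : ℚ_[2])‖ ^ 2 :=
        (one_lt_div (by positivity)).2 (pow_lt_one₀ h3.le hWn two_ne_zero)
      norm_num at hx h4
      linarith
    · have hWn : ‖(W a b c m : ℚ_[2])‖ = 1 := by
        rcases (Padic.norm_int_le_one (p := 2) (W a b c m)).lt_or_eq with h1 | h1
        · have h2 := (Padic.norm_intCast_lt_one_iff).mp h1
          exact absurd ((two_dvd_W_iff hP m).1 (by exact_mod_cast h2)) h5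
        · exact h1
      have hbn : ‖(b : ℚ_[2])‖ = 1 := by
        rcases (Padic.norm_int_le_one (p := 2) b).lt_or_eq with h1 | h1
        · have h2 := (Padic.norm_intCast_lt_one_iff).mp h1
          have h3 := hP.hb
          push_cast at h2
          omega
        · exact h1
      rw [norm_div, norm_pow, hWn, one_pow, div_one, Padic.norm_int_le_pow_iff_dvd] at hx
      rw [norm_div, norm_mul, hbn, one_mul, norm_pow, hWn, one_pow, div_one,
        Padic.norm_int_le_pow_iff_dvd] at hy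
      have hx4 : (4 : ℤ) ∣ W a b c (m + 1) * W a b c (m - 1) := by
        have : (4 : ℤ) ∣ X a b c m := by exact_mod_cast hx
        simpa only [X, dvd_neg] using this
      have hy2 : (2 : ℤ) ∣ W a b c (m + 2) * W a b c (m - 1) ^ 2 := by
        have h1 : (4 : ℤ) ∣ Y a b c m := by exact_mod_cast hy
        have h2 : (2 : ℤ) ∣ Y a b c m := Dvd.dvd.trans (by norm_num) h1
        have h3 : (2 : ℤ) ∣ c * W a b c (m - 1) * W a b c m * W a b c (m + 1) :=
          (((Int.dvd_of_emod_eq_zero hP.hc).mul_right _).mul_right _).mul_right _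
        simp only [Y] at h2
        have h4 := dvd_add h2 h3
        rwa [sub_add_cancel] at h4
      have h6 : (5 : ℤ) ∣ m + 2 ∨ (5 : ℤ) ∣ m - 1 := by
        rcases Int.prime_two.dvd_or_dvd hy2 with h3 | h3
        · left; exact (two_dvd_W_iff hP _).1 h3
        · right; exact (two_dvd_W_iff hP _).1 (Int.prime_two.dvd_of_dvd_pow h3)
      have h7 : (5 : ℤ) ∣ m + 1 ∨ (5 : ℤ) ∣ m - 1 := by
        rcases Int.prime_two.dvd_or_dvd (Dvd.dvd.trans (by norm_num) hx4) with h3 | h3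
        · left; exact (two_dvd_W_iff hP _).1 h3
        · right; exact (two_dvd_W_iff hP _).1 h3
      have h8 : (5 : ℤ) ∣ m - 1 := by omega
      have h9 : ¬ (2 : ℤ) ∣ W a b c (m + 1) := by
        rw [two_dvd_W_iff hP]
        omega
      have h10 : (4 : ℤ) ∣ W a b c (m - 1) := by
        have hcop : IsCoprime (4 : ℤ) (W a b c (m + 1)) := by
          have h11 : IsCoprime (2 : ℤ) (W a b c (m + 1)) :=
            (Int.prime_two.coprime_iff_not_dvd).2 h9
          have h12 := h11.pow_left (m := 2)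
          norm_num at h12
          exact h12
        exact hcop.dvd_of_dvd_mul_left hx4
      have h11 := localT_four hP h10
      omega
  | aff t w hw =>
    obtain ⟨x, hxdef⟩ : ∃ x : ℚ_[2], x = (t ^ 2 - (a : ℚ_[2]) - w ^ 2) / 2 := ⟨_, rfl⟩
    have hw2 : w ^ 2 = t ^ 2 - a - 2 * x := by rw [hxdef]; ring
    have hx0 : x ≠ 0 := by
      intro h0
      rw [h0] at hw2
      have h1 : w ^ 4 = (t ^ 2 - a) ^ 2 := by
        rw [show w ^ 4 = (w ^ 2) ^ 2 by ring, hw2]; ring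
      rw [hw] at h1
      have h4 : (4 : ℚ_[2]) ≠ 0 := by norm_num
      have h2 : b * t = -c := by
        apply mul_left_cancel₀ h4
        linear_combination -h1
      have h5 := hP.ha
      have h3 : (c ^ 2 - a * b ^ 2) % 8 = 1 := localT_sq (by omega) (z := b * w) (u := 1) (by simp) (by
        rw [mul_pow, hw2]
        push_cast
        linear_combination -(b * t - c) * h2)
      omega
    obtain ⟨ε, hε, hεw⟩ : ∃ ε : ℝ, 0 < ε ∧ ((w = 0 ∧ ε = 1 / 2) ∨ (w ≠ 0 ∧ ε = ‖w‖ ^ 2 / 8)) := by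
      by_cases h : w = 0
      · exact ⟨1 / 2, by norm_num, Or.inl ⟨h, rfl⟩⟩
      · have : 0 < ‖w‖ := norm_pos_iff.2 h
        exact ⟨‖w‖ ^ 2 / 8, by positivity, Or.inr ⟨h, rfl⟩⟩
    have hcont : ContinuousAt (fun p : ℚ_[2] × ℚ_[2] =>
        ((p.2 + b) / p.1) ^ 2 - a - 2 * p.1)
        (x, t * x - b) := by
      fun_prop (disch := exact hx0)
    obtain ⟨δ, hδ, H⟩ := Metric.continuousAt_iff.1 hcont ε hε
    have hval : ((t * x - b + b) / x) ^ 2 - a - 2 * x = w ^ 2 := by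
      rw [hw2]
      field_simp
      ring
    obtain ⟨k, hk⟩ : ∃ k : ℕ, ((2 : ℕ) : ℝ) ^ (-(k : ℤ)) < min δ ‖x‖ := by
      have h1 : 0 < min δ ‖x‖ := lt_min hδ (norm_pos_iff.2 hx0)
      obtain ⟨k, hk⟩ := exists_pow_lt_of_lt_one h1 (by norm_num : (1 / 2 : ℝ) < 1)
      refine ⟨k, ?_⟩
      rw [zpow_neg, zpow_natCast]
      have : (((2 : ℕ) : ℝ) ^ k)⁻¹ = (1 / 2 : ℝ) ^ k := by
        rw [one_div, inv_pow]
        norm_num
      rw [this]
      exact hk
    refine ⟨k, fun m hm => ?_⟩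
    simp only [f] at hm
    rcases eq_or_ne m 0 with rfl | hm0
    · rw [zero_smul] at hm
      exact absurd hm id
    obtain ⟨h, e⟩ := zsmul_Q₀ (K := ℚ_[2]) hP m hm0
    rw [e] at hm
    have hm1 : ‖(X a b c m : ℚ_[2]) / (W a b c m : ℚ_[2]) ^ 2 -
        (t ^ 2 - (a : ℚ_[2]) - w ^ 2) / 2‖ ≤ ((2 : ℕ) : ℝ) ^ (-(k : ℤ)) := hm.1
    have hm2 : ‖(Y a b c m : ℚ_[2]) / (b * (W a b c m : ℚ_[2]) ^ 3) -
        (t * ((t ^ 2 - (a : ℚ_[2]) - w ^ 2) / 2) - b)‖ ≤
          ((2 : ℕ) : ℝ) ^ (-(k : ℤ)) := hm.2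
    rw [← hxdef] at hm1 hm2
    have hv := localT_v hP m hm0
    obtain ⟨xm, hxm⟩ : ∃ z : ℚ_[2], z = (X a b c m : ℚ_[2]) / (W a b c m : ℚ_[2]) ^ 2 := ⟨_, rfl⟩
    obtain ⟨ym, hym⟩ : ∃ z : ℚ_[2], z = (Y a b c m : ℚ_[2]) / (b * (W a b c m : ℚ_[2]) ^ 3) := ⟨_, rfl⟩
    rw [← hxm] at hm1
    rw [← hym] at hm2
    rw [← hxm, ← hym] at hv
    have hxm0 : xm ≠ 0 := by
      rintro rfl
      rw [zero_sub, norm_neg] at hm1
      have := hk.trans_le (min_le_right _ _)
      linarith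
    have hd : dist (xm, ym) (x, t * x - b) < δ := by
      rw [Prod.dist_eq, max_lt_iff, dist_eq_norm, dist_eq_norm]
      have := hk.trans_le (min_le_left _ _)
      exact ⟨hm1.trans_lt this, hm2.trans_lt this⟩
    have hH := H hd
    simp only at hH
    rw [hval, dist_eq_norm] at hH
    have hv' := hv hxm0
    obtain ⟨v, hvdef⟩ : ∃ v : ℚ_[2], v = ((ym + b) / xm) ^ 2 - a - 2 * xm := ⟨_, rfl⟩
    rw [← hvdef] at hH hv'
    rcases hεw with ⟨hw0, hε1⟩ | ⟨hw0, hε1⟩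
    · exfalso
      rw [hw0, hε1] at hH
      have h1 : ‖v‖ < 1 / 2 := by simpa using hH
      apply hfour m
      have h2 : ‖(W a b c (2 * m - 1) : ℚ_[2])‖ < 1 / 2 := by
        rw [hv', norm_mul, norm_pow, norm_mul]
        have h3 : ‖(W a b c m : ℚ_[2])‖ ≤ 1 := Padic.norm_int_le_one _
        have h4 : ‖(W a b c (m - 1) : ℚ_[2])‖ ≤ 1 := Padic.norm_int_le_one _
        have h5 : (‖(W a b c m : ℚ_[2])‖ * ‖(W a b c (m - 1) : ℚ_[2])‖) ^ 2 ≤ 1 :=
          pow_le_one₀ (by positivity) (mul_le_one₀ h3 (norm_nonneg _) h4)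
        calc ‖v‖ * (‖(W a b c m : ℚ_[2])‖ * ‖(W a b c (m - 1) : ℚ_[2])‖) ^ 2 ≤ ‖v‖ * 1 :=
              mul_le_mul_of_nonneg_left h5 (norm_nonneg _)
          _ < 1 / 2 := by rw [mul_one]; exact h1
      have h3 : ‖(W a b c (2 * m - 1) : ℚ_[2])‖ ≤ ((2 : ℕ) : ℝ) ^ (-(2 : ℕ) : ℤ) := by
        rw [Padic.norm_le_pow_iff_norm_lt_pow_add_one]
        norm_num
        norm_num at h2
        exact h2
      rw [Padic.norm_int_le_pow_iff_dvd] at h3
      exact_mod_cast h3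
    · have hwn : 0 < ‖w‖ := norm_pos_iff.2 hw0
      have h1 : ‖v / w ^ 2 - 1‖ ≤ 1 / 8 := by
        have h2 : v / w ^ 2 - 1 = (v - w ^ 2) / w ^ 2 := by field_simp
        rw [h2, norm_div, norm_pow, div_le_iff₀ (by positivity)]
        rw [hε1] at hH
        linarith
      have h2 : W a b c (2 * m - 1) % 8 = 1 := by
        refine localT_sq (hfour m) (z := w * ((W a b c m : ℚ_[2]) * (W a b c (m - 1) : ℚ_[2]))) h1 ?_
        rw [hv']
        field_simp
      exact localT_one hP (by omega) h2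

end MP308.CG
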