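import Pool.Agent.Work.MP_308fa9_nt.CG.LocalO
import Pool.Agent.Work.MP_308fa9_nt.CG.LocalT

/-! # Section 3: the local conditions

`local_two` is in `LocalT`, `local_odd` in `LocalO`. -/
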