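import Pool.Agent.Work.MP_308fa9_nt.CG.NearQ
import Pool.Agent.Work.MP_308fa9_nt.CG.Geo

/-! # Section 3: `Near.mono`, the limit, and the fibre of `f` over `Q₀` -/

set_option autoImplicit false

namespace MP308.CG

open Classical WeierstrassCurve.Affine

variable {a b c : ℤ}

theorem Near.mono {q : ℕ} [Fact q.Prime] {k k' : ℕ} (hk : k ≤ k')
    {R S : (E ℚ_[q] a b c).Point} (h : Near q a b c k' R S) : Near q a b c k R S := by
  have hq : (1 : ℝ) ≤ q := by exact_mod_cast (Fact.out : q.Prime).one_lt.le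
  have hq0 : (0 : ℝ) < q := by linarith
  have hpow : (q : ℝ) ^ (-(k' : ℤ)) ≤ (q : ℝ) ^ (-(k : ℤ)) :=
    zpow_le_zpow_right₀ hq (by omega)
  cases R with
  | zero =>
    cases S with
    | zero => trivial
    | some x' y' h' => exact h
  | some x y h1 =>
    cases S with
    | zero =>
      have h2 : (q : ℝ) ^ k' ≤ ‖x‖ := h
      exact (pow_le_pow_right₀ hq hk).trans h2
    | some x' y' h' =>
      have h2 : ‖x - x'‖ ≤ (q : ℝ) ^ (-(k' : ℤ)) ∧ ‖y - y'‖ ≤ (q : ℝ) ^ (-(k' : ℤ)) := h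
      exact ⟨h2.1.trans hpow, h2.2.trans hpow⟩

/-- the coordinates of `m Q₀` are small when a high power of `q` divides `W_{m-1}` -/
theorem localB_small (h : Par₀ a b c) (q : ℕ) [Fact q.Prime] (v : ℕ)
    (hv : (q : ℝ) ^ (-(v : ℤ)) ≤ ‖((b : ℤ) : ℚ_[q])‖)
    (k : ℕ) (hk : 1 ≤ k) (m : ℤ) (hm : m ≠ 0) (hdvd : (q : ℤ) ^ (k + v) ∣ W a b c (m - 1)) :
    ∃ (x y : ℚ_[q]) (hh : (E ℚ_[q] a b c).Nonsingular x y),
      m • Q₀ ℚ_[q] a c h.odd = .some x y hh ∧ ‖x‖ ≤ (q : ℝ) ^ (-(k : ℤ)) ∧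
        ‖y‖ ≤ (q : ℝ) ^ (-(k : ℤ)) := by
  obtain ⟨hh, e⟩ := zsmul_Q₀ (K := ℚ_[q]) h m hm
  have hq0 : (0 : ℝ) < q := by exact_mod_cast (Fact.out : q.Prime).pos
  have hqk : (q : ℤ) ^ k ∣ W a b c (m - 1) := (pow_dvd_pow _ (Nat.le_add_right k v)).trans hdvd
  have hq1 : (q : ℤ) ∣ W a b c (m - 1) := (dvd_pow_self _ (by omega)).trans hdvd
  have hcop : IsCoprime (W a b c m) (W a b c (m - 1)) :=
    cop_W h m (m - 1) ⟨1, -1, by ring⟩
  have hnd : ¬ (q : ℤ) ∣ W a b c m := by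
    intro h1
    have h2 := hcop.isUnit_of_dvd' h1 hq1
    have h3 := Int.isUnit_iff.mp h2
    have h4 := (Fact.out : q.Prime).two_le
    omega
  have hW : ‖((W a b c m : ℤ) : ℚ_[q])‖ = 1 := by
    rcases (Padic.norm_int_le_one (p := q) (W a b c m)).lt_or_eq with h1 | h1
    · exact absurd ((Padic.norm_intCast_lt_one_iff).mp h1) hnd
    · exact h1
  refine ⟨_, _, hh, e, ?_, ?_⟩
  · rw [norm_div, norm_pow, hW, one_pow, div_one]
    rw [Padic.norm_int_le_pow_iff_dvd]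
    simp only [X]
    exact (hqk.mul_left _).neg_right
  · rw [norm_div, norm_mul, norm_pow, hW, one_pow, mul_one]
    have h1 : ‖((Y a b c m : ℤ) : ℚ_[q])‖ ≤ (q : ℝ) ^ (-((k + v : ℕ) : ℤ)) := by
      rw [Padic.norm_int_le_pow_iff_dvd]
      simp only [Y]
      apply dvd_sub
      · exact (hdvd.trans (dvd_pow_self _ two_ne_zero)).mul_left _
      · rw [show c * W a b c (m - 1) * W a b c m * W a b c (m + 1)
          = W a b c (m - 1) * (c * W a b c m * W a b c (m + 1)) by ring]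
        exact hdvd.mul_right _
    have hv0 : (0 : ℝ) < (q : ℝ) ^ (-(v : ℤ)) := zpow_pos hq0 _
    calc ‖((Y a b c m : ℤ) : ℚ_[q])‖ / ‖((b : ℤ) : ℚ_[q])‖
        ≤ (q : ℝ) ^ (-((k + v : ℕ) : ℤ)) / (q : ℝ) ^ (-(v : ℤ)) :=
          div_le_div₀ (zpow_nonneg hq0.le _) h1 hv0 hv
      _ = (q : ℝ) ^ (-(k : ℤ)) := by
          rw [← zpow_sub₀ hq0.ne']
          congr 1
          push_cast
          ring

theorem localB_zpow_tendsto (q : ℕ) [Fact q.Prime] {r : ℝ}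
    (h : ∀ k : ℕ, 1 ≤ k → r ≤ (q : ℝ) ^ (-(k : ℤ))) : r ≤ 0 := by
  by_contra hr
  push Not at hr
  have hq : (1 : ℝ) < q := by exact_mod_cast (Fact.out : q.Prime).one_lt
  obtain ⟨n, hn⟩ := exists_pow_lt_of_lt_one hr (inv_lt_one_of_one_lt₀ hq)
  have h1 := h (n + 1) (by omega)
  have h2 : (q : ℝ) ^ (-((n + 1 : ℕ) : ℤ)) ≤ ((q : ℝ)⁻¹) ^ n := by
    rw [zpow_neg, zpow_natCast, ← inv_pow]
    exact pow_le_pow_of_le_one (by positivity) (inv_lt_one_of_one_lt₀ hq).le (by omega)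
  linarith

/-- the limit of `m_N Q₀` with `m_N ≡ 1` modulo everything is `Q₀` -/
theorem limit_eq (h : Par₀ a b c) (q : ℕ) [Fact q.Prime]
    (R : (E ℚ_[q] a b c).Point) (m : ℕ → ℤ)
    (hm : ∀ k, ∀ᶠ N in Filter.atTop, Near q a b c k (m N • Q₀ ℚ_[q] a c h.odd) R)
    (h1 : ∀ M : ℤ, M ≠ 0 → ∀ᶠ N in Filter.atTop, M ∣ m N - 1) : R = Q₀ ℚ_[q] a c h.odd := by
  have hq : (1 : ℝ) < q := by exact_mod_cast (Fact.out : q.Prime).one_lt
  obtain ⟨v, hv⟩ : ∃ v : ℕ, (q : ℝ) ^ (-(v : ℤ)) ≤ ‖((b : ℤ) : ℚ_[q])‖ := by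
    have hb : (0 : ℝ) < ‖((b : ℤ) : ℚ_[q])‖ := norm_pos_iff.2 (by exact_mod_cast h.b_ne)
    obtain ⟨n, hn⟩ := exists_pow_lt_of_lt_one hb (inv_lt_one_of_one_lt₀ hq)
    refine ⟨n, ?_⟩
    rw [zpow_neg, zpow_natCast, ← inv_pow]
    exact hn.le
  have key : ∀ k : ℕ, 1 ≤ k → ∃ (x y : ℚ_[q]) (hh : (E ℚ_[q] a b c).Nonsingular x y),
      Near q a b c k (.some x y hh) R ∧ ‖x‖ ≤ (q : ℝ) ^ (-(k : ℤ)) ∧
        ‖y‖ ≤ (q : ℝ) ^ (-(k : ℤ)) := by
    intro k hk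
    obtain ⟨n, hn, hdvd⟩ := exists_pow_dvd h q (Fact.out : q.Prime) (k + v)
    obtain ⟨N, hN1, hN2, hN3⟩ := ((hm k).and ((h1 n hn).and (h1 2 two_ne_zero))).exists
    have hm0 : m N ≠ 0 := by omega
    have hd : (q : ℤ) ^ (k + v) ∣ W a b c (m N - 1) := hdvd.trans (dvd_W h _ _ hN2)
    obtain ⟨x, y, hh, e, hx, hy⟩ := localB_small h q v hv k hk (m N) hm0 hd
    rw [e] at hN1
    exact ⟨x, y, hh, hN1, hx, hy⟩
  cases R with
  | zero =>
    exfalso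
    obtain ⟨x, y, hh, h2, h3, -⟩ := key 1 le_rfl
    have h4 : (q : ℝ) ^ 1 ≤ ‖x‖ := h2
    have h5 : (q : ℝ) ^ (-((1 : ℕ) : ℤ)) < 1 := by
      rw [zpow_neg]
      simpa using inv_lt_one_of_one_lt₀ hq
    rw [pow_one] at h4
    linarith
  | some x' y' h' =>
    have hx' : x' = 0 := by
      rw [← norm_le_zero_iff]
      apply localB_zpow_tendsto q
      intro k hk
      obtain ⟨x, y, hh, h2, h3, h4⟩ := key k hk
      have h5 : ‖x - x'‖ ≤ (q : ℝ) ^ (-(k : ℤ)) := h2.1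
      have h6 : x' = x - (x - x') := by ring
      rw [h6]
      have h7 := Padic.nonarchimedean x (-(x - x'))
      rw [norm_neg, ← sub_eq_add_neg] at h7
      exact h7.trans (max_le h3 h5)
    have hy' : y' = 0 := by
      rw [← norm_le_zero_iff]
      apply localB_zpow_tendsto q
      intro k hk
      obtain ⟨x, y, hh, h2, h3, h4⟩ := key k hk
      have h5 : ‖y - y'‖ ≤ (q : ℝ) ^ (-(k : ℤ)) := h2.2
      have h6 : y' = y - (y - y') := by ring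
      rw [h6]
      have h7 := Padic.nonarchimedean y (-(y - y'))
      rw [norm_neg, ← sub_eq_add_neg] at h7
      exact h7.trans (max_le h4 h5)
    subst hx' hy'
    rfl

/-- `f P = Q₀` only for the points `[1 : ±1 : 0]` -/
theorem eq_inf_of_f {K : Type*} [Field K] [CharZero K] (hb : Odd b) (P : CPt K a b c)
    (h : f hb P = Q₀ K a c hb) : ∃ (ε : K) (hε : ε ^ 4 = 1), P = .inf ε hε ∧ (ε = 1 ∨ ε = -1) := by
  have hb0 : (b : K) ≠ 0 := by
    have : b ≠ 0 := by rintro rfl; exact absurd hb (by decide)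
    exact_mod_cast this
  cases P with
  | aff t w hw =>
    exfalso
    simp only [f, Q₀] at h
    injection h with h1 h2
    rw [h1] at h2
    apply hb0
    linear_combination -h2
  | inf ε hε =>
    refine ⟨ε, hε, rfl, ?_⟩
    by_cases h2 : ε ^ 2 = 1
    · exact sq_eq_one_iff.mp h2
    · exfalso
      simp only [f, h2, if_false, Q₀] at h
      exact (Point.some_ne_zero _) h.symm

end MP308.CG
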