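import Pool.Agent.Work.MP_308fa9_nt.CG.ERel

/-!
# The K-relation and the M-relation for `y² + b y = x³ + a x² + c x`, `P = (0, 0)`
-/

set_option autoImplicit false

namespace Pool.Agent.Work.MP_308fa9_nt.CG

variable {R : Type*} [CommRing R]

namespace Doubling

variable [IsDomain R] {b : R} {W : ℤ → R} (h : Doubling b W) (hb : b ≠ 0)

include h hb in
/-- The elliptic relation with shift two. -/
theorem erel_two (n : ℤ) :
    W (n + 2) * W (n - 2) = b ^ 2 * (W (n + 1) * W (n - 1)) - W 3 * W n ^ 2 := by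
  have := h.erel hb n 2
  rw [show (2 : ℤ) + 1 = 3 by norm_num, show (2 : ℤ) - 1 = 1 by norm_num, h.one, h.two] at this
  rw [this]
  ring

/-- The relator `K`. -/
def K (W : ℤ → R) (b c : R) (n : ℤ) : R :=
  W (n + 2) * W (n - 1) ^ 2 + W (n - 2) * W (n + 1) ^ 2 + b ^ 2 * W n ^ 3
    - 2 * c * W (n - 1) * W n * W (n + 1)

include h hb in
theorem K_step (c : R) (n : ℤ) :
    K W b c (n + 1) * W (n - 1) = K W b c n * W (n + 2) := by
  have e1 := h.erel_two hb (n + 1)
  have e2 := h.erel_two hb n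
  rw [show n + 1 + 2 = n + 3 by ring, show n + 1 - 2 = n - 1 by ring,
    show n + 1 + 1 = n + 2 by ring, show n + 1 - 1 = n by ring] at e1
  simp only [K]
  rw [show n + 1 + 2 = n + 3 by ring, show n + 1 - 2 = n - 1 by ring,
    show n + 1 + 1 = n + 2 by ring, show n + 1 - 1 = n by ring]
  linear_combination W n ^ 2 * e1 - W (n + 1) ^ 2 * e2

omit [IsDomain R] in
include h in
theorem K_neg (c : R) (n : ℤ) : K W b c (-n) = - K W b c n := by
  simp only [K]
  rw [show -n + 2 = -(n - 2) by ring, show -n - 1 = -(n + 1) by ring,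
    show -n - 2 = -(n + 2) by ring, show -n + 1 = -(n - 1) by ring,
    h.odd (n - 2), h.odd (n + 1), h.odd (n + 2), h.odd (n - 1), h.odd n]
  ring

include h hb in
/-- The K-relation. -/
theorem K_zero {a : R} (c : R) (h3 : W 3 = a * b ^ 2 - c ^ 2)
    (h4 : W 4 = -(b * (b ^ 4 + 2 * c * (c ^ 2 - a * b ^ 2))))
    (hne : ∀ n : ℤ, n ≠ 0 → W n ≠ 0) (n : ℤ) : K W b c n = 0 := by
  have hm1 : W (-1) = -1 := by rw [h.odd 1, h.one]
  have hm2 : W (-2) = -b := by rw [h.odd 2, h.two]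
  have k0 : K W b c 0 = 0 := by
    simp only [K]
    norm_num [h.zero, h.one, h.two, hm1, hm2]
  have k1 : K W b c 1 = 0 := by
    simp only [K]
    norm_num [h.zero, h.one, h.two, hm1, hm2, h3]
  have k2 : K W b c 2 = 0 := by
    simp only [K]
    norm_num [h.zero, h.one, h.two, hm1, hm2, h3, h4]
    ring
  have pos : ∀ m : ℕ, K W b c ((m : ℤ) + 2) = 0 := by
    intro m
    induction m with
    | zero => simpa using k2
    | succ m ih =>
      have e := h.K_step hb c ((m : ℤ) + 2)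
      rw [ih, zero_mul, mul_eq_zero] at e
      rcases e with e | e
      · push_cast
        rw [show (m : ℤ) + 1 + 2 = (m : ℤ) + 2 + 1 by ring]
        exact e
      · exact absurd e (hne _ (by omega))
  have nonneg : ∀ k : ℕ, K W b c (k : ℤ) = 0 := by
    intro k
    rcases k with _ | _ | m
    · simpa using k0
    · simpa using k1
    · have := pos m
      push_cast
      rw [show (m : ℤ) + 1 + 1 = (m : ℤ) + 2 by ring]
      exact this
  obtain ⟨k, rfl | rfl⟩ := n.eq_nat_or_neg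
  · exact nonneg k
  · rw [h.K_neg, nonneg, neg_zero]

include h hb in
/-- The K-relation, spelled out. -/
theorem K_rel {a : R} (c : R) (h3 : W 3 = a * b ^ 2 - c ^ 2)
    (h4 : W 4 = -(b * (b ^ 4 + 2 * c * (c ^ 2 - a * b ^ 2))))
    (hne : ∀ n : ℤ, n ≠ 0 → W n ≠ 0) (n : ℤ) :
    W (n + 2) * W (n - 1) ^ 2 + W (n - 2) * W (n + 1) ^ 2 + b ^ 2 * W n ^ 3 =
      2 * c * W (n - 1) * W n * W (n + 1) := by
  have := h.K_zero hb c h3 h4 hne n
  rw [K, sub_eq_zero] at this
  exact this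

include h hb in
/-- The M-relation. -/
theorem M_rel {a c : R} (h3 : W 3 = a * b ^ 2 - c ^ 2)
    (h4 : W 4 = -(b * (b ^ 4 + 2 * c * (c ^ 2 - a * b ^ 2))))
    (hne : ∀ n : ℤ, n ≠ 0 → W n ≠ 0) (n : ℤ) :
    b ^ 2 * (W (n + 2) * W n ^ 3 + W (n + 1) ^ 3 * W (n - 1))
      + (c * W n * W (n + 1) - W (n + 2) * W (n - 1)) ^ 2
      = a * b ^ 2 * W n ^ 2 * W (n + 1) ^ 2 := by
  have hK := h.K_zero hb c h3 h4 hne n
  have e2 := h.erel_two hb n
  rw [h3] at e2
  simp only [K] at hK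
  linear_combination W (n + 2) * hK - W (n + 1) ^ 2 * e2

end Doubling

end Pool.Agent.Work.MP_308fa9_nt.CG
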