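import Pool.Agent.Work.MP_308fa9_nt.CG.Res8

/-! # (1.3): the K- and M-relations -/

set_option autoImplicit false

namespace MP308.CG

open MP308.CE (Ell Reg EDSZ op J Smooth)

variable {a b c : ℤ}

private theorem W_three' : W a b c 3 = a * b ^ 2 - c ^ 2 := W_three a b c

private theorem W_four' : W a b c 4 = -(b * (b ^ 4 + 2 * c * (c ^ 2 - a * b ^ 2))) := by
  rw [W_four]; ring

theorem K_rel (h : Par₀ a b c) (n : ℤ) :
    W a b c (n + 2) * W a b c (n - 1) ^ 2 + W a b c (n - 2) * W a b c (n + 1) ^ 2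
      + b ^ 2 * W a b c n ^ 3 = 2 * c * W a b c (n - 1) * W a b c n * W a b c (n + 1) :=
  (doubling_W a b c).K_rel h.b_ne c (a := a) W_three' W_four' (W_ne h) n

theorem M_rel (h : Par₀ a b c) (n : ℤ) :
    b ^ 2 * (W a b c (n + 2) * W a b c n ^ 3 + W a b c (n + 1) ^ 3 * W a b c (n - 1))
      + (c * W a b c n * W a b c (n + 1) - W a b c (n + 2) * W a b c (n - 1)) ^ 2
      = a * b ^ 2 * W a b c n ^ 2 * W a b c (n + 1) ^ 2 :=
  (doubling_W a b c).M_rel h.b_ne W_three' W_four' (W_ne h) n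

theorem T_eq (h : Par₀ a b c) (n : ℤ) :
    b * T a b c n = 2 * W a b c (n + 2) * W a b c (n - 1) ^ 2 + b ^ 2 * W a b c n ^ 3
      - 2 * c * W a b c (n - 1) * W a b c n * W a b c (n + 1) := by
  have := K_rel h n
  have h2 := T_mul_b a b c n
  linear_combination h2 - this

end MP308.CG
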