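import Pool.Agent.Work.MP_308fa9_nt.CG.Curve

/-! # Closeness in `E(ℚ_q)` (the version over `ℚ`; the number field version is in CN/NearL) -/

set_option autoImplicit false

namespace MP308.CG

open WeierstrassCurve.Affine

/-- `R` is `q^k`-close to `S` in `E(ℚ_q)`. For fixed `S` these sets (`k = 0, 1, 2, ...`) are a basis of
neighbourhoods of `S` in the `q`-adic topology of `E(ℚ_q)`: for an affine point `S` both coordinates of `R`
are close to those of `S`; close to `O` are `O` and the points with large `x`-coordinate. -/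
def Near (q : ℕ) [Fact q.Prime] (a b c : ℤ) (k : ℕ) : (E ℚ_[q] a b c).Point → (E ℚ_[q] a b c).Point → Prop
  | .zero, .zero => True
  | .zero, .some _ _ _ => False
  | .some x _ _, .zero => (q : ℝ) ^ k ≤ ‖x‖
  | .some x y _, .some x' y' _ => ‖x - x'‖ ≤ (q : ℝ) ^ (-(k : ℤ)) ∧ ‖y - y'‖ ≤ (q : ℝ) ^ (-(k : ℤ))

open Classical in
/-- `(R_q)_q` lies in the closure of `ℤ·Q₀` in `∏_q E(ℚ_q)` (product topology) -/
def InClosure (a c : ℤ) {b : ℤ} (hb : Odd b) (R : ∀ (q : ℕ) [Fact q.Prime], (E ℚ_[q] a b c).Point) : Prop :=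
  ∀ (S : Finset ℕ) (k : ℕ), ∃ m : ℤ, ∀ (q : ℕ) [Fact q.Prime], q ∈ S →
    Near q a b c k (m • Q₀ ℚ_[q] a c hb) (R q)

end MP308.CG
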