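import Pool.Agent.Work.MP_308fa9_nt.CG.EllW
import Pool.Agent.Work.MP_308fa9_nt.CE.Res8

/-! # (1.2): 2-adic information on `W` (the table is `MP308.CE.tab`, even entries times `b`) -/

set_option autoImplicit false

namespace MP308.CG

open MP308.CE (Ell Reg EDSZ op J Smooth Res8_tb Res8_T Res8_tab_eq)

/-- `W_n mod 8` -/
def tab (b c n : ℤ) : ℤ := if n % 2 = 0 then (b * CE.tab c n) % 8 else CE.tab c n

/-- the factor `b` of the even entries -/
def Res8_g (b n : ℤ) : ℤ := if n % 2 = 0 then b else 1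

lemma Res8_g_even (b : ℤ) {n : ℤ} (h : n % 2 = 0) : Res8_g b n = b := if_pos h

lemma Res8_g_odd (b : ℤ) {n : ℤ} (h : n % 2 = 1) : Res8_g b n = 1 := if_neg (by omega)

lemma Res8_of_eq {x y : ℤ} (h : x = y) : x ≡ y [ZMOD 8] := by rw [h]

lemma Res8_sq {b : ℤ} (hb : b % 2 = 1) : b * b ≡ 1 [ZMOD 8] := by
  have h : b % 8 = 1 ∨ b % 8 = 3 ∨ b % 8 = 5 ∨ b % 8 = 7 := by omega
  rcases h with h | h | h | h <;> simp [Int.ModEq, Int.mul_emod, h]

variable {a b c : ℤ}

/-- `T_m mod 8` from the table -/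
lemma Res8_Taux (hb : b % 2 = 1) {B : Bool} {m : ℤ}
    (h1 : W a b c (m + 2) ≡ Res8_g b (m + 2) * Res8_tb B (m + 2) [ZMOD 8])
    (h2 : W a b c (m - 1) ≡ Res8_g b (m - 1) * Res8_tb B (m - 1) [ZMOD 8])
    (h3 : W a b c (m - 2) ≡ Res8_g b (m - 2) * Res8_tb B (m - 2) [ZMOD 8])
    (h4 : W a b c (m + 1) ≡ Res8_g b (m + 1) * Res8_tb B (m + 1) [ZMOD 8]) :
    T a b c m ≡ Res8_g b (m + 1) * Res8_T B m [ZMOD 8] := by
  have hsq := Res8_sq hb
  have h5 : T a b c m ≡ b * (T a b c m * b) [ZMOD 8] := by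
    have := (Int.ModEq.mul_left (T a b c m) hsq).symm
    rw [mul_one] at this
    refine this.trans (Res8_of_eq ?_)
    ring
  refine h5.trans ?_
  rw [T_mul_b]
  have h6 : b * (W a b c (m + 2) * W a b c (m - 1) ^ 2 - W a b c (m - 2) * W a b c (m + 1) ^ 2) ≡
      b * (Res8_g b (m + 2) * Res8_tb B (m + 2) * (Res8_g b (m - 1) * Res8_tb B (m - 1)) ^ 2 -
        Res8_g b (m - 2) * Res8_tb B (m - 2) * (Res8_g b (m + 1) * Res8_tb B (m + 1)) ^ 2)
        [ZMOD 8] :=
    Int.ModEq.mul_left b (Int.ModEq.sub (Int.ModEq.mul h1 (h2.pow 2)) (Int.ModEq.mul h3 (h4.pow 2)))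
  refine h6.trans ?_
  rcases Int.emod_two_eq_zero_or_one m with hm | hm
  · rw [Res8_g_even b (n := m + 2) (by omega), Res8_g_odd b (n := m - 1) (by omega),
      Res8_g_even b (n := m - 2) (by omega), Res8_g_odd b (n := m + 1) (by omega)]
    have := Int.ModEq.mul_right (Res8_T B m) hsq
    refine Int.ModEq.trans (Res8_of_eq ?_) this
    unfold Res8_T
    ring
  · rw [Res8_g_odd b (n := m + 2) (by omega), Res8_g_even b (n := m - 1) (by omega),
      Res8_g_odd b (n := m - 2) (by omega), Res8_g_even b (n := m + 1) (by omega)]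
    have h7 : b * b * b ≡ b [ZMOD 8] := by
      have := Int.ModEq.mul_right b hsq
      rwa [one_mul] at this
    have := Int.ModEq.mul_right (Res8_T B m) h7
    refine Int.ModEq.trans (Res8_of_eq ?_) this
    unfold Res8_T
    ring

lemma Res8_base (h : Par₀ a b c) (n : ℕ) (hn : n < 5) :
    W a b c n ≡ Res8_g b n * Res8_tb (decide (c % 4 = 0)) n [ZMOD 8] := by
  have hb := h.hb
  have hc := h.hc
  have ha := h.ha
  have hsq := Res8_sq hb
  interval_cases n
  · simp only [Nat.cast_zero, W_zero]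
    have : Res8_tb (decide (c % 4 = 0)) 0 = 0 := by
      rw [← Res8_tab_eq]; unfold CE.tab; split_ifs <;> rfl
    rw [this, mul_zero]
  · simp only [Nat.cast_one, W_one]
    have : Res8_tb (decide (c % 4 = 0)) 1 = 1 := by
      rw [← Res8_tab_eq]; unfold CE.tab; split_ifs <;> rfl
    rw [this, Res8_g_odd b (by norm_num), mul_one]
  · simp only [Nat.cast_ofNat, W_two]
    have : Res8_tb (decide (c % 4 = 0)) 2 = 1 := by
      rw [← Res8_tab_eq]; unfold CE.tab; split_ifs <;> rfl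
    rw [this, Res8_g_even b (by norm_num), mul_one]
  · simp only [Nat.cast_ofNat, W_three]
    have : Res8_tb (decide (c % 4 = 0)) 3 = 5 := by
      rw [← Res8_tab_eq]; unfold CE.tab; split_ifs <;> rfl
    rw [this, Res8_g_odd b (by norm_num), one_mul]
    unfold Int.ModEq
    omega
  · simp only [Nat.cast_ofNat, W_four]
    rw [Res8_g_even b (by norm_num)]
    obtain ⟨d, hd⟩ : ∃ d, c ^ 2 - a * b ^ 2 = 8 * d + 3 := ⟨(c ^ 2 - a * b ^ 2) / 8, by omega⟩
    rw [hd]
    have h4 : b ^ 4 ≡ 1 [ZMOD 8] := by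
      have := hsq.mul hsq
      rw [mul_one] at this
      refine Int.ModEq.trans (Res8_of_eq ?_) this
      ring
    have h5 : -(b ^ 4 + 2 * c * (8 * d + 3)) * b ≡ -(1 + 2 * c * (8 * d + 3)) * b [ZMOD 8] :=
      Int.ModEq.mul_right b (Int.ModEq.neg (Int.ModEq.add_right _ h4))
    refine h5.trans ?_
    by_cases h : c % 4 = 0
    · have : Res8_tb (decide (c % 4 = 0)) 4 = 7 := by
        rw [← Res8_tab_eq]; unfold CE.tab; rw [if_pos h]; rfl
      rw [this]
      obtain ⟨e, he⟩ : ∃ e, c = 4 * e := ⟨c / 4, by omega⟩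
      subst he
      apply Int.modEq_of_dvd
      exact ⟨b * (1 + e * (8 * d + 3)), by ring⟩
    · have : Res8_tb (decide (c % 4 = 0)) 4 = 3 := by
        rw [← Res8_tab_eq]; unfold CE.tab; rw [if_neg h]; rfl
      rw [this]
      obtain ⟨e, he⟩ : ∃ e, c = 4 * e + 2 := ⟨c / 4, by omega⟩
      subst he
      apply Int.modEq_of_dvd
      exact ⟨b * (2 + e * (8 * d + 3) + 4 * d), by ring⟩

lemma Res8_nat (h : Par₀ a b c) (n : ℕ) :
    W a b c n ≡ Res8_g b n * Res8_tb (decide (c % 4 = 0)) n [ZMOD 8] := by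
  have hb := h.hb
  have hsq := Res8_sq hb
  induction n using Nat.strong_induction_on with
  | _ n ih =>
    rcases lt_or_ge n 5 with hn | hn
    · exact Res8_base h n hn
    · obtain ⟨m, hm⟩ : ∃ m, n = 2 * m ∨ n = 2 * m + 1 := ⟨n / 2, by omega⟩
      have hm2 : 2 ≤ m := by omega
      have h0 := ih m (by omega)
      have h1 := ih (m - 1) (by omega)
      have h2 := ih (m - 2) (by omega)
      have h3 := ih (m + 1) (by omega)
      have e1 : ((m - 1 : ℕ) : ℤ) = (m : ℤ) - 1 := by omega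
      have e2 : ((m - 2 : ℕ) : ℤ) = (m : ℤ) - 2 := by omega
      have e3 : ((m + 1 : ℕ) : ℤ) = (m : ℤ) + 1 := by omega
      have e4 : ((m + 2 : ℕ) : ℤ) = (m : ℤ) + 2 := by omega
      rw [e1] at h1
      rw [e2] at h2
      rw [e3] at h3
      rcases hm with hm | hm
      · have h4 := ih (m + 2) (by omega)
        rw [e4] at h4
        have e : (n : ℤ) = 2 * (m : ℤ) := by omega
        rw [e, W_dbl]
        have hT := Res8_Taux hb h4 h1 h2 h3
        refine (h0.mul hT).trans ?_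
        have hE := Int.ModEq.mul_left (Res8_g b (2 * (m : ℤ)))
          (MP308.CE.Res8_even (decide (c % 4 = 0)) m)
        refine Int.ModEq.trans (Res8_of_eq ?_) hE.symm
        rw [Res8_g_even b (n := 2 * (m : ℤ)) (by omega)]
        rcases Int.emod_two_eq_zero_or_one (m : ℤ) with hm' | hm'
        · rw [Res8_g_even b hm', Res8_g_odd b (n := (m : ℤ) + 1) (by omega)]
          ring
        · rw [Res8_g_odd b hm', Res8_g_even b (n := (m : ℤ) + 1) (by omega)]
          ring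
      · have h4 := ih (m + 2) (by omega)
        rw [e4] at h4
        have e : (n : ℤ) = 2 * (m : ℤ) + 1 := by omega
        rw [e, W_dbl_add_one, Res8_g_odd b (n := 2 * (m : ℤ) + 1) (by omega), one_mul]
        refine (Int.ModEq.sub (Int.ModEq.mul h4 (h0.pow 3)) (Int.ModEq.mul h1 (h3.pow 3))).trans ?_
        refine Int.ModEq.trans ?_ (MP308.CE.Res8_odd (decide (c % 4 = 0)) m).symm
        have h44 : b ^ 4 ≡ 1 [ZMOD 8] := by
          have := hsq.mul hsq
          rw [mul_one] at this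
          refine Int.ModEq.trans (Res8_of_eq ?_) this
          ring
        rcases Int.emod_two_eq_zero_or_one (m : ℤ) with hm' | hm'
        · rw [Res8_g_even b hm', Res8_g_odd b (n := (m : ℤ) + 1) (by omega),
            Res8_g_even b (n := (m : ℤ) + 2) (by omega), Res8_g_odd b (n := (m : ℤ) - 1) (by omega)]
          refine Int.ModEq.sub ?_ (Res8_of_eq (by ring))
          have := Int.ModEq.mul_right
            (Res8_tb (decide (c % 4 = 0)) (m + 2) * Res8_tb (decide (c % 4 = 0)) m ^ 3) h44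
          rw [one_mul] at this
          exact Int.ModEq.trans (Res8_of_eq (by ring)) this
        · rw [Res8_g_odd b hm', Res8_g_even b (n := (m : ℤ) + 1) (by omega),
            Res8_g_odd b (n := (m : ℤ) + 2) (by omega), Res8_g_even b (n := (m : ℤ) - 1) (by omega)]
          refine Int.ModEq.sub (Res8_of_eq (by ring)) ?_
          have := Int.ModEq.mul_right
            (Res8_tb (decide (c % 4 = 0)) (m - 1) * Res8_tb (decide (c % 4 = 0)) (m + 1) ^ 3) h44
          rw [one_mul] at this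
          exact Int.ModEq.trans (Res8_of_eq (by ring)) this

lemma Res8_int (h : Par₀ a b c) (n : ℤ) :
    W a b c n ≡ Res8_g b n * Res8_tb (decide (c % 4 = 0)) n [ZMOD 8] := by
  obtain ⟨m, rfl | rfl⟩ := n.eq_nat_or_neg
  · exact Res8_nat h m
  · rw [W_neg]
    have h1 := Res8_nat h m
    have hg : Res8_g b (-(m : ℤ)) = Res8_g b m := by
      unfold Res8_g
      have : (-(m : ℤ)) % 2 = 0 ↔ (m : ℤ) % 2 = 0 := by omega
      simp only [this]
    rw [hg]
    refine (Int.ModEq.neg h1).trans ?_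
    have h2 := Int.ModEq.mul_left (Res8_g b m) (MP308.CE.Res8_neg (decide (c % 4 = 0)) m)
    refine Int.ModEq.trans (Res8_of_eq ?_) h2.symm
    ring

theorem W_mod8 (h : Par₀ a b c) (n : ℤ) : W a b c n % 8 = tab b c n := by
  have h1 := Res8_int h n
  unfold Int.ModEq at h1
  rw [h1]
  unfold tab
  rw [Res8_tab_eq]
  split_ifs with h2
  · rw [Res8_g_even b h2]
  · rw [Res8_g_odd b (by omega), one_mul, MP308.CE.Res8_small]

lemma Res8_T_mod (h : Par₀ a b c) (n : ℤ) :
    T a b c n ≡ Res8_g b (n + 1) * Res8_T (decide (c % 4 = 0)) n [ZMOD 8] :=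
  Res8_Taux h.hb (Res8_int h (n + 2)) (Res8_int h (n - 1)) (Res8_int h (n - 2))
    (Res8_int h (n + 1))

lemma Res8_g_mod (hb : b % 2 = 1) (n : ℤ) : Res8_g b n % 2 = 1 := by
  unfold Res8_g
  split_ifs
  · exact hb
  · norm_num

theorem two_dvd_W_iff (h : Par₀ a b c) (n : ℤ) : (2 : ℤ) ∣ W a b c n ↔ (5 : ℤ) ∣ n := by
  have h1 := Res8_int h n
  have h2 := MP308.CE.Res8_two (decide (c % 4 = 0)) n
  have h3 : W a b c n ≡ Res8_g b n * Res8_tb (decide (c % 4 = 0)) n [ZMOD 2] :=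
    h1.of_dvd (by norm_num)
  have h4 : Res8_g b n ≡ 1 [ZMOD 2] := Res8_g_mod h.hb n
  have h5 := h3.trans (Int.ModEq.mul_right _ h4)
  rw [one_mul] at h5
  unfold Int.ModEq at h5
  rw [Int.dvd_iff_emod_eq_zero, Int.dvd_iff_emod_eq_zero, h5, h2]

/-- odd times `2 mod 4` is `2 mod 4` -/
lemma Res8_mul_mod4 {x y z : ℤ} (hx : x % 2 = 1) (hy : y % 4 = 2) (h : z ≡ x * y [ZMOD 8]) :
    z % 4 = 2 := by
  have h1 : z ≡ x * y [ZMOD 4] := h.of_dvd (by norm_num)
  have h2 : x % 4 = 1 ∨ x % 4 = 3 := by omega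
  unfold Int.ModEq at h1
  rw [h1, Int.mul_emod, hy]
  rcases h2 with h2 | h2 <;> rw [h2] <;> norm_num

/-- `v₂(W_{5j}) = 1 + v₂(j)` -/
theorem W_val (h : Par₀ a b c) (j : ℤ) (hj : j ≠ 0) :
    W a b c (5 * j) ≠ 0 ∧ padicValInt 2 (W a b c (5 * j)) = 1 + padicValInt 2 j := by
  have : Fact (Nat.Prime 2) := ⟨Nat.prime_two⟩
  obtain ⟨N, hN⟩ : ∃ N : ℕ, j.natAbs ≤ N := ⟨_, le_rfl⟩
  induction N generalizing j with
  | zero => exact absurd (Int.natAbs_eq_zero.1 (Nat.le_zero.1 hN)) hj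
  | succ N ih =>
    rcases Int.even_or_odd' j with ⟨i, hi | hi⟩
    · have hi0 : i ≠ 0 := by rintro rfl; exact hj (by rw [hi]; ring)
      obtain ⟨h1, h2⟩ := ih i hi0 (by omega)
      have e : 5 * j = 2 * (5 * i) := by rw [hi]; ring
      have hT : T a b c (5 * i) % 4 = 2 :=
        Res8_mul_mod4 (Res8_g_mod h.hb _)
          (MP308.CE.Res8_Tfive (decide (c % 4 = 0)) (5 * i) (by omega)) (Res8_T_mod h (5 * i))
      obtain ⟨h5, h6⟩ := MP308.CE.Res8_val_two hT
      rw [e, W_dbl]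
      refine ⟨mul_ne_zero h1 h5, ?_⟩
      rw [padicValInt.mul h1 h5, h2, h6]
      have e2 : j = i * (2 : ℕ) := by rw [hi]; push_cast; ring
      rw [e2, padicValInt_mul_eq_succ _ hi0]
      ring
    · have h1 : W a b c (5 * j) % 4 = 2 :=
        Res8_mul_mod4 (Res8_g_mod h.hb _)
          (MP308.CE.Res8_oddfive (decide (c % 4 = 0)) (5 * j) (by omega) (by omega))
          (Res8_int h (5 * j))
      obtain ⟨h5, h6⟩ := MP308.CE.Res8_val_two h1
      refine ⟨h5, ?_⟩
      rw [h6, padicValInt.eq_zero_of_not_dvd (z := j) (by push_cast; omega)]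

theorem W_ne (h : Par₀ a b c) (n : ℤ) (hn : n ≠ 0) : W a b c n ≠ 0 := by
  by_cases h5 : (5 : ℤ) ∣ n
  · obtain ⟨j, rfl⟩ := h5
    exact (W_val h j (by rintro rfl; simp at hn)).1
  · intro h0
    exact h5 ((two_dvd_W_iff h n).1 (by rw [h0]; exact dvd_zero _))

theorem Par₀.b_ne (h : Par₀ a b c) : b ≠ 0 := by
  have := h.hb
  omega

end MP308.CG
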