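import Pool.Agent.Work.MP_308fa9_nt.CG.CVal
import Pool.Agent.Work.MP_308fa9_nt.CG.S25b

/-! # Section 4: the primes 2 and 5 (`stage5` is in S25b) -/

set_option autoImplicit false

namespace MP308.CG

open MP308.CE (Ell Reg EDSZ op J Smooth hil J_period)

variable {α β γ : ℤ}

/-- (S40) -/
theorem stage40 (h : Par α β γ) {t : ℤ} (ht : t % 20 = 1) (hg : Good α β γ t 20) : t % 40 = 1 := by
  have hE := edsz_W h
  by_contra hcon
  have ct : IsCoprime t 20 := ⟨1, -(t / 20), by omega⟩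
  have e1 := J_of_good h (by norm_num) ct hg
  have c21 : IsCoprime (20 + 1 : ℤ) 20 := ⟨1, -1, by norm_num⟩
  have e2 : J (W α β γ) t 20 = J (W α β γ) (20 + 1) 20 :=
    J_period hE (by norm_num) c21 (Int.dvd_of_emod_eq_zero (by omega))
  rw [e1, c_20 h (by norm_num)] at e2
  norm_num at e2

/-- (S2) -/
theorem stage2 (h : Par α β γ) {t : ℤ} {k : ℕ} (hk : 3 ≤ k) (ht : (2 : ℤ) ^ k ∣ t - 1)
    (hg : Good α β γ t (2 ^ k)) : (2 : ℤ) ^ (k + 1) ∣ t - 1 := by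
  have hE := edsz_W h
  by_contra hcon
  obtain ⟨n, hn⟩ : ∃ n : ℤ, n = 2 ^ k := ⟨_, rfl⟩
  have hn0 : n ≠ 0 := by rw [hn]; positivity
  rw [pow_succ, ← hn] at hcon
  rw [← hn] at ht hg
  obtain ⟨r, hr⟩ := ht
  have hr2 : r % 2 = 1 := by
    by_contra h2
    obtain ⟨s, hs⟩ : (2 : ℤ) ∣ r := by omega
    exact hcon ⟨s, by rw [hr, hs]; ring⟩
  obtain ⟨s, hs⟩ : ∃ s, r = 1 + 2 * s := ⟨r / 2, by omega⟩
  have ct : IsCoprime t n := ⟨1, -r, by linear_combination hr⟩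
  have e1 := J_of_good h hn0 ct hg
  have e2 : J (W α β γ) t n = J (W α β γ) (n + 1) n :=
    J_period hE hn0 ⟨1, -1, by ring⟩ ⟨s, by linear_combination hr + n * hs⟩
  have hn8 : n % 8 = 0 := by
    rw [hn]
    obtain ⟨j, rfl⟩ : ∃ j, k = 3 + j := ⟨k - 3, by omega⟩
    rw [pow_add]
    norm_num
  have hn5 : n % 5 ≠ 0 := by
    intro h0
    have p5 : Prime (5 : ℤ) := by norm_num
    have := p5.dvd_of_dvd_pow (hn ▸ Int.dvd_of_emod_eq_zero h0)
    norm_num at this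
  rw [e1, c_8 h hn8 hn5] at e2
  norm_num at e2

end MP308.CG
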